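import Pool.Agent.H59.Slit.F3D

/-! Job SL-F3: the leading coefficients of the homogeneous numerator. -/

set_option autoImplicit false
open Polynomial

namespace Pool.Agent.H59.Slit
open Pool.Agent.H72.Cardy

variable {q a : ℂ} {Φ : List ℂ → List Bool → ℂ}

namespace F3

lemma sumC_congr (k : ℕ) {f g : List Bool → ℂ} (h : ∀ s : List Bool, s.length = k → f s = g s) :
    sumC k f = sumC k g := by
  induction k generalizing f g with
  | zero => exact h [] rfl
  | succ k ih =>
    unfold sumC
    rw [ih (f := fun s => f (false :: s)) (g := fun s => g (false :: s)) fun s hs => h _ (by simp [hs]),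
      ih (f := fun s => f (true :: s)) (g := fun s => g (true :: s)) fun s hs => h _ (by simp [hs])]

lemma sumC_mul (k : ℕ) (c : ℂ) (f : List Bool → ℂ) :
    sumC k (fun s => c * f s) = c * sumC k f := by
  induction k generalizing f with
  | zero => rfl
  | succ k ih =>
    unfold sumC
    rw [ih (fun s => f (false :: s)), ih (fun s => f (true :: s))]
    ring

lemma sumC_add (k : ℕ) (f g : List Bool → ℂ) :
    sumC k (fun s => f s + g s) = sumC k f + sumC k g := by
  induction k generalizing f g with
  | zero => rfl
  | succ k ih =>
    unfold sumC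
    rw [ih (fun s => f (false :: s)) (fun s => g (false :: s)),
      ih (fun s => f (true :: s)) (fun s => g (true :: s))]
    ring

lemma sumC_last (k : ℕ) (f : List Bool → ℂ) :
    sumC (k + 1) f = sumC k (fun s => f (s ++ [false])) + sumC k (fun s => f (s ++ [true])) := by
  induction k generalizing f with
  | zero => rfl
  | succ k ih =>
    rw [sumC, ih (fun s => f (false :: s)), ih (fun s => f (true :: s))]
    rw [sumC, sumC]
    simp only [List.cons_append]
    ring

lemma sumC_flip (k : ℕ) (f : List Bool → ℂ) :
    sumC k (fun s => f (s.map not).reverse) = sumC k f := by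
  induction k generalizing f with
  | zero => rfl
  | succ k ih =>
    rw [sumC_last k f, sumC]
    have h1 : sumC k (fun s => f ((false :: s).map not).reverse) =
        sumC k (fun s => f (s ++ [true])) := by
      rw [← ih (fun s => f (s ++ [true]))]
      refine sumC_congr k fun s _ => ?_
      simp
    have h2 : sumC k (fun s => f ((true :: s).map not).reverse) =
        sumC k (fun s => f (s ++ [false])) := by
      rw [← ih (fun s => f (s ++ [false]))]
      refine sumC_congr k fun s _ => ?_
      simp
    rw [h1, h2, add_comm]

lemma sumC_comm (k l : ℕ) (f : List Bool → List Bool → ℂ) :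
    sumC k (fun s => sumC l (fun t => f s t)) = sumC l (fun t => sumC k (fun s => f s t)) := by
  induction k generalizing f with
  | zero => rfl
  | succ k ih =>
    rw [sumC, ih (fun s t => f (false :: s) t), ih (fun s t => f (true :: s) t), ← sumC_add]
    rfl

lemma coef_sumC (n j k : ℕ) (f : List Bool → ℂ → ℂ) :
    coef n j (fun η => sumC k (fun s => f s η)) = sumC k (fun s => coef n j (f s)) := by
  induction k generalizing f with
  | zero => rfl
  | succ k ih =>
    simp only [sumC]
    rw [coef_add, ih (fun s => f (false :: s)), ih (fun s => f (true :: s))]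

/-- the coefficient of the numerator at the homogeneous point, up to a factor -/
noncomputable def Cf0 (Φ : List ℂ → List Bool → ℂ) (m k l : ℕ) : ℂ :=
  sumC k fun s => sumC l fun t => tp Φ false m (List.replicate (k + l) 1) (s ++ t) *
    Φ (List.replicate k 1) s * Φ (List.replicate l 1) ((t.map not).reverse)

lemma rep_ne (k : ℕ) : ∀ z ∈ List.replicate k (1 : ℂ), z ≠ 0 := by
  intro z hz
  rw [List.eq_of_mem_replicate hz]
  exact one_ne_zero

lemma Cf0_symm (hq : q ^ 2 + q + 1 = 0) (ha : a ^ 2 = - q ^ 2) (hΦ : Sol q a Φ) (m k l : ℕ)
    (hkl : k + l = 2 * m) : Cf0 Φ m k l = Cf0 Φ m l k := by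
  unfold Cf0
  rw [← sumC_flip k]
  have h1 : ∀ s : List Bool, sumC l (fun t => tp Φ false m (List.replicate (k + l) 1)
      ((s.map not).reverse ++ t) * Φ (List.replicate k 1) (s.map not).reverse *
        Φ (List.replicate l 1) ((t.map not).reverse)) =
      sumC l (fun t => tp Φ false m (List.replicate (l + k) 1) (t ++ s) *
        Φ (List.replicate l 1) t * Φ (List.replicate k 1) (s.map not).reverse) := by
    intro s
    rw [← sumC_flip l]
    refine sumC_congr l fun t _ => ?_
    have e1 : (((t.map not).reverse.map not).reverse) = t := by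
      rw [List.map_reverse, List.reverse_reverse, List.map_map]
      have : (not ∘ not) = id := by
        funext b
        simp
      rw [this, List.map_id]
    have h2 := tp_refl hq ha hΦ m (List.replicate (k + l) 1) (t ++ s) (rep_ne _)
      (by rw [List.length_replicate, hkl])
    have e2 : tq Φ m (List.replicate (k + l) 1) (t ++ s) =
        tp Φ false m (List.replicate (k + l) 1) ((s.map not).reverse ++ (t.map not).reverse) := by
      unfold tq
      rw [List.map_replicate, List.reverse_replicate, inv_one, List.map_append,
        List.reverse_append]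
    rw [e2] at h2
    rw [e1, ← sub_eq_zero.mp h2, add_comm l k]
    ring
  rw [sumC_congr k fun s _ => h1 s, sumC_comm]

lemma count_aux {s : List Bool} {k : ℕ} (hs : s.length = k) (hk : k = 2 * s.count true + 1) :
    s.count false = s.count true + 1 := by
  have h := List.count_not_add_count s true
  simp only [Bool.not_true] at h
  omega

lemma fac_hi (hq : q ^ 2 + q + 1 = 0) (j : ℕ) :
    (-q ^ 2) ^ (j + 1) * (-q) ^ j = -q ^ 2 := by
  have h := q_cube hq
  have : (-q ^ 2) ^ (j + 1) * (-q) ^ j = -q ^ 2 * (q ^ 3) ^ j := by
    rw [pow_succ, ← pow_mul]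
    calc (-q ^ 2) ^ j * -q ^ 2 * (-q) ^ j = -q ^ 2 * ((-q ^ 2) ^ j * (-q) ^ j) := by ring
      _ = -q ^ 2 * ((-q ^ 2) * (-q)) ^ j := by rw [mul_pow]
      _ = -q ^ 2 * (q ^ 3) ^ j := by ring
      _ = -q ^ 2 * q ^ (3 * j) := by rw [← pow_mul]
  rw [this, h, one_pow, mul_one]

lemma fac_lo (hq : q ^ 2 + q + 1 = 0) (j : ℕ) :
    (-q) ^ (j + 1) * (-q ^ 2) ^ j = -q := by
  have h := q_cube hq
  have : (-q) ^ (j + 1) * (-q ^ 2) ^ j = -q * (q ^ 3) ^ j := by
    rw [pow_succ]
    calc (-q) ^ j * -q * (-q ^ 2) ^ j = -q * ((-q) ^ j * (-q ^ 2) ^ j) := by ring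
      _ = -q * ((-q) * (-q ^ 2)) ^ j := by rw [mul_pow]
      _ = -q * (q ^ 3) ^ j := by ring
  rw [this, h, one_pow, mul_one]

end F3

open F3

/-- the coefficients of the extreme powers of `η` in the homogeneous numerator -/
theorem NS_lead (hq : q ^ 2 + q + 1 = 0) (ha : a ^ 2 = - q ^ 2) (hΦ : Sol q a Φ) (m : ℕ) :
    ∃ Cf : ℕ → ℕ → ℂ, (∀ k l, Cf k l = Cf l k) ∧ ∀ k l : ℕ, k % 2 = 1 → l % 2 = 1 → k + l = 2 * m →
      ∀ P : ℂ[X], P.natDegree ≤ 2 * m → (∀ η, η ≠ 0 →
        η ^ m * NS Φ (List.replicate k 1) (List.replicate l 1) η = P.eval η) →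
      P.coeff (2 * m) = - q ^ 2 * Cf k l ∧ P.coeff 0 = - q * Cf k l := by
  classical
  refine ⟨fun k l => if k + l = 2 * m then Cf0 Φ m k l else 0, ?_, ?_⟩
  · intro k l
    by_cases h : k + l = 2 * m
    · simp only [if_pos h, if_pos ((add_comm l k).trans h)]
      exact Cf0_symm hq ha hΦ m k l h
    · simp only [if_neg h]
      rw [if_neg]
      rw [add_comm]
      exact h
  · intro k l hk hl hkl P hP hPe
    simp only [if_pos hkl]
    -- coefficients of the numerator
    have hNS : ∀ j, P.coeff j = sumC k fun s => sumC l fun t =>
        (Φ (List.replicate k 1) s * Φ (List.replicate l 1) ((t.map not).reverse)) *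
          coef m j (fun η => Φ (List.replicate k 1 ++ η :: List.replicate l 1)
            (s ++ false :: t)) := by
      intro j
      rw [← coef_eq j hP hPe]
      have e1 : NS Φ (List.replicate k 1) (List.replicate l 1) =
          fun η => sumC k fun s => sumC l fun t =>
            (Φ (List.replicate k 1) s * Φ (List.replicate l 1) ((t.map not).reverse)) *
              Φ (List.replicate k 1 ++ η :: List.replicate l 1) (s ++ false :: t) := by
        funext η
        unfold NS
        rw [List.length_replicate, List.length_replicate, List.map_replicate,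
          List.reverse_replicate, inv_one]
        refine sumC_congr k fun s _ => sumC_congr l fun t _ => ?_
        ring
      rw [e1, coef_sumC]
      refine sumC_congr k fun s _ => ?_
      rw [coef_sumC]
      refine sumC_congr l fun t _ => ?_
      rw [coef_mul]
    have hlen : (List.replicate k (1 : ℂ)).length + (List.replicate l (1 : ℂ)).length = 2 * m := by
      rw [List.length_replicate, List.length_replicate, hkl]
    constructor
    · rw [hNS (2 * m)]
      unfold Cf0
      rw [← sumC_mul]
      refine sumC_congr k fun s hs => ?_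
      rw [← sumC_mul]
      refine sumC_congr l fun t ht => ?_
      by_cases h0 : Φ (List.replicate k 1) s = 0
      · rw [h0]
        ring
      · have h1 := hΦ.supp _ _ h0
        rw [List.length_replicate] at h1
        have h2 := count_aux h1.1 h1.2
        have h3 := hi_move hq ha hΦ m (List.replicate k 1) (List.replicate l 1) s t (rep_ne _)
          (rep_ne _) (by rw [List.length_replicate, hs]) (by rw [List.length_replicate, ht]) hlen
        rw [h2, fac_hi hq, List.replicate_append_replicate] at h3
        unfold hi at h3
        rw [h3]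
        ring
    · rw [hNS 0]
      unfold Cf0
      rw [← sumC_mul]
      refine sumC_congr k fun s hs => ?_
      rw [← sumC_mul]
      refine sumC_congr l fun t ht => ?_
      by_cases h0 : Φ (List.replicate k 1) s = 0
      · rw [h0]
        ring
      · have h1 := hΦ.supp _ _ h0
        rw [List.length_replicate] at h1
        have h2 := count_aux h1.1 h1.2
        have h3 := lo_move hq ha hΦ m (List.replicate k 1) (List.replicate l 1) s t (rep_ne _)
          (rep_ne _) (by rw [List.length_replicate, hs]) (by rw [List.length_replicate, ht]) hlen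
        rw [h2, fac_lo hq, List.replicate_append_replicate] at h3
        unfold lo at h3
        rw [h3]
        ring

end Pool.Agent.H59.Slit
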