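import Pool.Agent.H68.Slit.EllEq
import Pool.Agent.H68.Slit.BetaLaw

set_option autoImplicit false

/-!
# CardySlit, job SL-HYP (helper68): the homogeneous law

`ell m a b = 2 law a b - 1` (`ell_eq`), the properties of the beta-binomial law, and its limit.
The proof of `ell_eq` is in `Pool/Agent/H68/Slit/{Core,HH,Mu,VV,VRel,QEq,Coef,HSum,EllEq}.lean`.
-/

namespace Pool.Agent.H59.Slit

open Filter Topology

theorem ell_antisymm (m a b : ℕ) : ell m b a = -ell m a b :=
  Pool.Agent.H68.SlitH.ell_antisymm m a b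

theorem law_symm (a b : ℕ) : law a b + law b a = 1 :=
  Pool.Agent.H68.SlitH.law_symm a b

theorem law_step (a b : ℕ) :
    law (a + 1) b - law a (b + 1) =
      1 / 5 * (rp (4 / 3) a / rp 2 a) * (rp (4 / 3) b / rp 2 b) * (rp 3 (a + b) / rp (8 / 3) (a + b)) :=
  Pool.Agent.H68.SlitH.law_step a b

theorem law_zero (b : ℕ) : law 0 b = 1 / 2 * (rp (4 / 3) b / rp (5 / 3) b) :=
  Pool.Agent.H68.SlitH.law_zero b

/-- main -/
theorem ell_eq (a b m : ℕ) (ha : a % 2 = 1) (hb : b % 2 = 1) (hm : a + b = 2 * m) :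
    ell m a b = 2 * law a b - 1 :=
  Pool.Agent.H68.SlitH.ell_eq a b m ha hb hm

lemma rp_ratio (x y : ℚ) (n : ℕ) :
    ((rp x n / rp y n : ℚ) : ℝ) = Pool.Agent.H68.Slit.rf (x : ℝ) (y : ℝ) n := by
  unfold rp Pool.Agent.H68.Slit.rf
  rw [← Finset.prod_div_distrib]
  push_cast
  refine Finset.prod_congr rfl fun j _ => ?_
  rw [add_comm (x : ℝ), add_comm (y : ℝ)]

/-- the scaling limit of the law: the distribution function of the Beta(1/3,1/3) law -/
theorem law_tendsto (A B : ℕ → ℕ) (s : ℝ) (hN : Tendsto (fun n => A n + B n) atTop atTop)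
    (hs : Tendsto (fun n => (A n : ℝ) / ((A n : ℝ) + B n)) atTop (𝓝 s)) :
    Tendsto (fun n => ((law (A n) (B n) : ℚ) : ℝ)) atTop
      (𝓝 (Real.Gamma (2 / 3) / Real.Gamma (1 / 3) ^ 2 *
        ∫ x in (0 : ℝ)..s, x ^ (-(2 / 3) : ℝ) * (1 - x) ^ (-(2 / 3) : ℝ))) := by
  refine Pool.Agent.H68.Slit.beta_law (p := fun a b => ((law a b : ℚ) : ℝ)) ?_ ?_ A B s hN hs
  · intro M
    have h := congrArg (fun q : ℚ => (q : ℝ)) (law_zero M)
    simp only [Rat.cast_mul] at h
    rw [rp_ratio] at h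
    push_cast at h
    exact h
  · intro a b
    have h := congrArg (fun q : ℚ => (q : ℝ)) (law_step a b)
    simp only [Rat.cast_mul, Rat.cast_sub] at h
    rw [rp_ratio, rp_ratio, rp_ratio] at h
    unfold Pool.Agent.H68.Slit.ww
    push_cast at h
    exact h

end Pool.Agent.H59.Slit
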