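import Pool.Agent.H59.Slit.N2

set_option autoImplicit false
open Polynomial Filter Topology

/-! Cardy formula in the slit strip: the homogeneous limit of the numerator. -/

namespace Pool.Agent.H59.Slit
open Pool.Agent.H72.Cardy

/-! ### Convergence of polynomials -/

/-- coefficientwise convergence with bounded degree -/
structure PT {ι : Type*} (F : Filter ι) (N : ℕ) (p : ι → ℂ[X]) (L : ℂ[X]) : Prop where
  deg : ∀ e, (p e).natDegree ≤ N
  degL : L.natDegree ≤ N
  lim : ∀ j, Tendsto (fun e => (p e).coeff j) F (𝓝 (L.coeff j))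

section core
variable {ι : Type*} {F : Filter ι} {N : ℕ} {p : ι → ℂ[X]} {L : ℂ[X]}

theorem PT.eval (h : PT F N p L) {z : ι → ℂ} {w : ℂ} (hz : Tendsto z F (𝓝 w)) :
    Tendsto (fun e => (p e).eval (z e)) F (𝓝 (L.eval w)) := by
  have e1 : ∀ e, (p e).eval (z e) = ∑ i ∈ Finset.range (N + 1), (p e).coeff i * z e ^ i :=
    fun e => Polynomial.eval_eq_sum_range' (Nat.lt_succ_of_le (h.deg e)) _
  rw [Polynomial.eval_eq_sum_range' (Nat.lt_succ_of_le h.degL)]
  simp only [e1]
  exact tendsto_finsetSum _ fun i _ => (h.lim i).mul (hz.pow i)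

theorem coeff_div_lin (p : ℂ[X]) (a : ℂ) (N : ℕ) (hN : p.natDegree ≤ N) (n : ℕ) :
    (p /ₘ (X - C a)).coeff n = ∑ i ∈ Finset.Icc (n + 1) N, a ^ (i - (n + 1)) * p.coeff i := by
  rw [Polynomial.coeff_divByMonic_X_sub_C]
  apply Finset.sum_subset
  · intro i hi
    rw [Finset.mem_Icc] at hi ⊢
    exact ⟨hi.1, hi.2.trans hN⟩
  · intro i hi hi'
    rw [Finset.mem_Icc] at hi hi'
    have : p.natDegree < i := by
      by_contra hc
      exact hi' ⟨hi.1, by omega⟩
    rw [Polynomial.coeff_eq_zero_of_natDegree_lt this, mul_zero]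

theorem PT.div (h : PT F N p L) {z : ι → ℂ} {w : ℂ} (hz : Tendsto z F (𝓝 w)) :
    PT F N (fun e => p e /ₘ (X - C (z e))) (L /ₘ (X - C w)) := by
  refine ⟨fun e => ?_, ?_, fun j => ?_⟩
  · rw [Polynomial.natDegree_divByMonic _ (Polynomial.monic_X_sub_C _)]
    exact (Nat.sub_le _ _).trans (h.deg e)
  · rw [Polynomial.natDegree_divByMonic _ (Polynomial.monic_X_sub_C _)]
    exact (Nat.sub_le _ _).trans h.degL
  · simp only [fun e => coeff_div_lin (p e) (z e) N (h.deg e) j]
    rw [coeff_div_lin L w N h.degL j]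
    exact tendsto_finsetSum _ fun i _ => (hz.pow _).mul (h.lim i)

/-- polynomials of bounded degree with `r` different zeros tending to `w` -/
theorem PT.core [F.NeBot] (w : ℂ) (zs : List (ι → ℂ)) : ∀ {p : ι → ℂ[X]} {L : ℂ[X]}, PT F N p L →
    (∀ z ∈ zs, Tendsto z F (𝓝 w)) → zs.Pairwise (fun z z' => ∀ᶠ e in F, z e ≠ z' e) →
    (∀ z ∈ zs, ∀ᶠ e in F, (p e).eval (z e) = 0) → (X - C w) ^ zs.length ∣ L := by
  induction zs with
  | nil => intro p L _ _ _ _; simp
  | cons z zs ih =>
    intro p L h ht hd h0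
    have hz := ht z (by simp)
    have hL : L.eval w = 0 := by
      have h1 := h.eval hz
      have h2 : Tendsto (fun e => (p e).eval (z e)) F (𝓝 0) :=
        tendsto_const_nhds.congr' ((h0 z (by simp)).mono fun e he => he.symm)
      exact tendsto_nhds_unique h1 h2
    have hdvd : (X - C w) * (L /ₘ (X - C w)) = L :=
      Polynomial.mul_divByMonic_eq_iff_isRoot.2 hL
    have key := ih (h.div hz) (fun z' hz' => ht z' (by simp [hz'])) (List.pairwise_cons.1 hd).2 ?_
    · rw [List.length_cons, pow_succ', ← hdvd]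
      exact mul_dvd_mul_left _ key
    · intro z' hz'
      filter_upwards [h0 z (by simp), h0 z' (by simp [hz']), (List.pairwise_cons.1 hd).1 z' hz']
        with e he he' hne
      have hde : (X - C (z e)) * (p e /ₘ (X - C (z e))) = p e :=
        Polynomial.mul_divByMonic_eq_iff_isRoot.2 he
      rw [← hde, Polynomial.eval_mul] at he'
      rcases mul_eq_zero.1 he' with h1 | h1
      · exfalso
        apply hne
        simp only [Polynomial.eval_sub, Polynomial.eval_X, Polynomial.eval_C] at h1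
        linear_combination -h1
      · exact h1

end core

/-! ### Families of polynomials with continuous coefficients -/

/-- the coefficients are continuous at `0` -/
def CC (p : ℝ → ℂ[X]) : Prop := ∀ j, ContinuousAt (fun e => (p e).coeff j) 0

theorem CC.add {p r : ℝ → ℂ[X]} (hp : CC p) (hr : CC r) : CC fun e => p e + r e := by
  intro j
  simp only [Polynomial.coeff_add]
  exact (hp j).add (hr j)

theorem CC.sub {p r : ℝ → ℂ[X]} (hp : CC p) (hr : CC r) : CC fun e => p e - r e := by
  intro j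
  simp only [Polynomial.coeff_sub]
  exact (hp j).sub (hr j)

theorem CC.mul {p r : ℝ → ℂ[X]} (hp : CC p) (hr : CC r) : CC fun e => p e * r e := by
  intro j
  simp only [Polynomial.coeff_mul]
  exact tendsto_finsetSum _ fun i _ => (hp _).mul (hr _)

theorem CC.constC (c : ℂ[X]) : CC fun _ => c := fun _ => continuousAt_const

theorem CC.C {f : ℝ → ℂ} (hf : ContinuousAt f 0) : CC fun e => Polynomial.C (f e) := by
  intro j
  simp only [Polynomial.coeff_C]
  split_ifs
  · exact hf
  · exact continuousAt_const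

theorem CC.list_prod {α : Type*} (l : List α) (f : α → ℝ → ℂ[X]) (h : ∀ a ∈ l, CC (f a)) :
    CC fun e => (l.map fun a => f a e).prod := by
  induction l with
  | nil => simpa using CC.constC 1
  | cons a l ih =>
    simp only [List.map_cons, List.prod_cons]
    exact (h a (by simp)).mul (ih fun b hb => h b (by simp [hb]))

theorem CC.comp {p : ℝ → ℂ[X]} (hp : CC p) (c : ℂ) : CC fun e => (p e).comp (Polynomial.C c * X) := by
  intro j
  simp only [Polynomial.comp_C_mul_X_coeff]
  exact (hp j).mul continuousAt_const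

theorem CC.reflect {p : ℝ → ℂ[X]} (hp : CC p) (N : ℕ) : CC fun e => (p e).reflect N := by
  intro j
  simp only [Polynomial.coeff_reflect]
  exact hp _

theorem CC.mv {n : ℕ} (Q : MvPolynomial (Fin n) ℂ) (f : ℝ → Fin n → ℂ[X])
    (hf : ∀ i, CC fun e => f e i) : CC fun e => MvPolynomial.eval₂ Polynomial.C (f e) Q := by
  induction Q using MvPolynomial.induction_on with
  | C a => simpa using CC.constC (Polynomial.C a)
  | add p q hp hq => simpa using hp.add hq
  | mul_X p i hp => simpa using hp.mul (hf i)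

theorem natDegree_mv {n : ℕ} (Q : MvPolynomial (Fin n) ℂ) (f : Fin n → ℂ[X]) (i : Fin n) (N : ℕ)
    (hQ : Q.degreeOf i ≤ N) (hi : (f i).natDegree ≤ 1) (hf : ∀ j, j ≠ i → (f j).natDegree = 0) :
    (MvPolynomial.eval₂ Polynomial.C f Q).natDegree ≤ N := by
  rw [MvPolynomial.eval₂_eq']
  apply Polynomial.natDegree_sum_le_of_forall_le
  intro d hd
  refine (Polynomial.natDegree_C_mul_le _ _).trans ?_
  refine (Polynomial.natDegree_prod_le _ _).trans ?_
  calc ∑ j, ((f j) ^ d j).natDegree ≤ ∑ j, (if j = i then d i else 0) := by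
        apply Finset.sum_le_sum
        intro j _
        by_cases hj : j = i
        · subst hj
          simp only [if_true]
          refine Polynomial.natDegree_pow_le.trans ?_
          nlinarith
        · rw [if_neg hj]
          refine Polynomial.natDegree_pow_le.trans ?_
          rw [hf j hj, mul_zero]
    _ = d i := by simp
    _ ≤ N := (MvPolynomial.monomial_le_degreeOf i hd).trans hQ

/-- `g ε` is a polynomial of degree at most `N` in `η`, with coefficients continuous at `ε = 0` -/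
def Good (N : ℕ) (g : ℝ → ℂ → ℂ) : Prop :=
  ∃ p : ℝ → ℂ[X], (∀ e, (p e).natDegree ≤ N) ∧ CC p ∧
    ∀ e, 0 ≤ e → ∀ η, η ≠ 0 → g e η = (p e).eval η

theorem Good.add {N : ℕ} {g h : ℝ → ℂ → ℂ} (hg : Good N g) (hh : Good N h) :
    Good N fun e η => g e η + h e η := by
  obtain ⟨p, hp1, hp2, hp3⟩ := hg
  obtain ⟨r, hr1, hr2, hr3⟩ := hh
  refine ⟨fun e => p e + r e, fun e => ?_, hp2.add hr2, fun e he η hη => ?_⟩
  · exact (Polynomial.natDegree_add_le _ _).trans (max_le (hp1 e) (hr1 e))
  · show g e η + h e η = _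
    rw [Polynomial.eval_add, hp3 e he η hη, hr3 e he η hη]

theorem Good.smul {N : ℕ} {g : ℝ → ℂ → ℂ} (hg : Good N g) {f : ℝ → ℂ} (hf : ContinuousAt f 0) :
    Good N fun e η => g e η * f e := by
  obtain ⟨p, hp1, hp2, hp3⟩ := hg
  refine ⟨fun e => p e * Polynomial.C (f e), fun e => ?_, hp2.mul (CC.C hf), fun e he η hη => ?_⟩
  · exact (Polynomial.natDegree_mul_C_le _ _).trans (hp1 e)
  · show g e η * f e = _
    rw [Polynomial.eval_mul, Polynomial.eval_C, hp3 e he η hη]

theorem Good.sumC {N : ℕ} (k : ℕ) : ∀ (g : List Bool → ℝ → ℂ → ℂ),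
    (∀ s, s.length = k → Good N (g s)) → Good N fun e η => sumC k fun s => g s e η := by
  induction k with
  | zero => intro g hg; exact hg [] rfl
  | succ k ih =>
    intro g hg
    exact (ih (fun s => g (false :: s)) fun s hs => hg _ (by simp [hs])).add
      (ih (fun s => g (true :: s)) fun s hs => hg _ (by simp [hs]))

theorem Good.congr {N : ℕ} {g h : ℝ → ℂ → ℂ} (hg : Good N g)
    (H : ∀ e, 0 ≤ e → ∀ η, η ≠ 0 → h e η = g e η) : Good N h := by
  obtain ⟨p, hp1, hp2, hp3⟩ := hg
  exact ⟨p, hp1, hp2, fun e he η hη => (H e he η hη).trans (hp3 e he η hη)⟩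

/-! ### The parameters -/

/-- the parameter number `i` -/
noncomputable def pc (i : ℕ) (e : ℝ) : ℂ := ((1 + (i + 1) * e : ℝ) : ℂ)

theorem pc_zero (i : ℕ) : pc i 0 = 1 := by simp [pc]

theorem pc_ne (i : ℕ) {e : ℝ} (he : 0 ≤ e) : pc i e ≠ 0 := by
  unfold pc
  rw [Complex.ofReal_ne_zero]
  positivity

theorem pc_cont (i : ℕ) : Continuous (pc i) := by
  unfold pc
  exact Complex.continuous_ofReal.comp (by fun_prop)

theorem pc_inv_cont (i : ℕ) : ContinuousAt (fun e => (pc i e)⁻¹) 0 :=
  (pc_cont i).continuousAt.inv₀ (by rw [pc_zero]; exact one_ne_zero)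

theorem list_prod_cont {α : Type*} (l : List α) (f : α → ℝ → ℂ)
    (h : ∀ a ∈ l, ContinuousAt (f a) 0) : ContinuousAt (fun e => (l.map fun a => f a e).prod) 0 := by
  induction l with
  | nil => simpa using continuousAt_const
  | cons a l ih =>
    simp only [List.map_cons, List.prod_cons]
    exact (h a (by simp)).mul (ih fun b hb => h b (by simp [hb]))

/-- continuity of the ground state in the parameters -/
theorem cont_Phi {q a : ℂ} {Φ : List ℂ → List Bool → ℂ} (hΦ : Sol q a Φ) (n : ℕ) (s : List Bool)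
    (idx : List ℕ) (hidx : idx.length = 2 * n + 1) (c : ℕ → ℝ → ℂ)
    (hc : ∀ i, ContinuousAt (c i) 0) (h0 : ∀ i e, 0 ≤ e → c i e ≠ 0) :
    ∃ f : ℝ → ℂ, ContinuousAt f 0 ∧ ∀ e, 0 ≤ e → Φ (idx.map fun i => c i e) s = f e := by
  obtain ⟨Q, -, hQ⟩ := hΦ.poly n s
  set g : Fin (2 * n + 1) → ℕ := fun j => idx[(j : ℕ)]'(by rw [hidx]; exact j.2) with hg
  have hid : idx = List.ofFn g := by
    apply List.ext_getElem
    · simp [hidx]
    · intro i h1 h2
      rw [List.getElem_ofFn]
  have hmap : ∀ e, (idx.map fun i => c i e) = List.ofFn fun j => c (g j) e := by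
    intro e
    rw [hid, List.map_ofFn]
    rfl
  refine ⟨fun e => MvPolynomial.eval (fun j => c (g j) e) Q * ((∏ j, c (g j) e) ^ n)⁻¹, ?_, ?_⟩
  · apply ContinuousAt.mul
    · have hcont : Continuous fun z : Fin (2 * n + 1) → ℂ => MvPolynomial.eval z Q :=
        MvPolynomial.continuous_eval Q
      exact hcont.continuousAt.comp (continuousAt_pi.2 fun j => hc _)
    · apply ContinuousAt.inv₀
      · apply ContinuousAt.pow
        exact tendsto_finsetProd _ fun j _ => hc _
      · exact pow_ne_zero _ (Finset.prod_ne_zero_iff.2 fun j _ => h0 _ _ le_rfl)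
  · intro e he
    have hne : (∏ j, c (g j) e) ^ n ≠ 0 :=
      pow_ne_zero _ (Finset.prod_ne_zero_iff.2 fun j _ => h0 _ _ he)
    rw [hmap, eq_mul_inv_iff_mul_eq₀ hne, mul_comm]
    exact hQ _ fun j => h0 _ _ he

/-- the parameters on the left -/
noncomputable def xs (k : ℕ) (e : ℝ) : List ℂ := (List.range k).map fun i => pc i e

/-- the parameters on the right -/
noncomputable def ys (k l : ℕ) (e : ℝ) : List ℂ := (List.range' k l).map fun i => pc i e

theorem xs_ne {k : ℕ} {e : ℝ} (he : 0 ≤ e) : ∀ v ∈ xs k e, v ≠ 0 := by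
  intro v hv
  simp only [xs, List.mem_map] at hv
  obtain ⟨i, -, rfl⟩ := hv
  exact pc_ne i he

theorem ys_ne {k l : ℕ} {e : ℝ} (he : 0 ≤ e) : ∀ v ∈ ys k l e, v ≠ 0 := by
  intro v hv
  simp only [ys, List.mem_map] at hv
  obtain ⟨i, -, rfl⟩ := hv
  exact pc_ne i he

theorem xs_zero (k : ℕ) : xs k 0 = List.replicate k 1 := by
  apply List.ext_getElem
  · simp [xs]
  · intro i h1 h2
    simp [xs, pc_zero]

theorem ys_zero (k l : ℕ) : ys k l 0 = List.replicate l 1 := by
  apply List.ext_getElem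
  · simp [ys]
  · intro i h1 h2
    simp [ys, pc_zero]

theorem good_Phi {q a : ℂ} {Φ : List ℂ → List Bool → ℂ} (hΦ : Sol q a Φ) (k l m : ℕ)
    (hm : k + l = 2 * m) (s : List Bool) :
    Good (2 * m) fun e η => η ^ m * Φ (xs k e ++ η :: ys k l e) s := by
  obtain ⟨Q, hQd, hQ⟩ := hΦ.poly m s
  set f : ℝ → Fin (2 * m + 1) → ℂ[X] := fun e j =>
    if (j : ℕ) < k then C (pc j e) else if (j : ℕ) = k then X else C (pc (j - 1) e) with hf
  have hcf : ContinuousAt (fun e => (((xs k e).prod * (ys k l e).prod) ^ m)⁻¹) 0 := by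
    apply ContinuousAt.inv₀
    · apply ContinuousAt.pow
      exact (list_prod_cont _ _ fun i _ => (pc_cont i).continuousAt).mul
        (list_prod_cont _ _ fun i _ => (pc_cont i).continuousAt)
    · apply pow_ne_zero
      apply mul_ne_zero
      · exact List.prod_ne_zero fun h => xs_ne le_rfl _ h rfl
      · exact List.prod_ne_zero fun h => ys_ne le_rfl _ h rfl
  have hcl : ∀ (e : ℝ) (η : ℂ), List.ofFn (fun j => (f e j).eval η) = xs k e ++ η :: ys k l e := by
    intro e η
    apply List.ext_getElem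
    · simp [xs, ys]; omega
    · intro i h1 h2
      simp only [List.getElem_ofFn, hf]
      by_cases hi : i < k
      · rw [if_pos hi, List.getElem_append_left (by simpa [xs] using hi)]
        simp [xs]
      · rw [if_neg hi, List.getElem_append_right (by simpa [xs] using hi)]
        by_cases hi2 : i = k
        · rw [if_pos hi2]
          subst hi2
          simp [xs]
        · rw [if_neg hi2]
          obtain ⟨d, rfl⟩ : ∃ d, i = k + 1 + d := ⟨i - (k + 1), by omega⟩
          have e1 : k + 1 + d - (xs k e).length = d + 1 := by simp [xs]; omega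
          simp only [e1, List.getElem_cons_succ]
          simp only [Polynomial.eval_C, ys, List.getElem_map, List.getElem_range']
          congr 1
          omega
  have hev : ∀ (e : ℝ) (η : ℂ), (MvPolynomial.eval₂ C (f e) Q).eval η =
      MvPolynomial.eval (fun j => (f e j).eval η) Q := by
    intro e η
    have := MvPolynomial.hom_eval₂ Q (C : ℂ →+* ℂ[X]) (Polynomial.evalRingHom η) (f e)
    rw [Polynomial.coe_evalRingHom] at this
    rw [this]
    have h2 : (Polynomial.evalRingHom η).comp (C : ℂ →+* ℂ[X]) = RingHom.id ℂ := by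
      ext; simp
    rw [h2]
    rfl
  refine Good.congr (g := fun e η => (MvPolynomial.eval₂ C (f e) Q).eval η *
    (((xs k e).prod * (ys k l e).prod) ^ m)⁻¹) (Good.smul ?_ hcf) ?_
  · refine ⟨fun e => MvPolynomial.eval₂ C (f e) Q, fun e => ?_, ?_, fun e _ η _ => rfl⟩
    · refine natDegree_mv Q (f e) ⟨k, by omega⟩ _ (hQd _) ?_ ?_
      · simp [hf]
      · intro j hj
        have hj' : (j : ℕ) ≠ k := fun h => hj (Fin.ext h)
        simp only [hf]
        split_ifs <;> simp
    · apply CC.mv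
      intro i
      simp only [hf]
      split_ifs
      · exact CC.C (pc_cont _).continuousAt
      · exact CC.constC _
      · exact CC.C (pc_cont _).continuousAt
  · intro e he η hη
    have hx := @xs_ne k e he
    have hy := @ys_ne k l e he
    have h3 := hQ (fun j => (f e j).eval η) ?_
    · have h4 : ∏ j, (f e j).eval η = (xs k e).prod * (ys k l e).prod * η := by
        rw [← List.prod_ofFn, hcl, List.prod_append, List.prod_cons]
        ring
      have hne : ((xs k e).prod * (ys k l e).prod) ^ m ≠ 0 := by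
        apply pow_ne_zero
        apply mul_ne_zero
        · exact List.prod_ne_zero fun h => hx _ h rfl
        · exact List.prod_ne_zero fun h => hy _ h rfl
      show η ^ m * Φ (xs k e ++ η :: ys k l e) s = _
      rw [hev, eq_mul_inv_iff_mul_eq₀ hne, ← h3, h4, hcl, mul_pow]
      ring
    · intro j
      have hj : (f e j).eval η ∈ xs k e ++ η :: ys k l e := by
        rw [← hcl]
        exact List.mem_ofFn.2 ⟨j, rfl⟩
      rw [List.mem_append, List.mem_cons] at hj
      rcases hj with h | h | h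
      · exact hx _ h
      · rw [h]; exact hη
      · exact hy _ h

theorem good_NS {q a : ℂ} {Φ : List ℂ → List Bool → ℂ} (hΦ : Sol q a Φ) (k l m : ℕ)
    (hk : k % 2 = 1) (hl : l % 2 = 1) (hm : k + l = 2 * m) :
    Good (2 * m) fun e η => η ^ m * NS Φ (xs k e) (ys k l e) η := by
  have hxl : ∀ e, (xs k e).length = k := fun e => by simp [xs]
  have hyl : ∀ e, (ys k l e).length = l := fun e => by simp [ys]
  have key : ∀ s t : List Bool, Good (2 * m) fun e η =>
      η ^ m * Φ (xs k e ++ η :: ys k l e) (s ++ false :: t) *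
        Φ ((xs k e).map (·⁻¹)) s * Φ (ys k l e).reverse ((t.map not).reverse) := by
    intro s t
    obtain ⟨f, hf1, hf2⟩ := cont_Phi hΦ (k / 2) s (List.range k) (by simp; omega)
      (fun i e => (pc i e)⁻¹) pc_inv_cont fun i e he => inv_ne_zero (pc_ne i he)
    obtain ⟨g, hg1, hg2⟩ := cont_Phi hΦ (l / 2) ((t.map not).reverse) (List.range' k l).reverse
      (by simp; omega) pc (fun i => (pc_cont i).continuousAt) fun i e he => pc_ne i he
    refine (((good_Phi hΦ k l m hm (s ++ false :: t)).smul hf1).smul hg1).congr ?_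
    intro e he η hη
    have e1 : (xs k e).map (·⁻¹) = (List.range k).map fun i => (pc i e)⁻¹ := by
      simp [xs, Function.comp_def]
    have e2 : (ys k l e).reverse = (List.range' k l).reverse.map fun i => pc i e := by
      rw [ys, List.map_reverse]
    rw [e1, e2, hf2 e he, hg2 e he]
  refine (Good.sumC k (fun s e η => sumC l fun t => η ^ m * Φ (xs k e ++ η :: ys k l e)
    (s ++ false :: t) * Φ ((xs k e).map (·⁻¹)) s * Φ (ys k l e).reverse ((t.map not).reverse))
    fun s _ => Good.sumC l _ fun t _ => key s t).congr ?_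
  intro e he η hη
  have hs : ∀ (n : ℕ) (c : ℂ) (f : List Bool → ℂ), c * sumC n f = sumC n fun s => c * f s := by
    intro n c
    induction n with
    | zero => intro f; rfl
    | succ n ih => intro f; simp only [sumC]; rw [mul_add, ih, ih]
  simp only [NS, hxl, hyl, hs]
  simp only [mul_assoc]

/-! ### The limit -/

theorem nat_inj {i j : ℕ} {e : ℝ} (he : 0 < e) (h : pc i e = pc j e) : i = j := by
  unfold pc at h
  rw [Complex.ofReal_inj] at h
  have h1 : ((i : ℝ) - j) * e = 0 := by linarith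
  rcases mul_eq_zero.1 h1 with h2 | h2
  · exact_mod_cast sub_eq_zero.1 h2
  · exact absurd h2 he.ne'

/-- the zeros of the antisymmetric combination -/
theorem dvd_limit (N : ℕ) (D : ℝ → ℂ[X]) (hdeg : ∀ e, (D e).natDegree ≤ N) (hD : CC D)
    (idx : List ℕ) (hnd : idx.Nodup) (h1 : ∀ e, 0 < e → (D e).eval 1 = 0)
    (hc : ∀ e, 0 < e → ∀ i ∈ idx, (D e).eval (pc i e) = 0)
    (hci : ∀ e, 0 < e → ∀ i ∈ idx, (D e).eval (pc i e)⁻¹ = 0) :
    (X - 1) ^ (2 * idx.length + 1) ∣ D 0 := by
  have hPT : PT (𝓝[>] (0 : ℝ)) N D (D 0) :=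
    ⟨hdeg, hdeg 0, fun j => (hD j).tendsto.mono_left nhdsWithin_le_nhds⟩
  have hgt : ∀ i {e : ℝ}, 0 < e → (1 : ℝ) < 1 + (i + 1 : ℕ) * e := by
    intro i e he
    have : (0 : ℝ) < (i + 1 : ℕ) * e := by positivity
    linarith
  have hpc : ∀ i (e : ℝ), pc i e = ((1 + (i + 1 : ℕ) * e : ℝ) : ℂ) := by
    intro i e
    simp [pc]
  have key := PT.core (F := 𝓝[>] (0 : ℝ)) 1
    ((fun _ => 1) :: (idx.map (fun i e => pc i e) ++ idx.map fun i e => (pc i e)⁻¹)) hPT ?_ ?_ ?_
  · have hl : ((fun _ => (1 : ℂ)) :: (idx.map (fun i (e : ℝ) => pc i e) ++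
        idx.map fun i (e : ℝ) => (pc i e)⁻¹)).length = 2 * idx.length + 1 := by
      simp; ring
    rw [hl] at key
    simpa using key
  · intro z hz
    simp only [List.mem_cons, List.mem_append, List.mem_map] at hz
    rcases hz with rfl | ⟨i, _, rfl⟩ | ⟨i, _, rfl⟩
    · exact tendsto_const_nhds
    · have := (pc_cont i).continuousAt (x := 0)
      have h := this.tendsto.mono_left (nhdsWithin_le_nhds (s := Set.Ioi 0))
      rwa [pc_zero] at h
    · have h := (pc_inv_cont i).tendsto.mono_left (nhdsWithin_le_nhds (s := Set.Ioi 0))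
      simpa [pc_zero] using h
  · rw [List.pairwise_cons, List.pairwise_append]
    refine ⟨?_, ?_, ?_, ?_⟩
    · intro z hz
      simp only [List.mem_append, List.mem_map] at hz
      rcases hz with ⟨i, _, rfl⟩ | ⟨i, _, rfl⟩
      · filter_upwards [self_mem_nhdsWithin] with e he h
        have := hgt i he
        rw [hpc, ← Complex.ofReal_one, Complex.ofReal_inj] at h
        linarith
      · filter_upwards [self_mem_nhdsWithin] with e he h
        have := hgt i he
        have h2 : pc i e = 1 := by rw [← inv_inv (pc i e), ← h, inv_one]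
        rw [hpc, ← Complex.ofReal_one, Complex.ofReal_inj] at h2
        linarith
    · rw [List.pairwise_map]
      refine hnd.imp ?_
      intro i j hij
      filter_upwards [self_mem_nhdsWithin] with e he h
      exact hij (nat_inj he h)
    · rw [List.pairwise_map]
      refine hnd.imp ?_
      intro i j hij
      filter_upwards [self_mem_nhdsWithin] with e he h
      exact hij (nat_inj he (inv_injective h))
    · intro z hz z' hz'
      simp only [List.mem_map] at hz hz'
      obtain ⟨i, _, rfl⟩ := hz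
      obtain ⟨j, _, rfl⟩ := hz'
      filter_upwards [self_mem_nhdsWithin] with e he h
      have hi := hgt i he
      have hj := hgt j he
      rw [hpc, hpc, ← Complex.ofReal_inv, Complex.ofReal_inj] at h
      have h3 : (1 + (j + 1 : ℕ) * e : ℝ)⁻¹ < 1 := inv_lt_one_of_one_lt₀ hj
      linarith
  · intro z hz
    simp only [List.mem_cons, List.mem_append, List.mem_map] at hz
    rcases hz with rfl | ⟨i, hi, rfl⟩ | ⟨i, hi, rfl⟩
    · filter_upwards [self_mem_nhdsWithin] with e he
      exact h1 e he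
    · filter_upwards [self_mem_nhdsWithin] with e he
      exact hc e he i hi
    · filter_upwards [self_mem_nhdsWithin] with e he
      exact hci e he i hi

theorem eval_reflect {N : ℕ} (R : ℂ[X]) (hR : R.natDegree ≤ N) {η : ℂ} (hη : η ≠ 0) :
    (R.reflect N).eval η = η ^ N * R.eval η⁻¹ := by
  have : Invertible η⁻¹ := invertibleOfNonzero (inv_ne_zero hη)
  have h := Polynomial.eval₂_reflect_mul_pow (RingHom.id ℂ) η⁻¹ N R hR
  rw [invOf_eq_inv, inv_inv] at h
  change (R.reflect N).eval η * η⁻¹ ^ N = R.eval η⁻¹ at h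
  rw [← h, mul_comm (η ^ N), mul_assoc, ← mul_pow, inv_mul_cancel₀ hη, one_pow, mul_one]

/-- the quadratic factors -/
noncomputable def qf (v : ℂ) : ℂ[X] := X ^ 2 - C (X' v) * X + 1

theorem qf_eval (v : ℂ) {η : ℂ} (hη : η ≠ 0) : (qf v).eval η = η * (X' η - X' v) := by
  simp only [qf, Polynomial.eval_add, Polynomial.eval_sub, Polynomial.eval_pow, Polynomial.eval_X,
    Polynomial.eval_mul, Polynomial.eval_C, Polynomial.eval_one, X']
  field_simp
  ring

theorem qf_prod_eval (l : List ℂ) {η : ℂ} (hη : η ≠ 0) :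
    (l.map qf).prod.eval η = η ^ l.length * (l.map fun v => X' η - X' v).prod := by
  induction l with
  | nil => simp
  | cons v l ih =>
    simp only [List.map_cons, List.prod_cons, Polynomial.eval_mul, ih, qf_eval v hη,
      List.length_cons, pow_succ]
    ring

theorem qf_natDegree (v : ℂ) : (qf v).natDegree ≤ 2 := by
  unfold qf
  compute_degree

theorem qf_prod_natDegree (l : List ℂ) : (l.map qf).prod.natDegree ≤ 2 * l.length := by
  induction l with
  | nil => simp
  | cons v l ih =>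
    simp only [List.map_cons, List.prod_cons, List.length_cons]
    refine Polynomial.natDegree_mul_le.trans ?_
    have := qf_natDegree v
    omega

/-- the family `ε ↦ QQ` -/
noncomputable def qe (k l : ℕ) (p : ℝ → ℂ[X]) (e : ℝ) : ℂ[X] :=
  p e * (X ^ 2 - 1) * ((List.range (k + l)).map fun i => qf (pc i e)).prod

theorem xs_ys (k l : ℕ) (e : ℝ) : xs k e ++ ys k l e = (List.range (k + l)).map fun i => pc i e := by
  rw [xs, ys, ← List.map_append, List.range_eq_range', List.range_eq_range']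
  congr 1
  have := List.range'_append (s := 0) (m := k) (n := l) (step := 1)
  simpa using this

theorem qe_eval {k l m : ℕ} (hm : k + l = 2 * m) {Φ : List ℂ → List Bool → ℂ} {p : ℝ → ℂ[X]}
    (hp : ∀ e, 0 ≤ e → ∀ η, η ≠ 0 → η ^ m * NS Φ (xs k e) (ys k l e) η = (p e).eval η)
    {e : ℝ} (he : 0 ≤ e) {η : ℂ} (hη : η ≠ 0) :
    (qe k l p e).eval η = η ^ (3 * m + 1) * (NS Φ (xs k e) (ys k l e) η * (η - η⁻¹) *
      ((xs k e ++ ys k l e).map fun v => X' η - X' v).prod) := by
  have h1 : (List.range (k + l)).map (fun i => qf (pc i e)) = (xs k e ++ ys k l e).map qf := by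
    rw [xs_ys, List.map_map]
    rfl
  rw [qe, h1, Polynomial.eval_mul, qf_prod_eval _ hη, Polynomial.eval_mul, ← hp e he η hη]
  have h2 : (xs k e ++ ys k l e).length = 2 * m := by simp [xs, ys, hm]
  rw [h2]
  simp only [Polynomial.eval_sub, Polynomial.eval_pow, Polynomial.eval_X, Polynomial.eval_one]
  have h3 : η ^ 2 - 1 = η * (η - η⁻¹) := by field_simp
  rw [h3]
  ring

theorem qe_zero {k l m : ℕ} (hm : k + l = 2 * m) (p : ℝ → ℂ[X]) : qe k l p 0 = QQ m (p 0) := by
  have h1 : (List.range (k + l)).map (fun i => qf (pc i 0)) =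
      List.replicate (2 * m) ((X - 1) ^ 2) := by
    apply List.ext_getElem
    · simp [hm]
    · intro i h1 h2
      simp only [List.getElem_map, List.getElem_replicate, pc_zero, qf, X']
      have : (C (1 + (1 : ℂ)⁻¹) : ℂ[X]) = 2 := by
        rw [inv_one, one_add_one_eq_two]
        exact map_ofNat C 2
      rw [this]
      ring
  rw [qe, h1, QQ, List.prod_replicate, ← pow_mul]
  congr 2
  ring

theorem qe_natDegree {k l m : ℕ} (hm : k + l = 2 * m) (p : ℝ → ℂ[X])
    (hp : ∀ e, (p e).natDegree ≤ 2 * m) (e : ℝ) : (qe k l p e).natDegree ≤ 6 * m + 2 := by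
  unfold qe
  have h1 : (List.range (k + l)).map (fun i => qf (pc i e)) =
      ((List.range (k + l)).map fun i => pc i e).map qf := by
    rw [List.map_map]; rfl
  rw [h1]
  refine Polynomial.natDegree_mul_le.trans ?_
  have h2 := qf_prod_natDegree ((List.range (k + l)).map fun i => pc i e)
  simp only [List.length_map, List.length_range] at h2
  have h3 : (p e * (X ^ 2 - 1)).natDegree ≤ 2 * m + 2 := by
    refine Polynomial.natDegree_mul_le.trans ?_
    have : (X ^ 2 - 1 : ℂ[X]).natDegree ≤ 2 := by compute_degree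
    have := hp e
    omega
  omega

theorem CC.qe {p : ℝ → ℂ[X]} (hp : CC p) (k l : ℕ) : CC (qe k l p) := by
  refine (hp.mul (CC.constC _)).mul (CC.list_prod _ _ fun i _ => ?_)
  unfold qf
  refine (CC.constC (X ^ 2)).sub (CC.mul (CC.C ?_) (CC.constC X)) |>.add (CC.constC 1)
  exact (pc_cont i).continuousAt.add (pc_inv_cont i)

/-- one of the two divisibility conditions -/
theorem cond_one {k l m : ℕ} (hm : k + l = 2 * m) {Φ : List ℂ → List Bool → ℂ} {p : ℝ → ℂ[X]}
    (hdeg : ∀ e, (p e).natDegree ≤ 2 * m) (hcc : CC p)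
    (hp : ∀ e, 0 ≤ e → ∀ η, η ≠ 0 → η ^ m * NS Φ (xs k e) (ys k l e) η = (p e).eval η)
    (c : ℂ) (hc : c ≠ 0) (idx : List ℕ) (hnd : idx.Nodup)
    (hM : ∀ e, 0 < e → ∀ i ∈ idx,
      NS Φ (xs k e) (ys k l e) (c * pc i e) * (c * pc i e - (c * pc i e)⁻¹) *
        ((xs k e ++ ys k l e).map fun v => X' (c * pc i e) - X' v).prod =
      NS Φ (xs k e) (ys k l e) (c * (pc i e)⁻¹) * (c * (pc i e)⁻¹ - (c * (pc i e)⁻¹)⁻¹) *
        ((xs k e ++ ys k l e).map fun v => X' (c * (pc i e)⁻¹) - X' v).prod) :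
    (X - 1) ^ (2 * idx.length + 1) ∣
      (QQ m (p 0)).comp (C c * X) - ((QQ m (p 0)).comp (C c * X)).reflect (6 * m + 2) := by
  set N := 6 * m + 2 with hN
  have hqd := qe_natDegree hm p hdeg
  have hRd : ∀ e, ((qe k l p e).comp (C c * X)).natDegree ≤ N := by
    intro e
    refine Polynomial.natDegree_comp_le.trans ?_
    have h1 : (C c * X : ℂ[X]).natDegree ≤ 1 := by compute_degree
    have h2 := hqd e
    nlinarith
  have hev : ∀ e η, η ≠ 0 → ((qe k l p e).comp (C c * X) -
      ((qe k l p e).comp (C c * X)).reflect N).eval η =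
      (qe k l p e).eval (c * η) - η ^ N * (qe k l p e).eval (c * η⁻¹) := by
    intro e η hη
    rw [Polynomial.eval_sub, eval_reflect _ (hRd e) hη, Polynomial.eval_comp, Polynomial.eval_comp]
    simp
  have hmain : ∀ e, 0 < e → ∀ i ∈ idx, (qe k l p e).eval (c * pc i e) =
      pc i e ^ N * (qe k l p e).eval (c * (pc i e)⁻¹) := by
    intro e he i hi
    have hne := pc_ne i he.le
    have h5 : (c * pc i e) ^ (3 * m + 1) = pc i e ^ N * (c * (pc i e)⁻¹) ^ (3 * m + 1) := by
      have h6 := pow_ne_zero (3 * m + 1) hne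
      rw [hN, mul_pow, mul_pow, show 6 * m + 2 = (3 * m + 1) + (3 * m + 1) by ring,
        pow_add (pc i e) (3 * m + 1) (3 * m + 1), inv_pow]
      generalize pc i e ^ (3 * m + 1) = w at h6 ⊢
      field_simp
    rw [qe_eval hm hp he.le (mul_ne_zero hc hne),
      qe_eval hm hp he.le (mul_ne_zero hc (inv_ne_zero hne)), hM e he i hi, h5, mul_assoc]
  rw [← qe_zero hm p]
  refine dvd_limit N (fun e => (qe k l p e).comp (C c * X) -
    ((qe k l p e).comp (C c * X)).reflect N) ?_ ?_ idx hnd ?_ ?_ ?_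
  · intro e
    refine (Polynomial.natDegree_sub_le _ _).trans (max_le (hRd e) ?_)
    refine Polynomial.natDegree_reflect_le.trans (max_le le_rfl (hRd e))
  · exact ((hcc.qe k l).comp c).sub (((hcc.qe k l).comp c).reflect N)
  · intro e he
    rw [hev e 1 one_ne_zero]
    simp
  · intro e he i hi
    rw [hev e _ (pc_ne i he.le), hmain e he i hi, sub_self]
  · intro e he i hi
    have hne := pc_ne i he.le
    rw [hev e _ (inv_ne_zero hne), inv_inv, hmain e he i hi, ← mul_assoc, ← mul_pow,
      inv_mul_cancel₀ hne, one_pow, one_mul, sub_self]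

theorem NS_cond_aux {q a : ℂ} {Φ : List ℂ → List Bool → ℂ} (hq : q ^ 2 + q + 1 = 0)
    (hΦ : Sol q a Φ) (k l m : ℕ) (hk : k % 2 = 1) (hl : l % 2 = 1) (hm : k + l = 2 * m)
    (hMx : ∀ (l₁ l₂ y : List ℂ) (u : ℂ), (∀ v ∈ l₁ ++ u :: l₂ ++ y, v ≠ 0) →
      (∀ v ∈ l₁ ++ l₂, v ^ 3 ≠ u ^ 3 ∧ v ^ 3 * u ^ 3 ≠ 1) →
      NS Φ (l₁ ++ u :: l₂) y (q * u) * (q * u - (q * u)⁻¹) *
        (((l₁ ++ u :: l₂) ++ y).map fun v => X' (q * u) - X' v).prod =
      NS Φ (l₁ ++ u :: l₂) y (q * u⁻¹) * (q * u⁻¹ - (q * u⁻¹)⁻¹) *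
        (((l₁ ++ u :: l₂) ++ y).map fun v => X' (q * u⁻¹) - X' v).prod)
    (hMy : ∀ (x l₁ l₂ : List ℂ) (u : ℂ), (∀ v ∈ x ++ (l₁ ++ u :: l₂), v ≠ 0) →
      (∀ v ∈ l₁ ++ l₂, v ^ 3 ≠ u ^ 3 ∧ v ^ 3 * u ^ 3 ≠ 1) →
      NS Φ x (l₁ ++ u :: l₂) (q⁻¹ * u) * (q⁻¹ * u - (q⁻¹ * u)⁻¹) *
        ((x ++ (l₁ ++ u :: l₂)).map fun v => X' (q⁻¹ * u) - X' v).prod =
      NS Φ x (l₁ ++ u :: l₂) (q⁻¹ * u⁻¹) * (q⁻¹ * u⁻¹ - (q⁻¹ * u⁻¹)⁻¹) *
        ((x ++ (l₁ ++ u :: l₂)).map fun v => X' (q⁻¹ * u⁻¹) - X' v).prod) :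
    ∃ P : ℂ[X], (∀ η, η ≠ 0 →
        η ^ m * NS Φ (List.replicate k 1) (List.replicate l 1) η = P.eval η) ∧ Cond q m k l P := by
  obtain ⟨p, hdeg, hcc, hp⟩ := good_NS hΦ k l m hk hl hm
  have hq0 : q ≠ 0 := by rintro rfl; norm_num at hq
  have hq3 : q ^ 2 * q = 1 := by linear_combination (q - 1) * hq
  have hqi : q⁻¹ = q ^ 2 := by
    rw [inv_eq_one_div, div_eq_iff hq0, hq3]
  have hgen : ∀ (e : ℝ), 0 < e → ∀ i j : ℕ, i ≠ j →
      pc j e ^ 3 ≠ pc i e ^ 3 ∧ pc j e ^ 3 * pc i e ^ 3 ≠ 1 := by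
    intro e he i j hij
    have hpos : ∀ i : ℕ, (1 : ℝ) < 1 + (i + 1) * e := fun i => by
      have : (0 : ℝ) < (i + 1) * e := by positivity
      linarith
    constructor
    · intro h
      unfold pc at h
      rw [← Complex.ofReal_pow, ← Complex.ofReal_pow, Complex.ofReal_inj] at h
      have h2 := (pow_left_inj₀ (zero_le_one.trans (hpos j).le) (zero_le_one.trans (hpos i).le)
        (by norm_num)).1 h
      apply hij
      apply nat_inj he
      unfold pc
      rw [h2]
    · intro h
      unfold pc at h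
      rw [← Complex.ofReal_pow, ← Complex.ofReal_pow, ← Complex.ofReal_mul, ← Complex.ofReal_one,
        Complex.ofReal_inj] at h
      have h1 : (1 : ℝ) < (1 + (j + 1) * e) ^ 3 := one_lt_pow₀ (hpos j) (by norm_num)
      have h2 : (1 : ℝ) < (1 + (i + 1) * e) ^ 3 := one_lt_pow₀ (hpos i) (by norm_num)
      nlinarith
  refine ⟨p 0, fun η hη => ?_, hdeg 0, ?_, ?_⟩
  · have h := hp 0 le_rfl η hη
    simp only [xs_zero, ys_zero] at h
    exact h
  · have h := cond_one hm hdeg hcc hp q hq0 (List.range k) List.nodup_range ?_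
    · simpa using h
    · intro e he i hi
      obtain ⟨s, t, hst⟩ := List.append_of_mem hi
      have hnd : (s ++ i :: t).Nodup := hst ▸ List.nodup_range
      have hx : xs k e = s.map (pc · e) ++ pc i e :: t.map (pc · e) := by
        rw [xs, hst]; simp
      have h := hMx (s.map (pc · e)) (t.map (pc · e)) (ys k l e) (pc i e) ?_ ?_
      · rw [← hx] at h; exact h
      · rw [← hx]
        intro v hv
        rw [List.mem_append] at hv
        rcases hv with hv | hv
        · exact xs_ne he.le v hv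
        · exact ys_ne he.le v hv
      · intro v hv
        rw [← List.map_append, List.mem_map] at hv
        obtain ⟨j, hj, rfl⟩ := hv
        apply hgen e he
        rintro rfl
        exact (List.nodup_middle.1 hnd).notMem hj
  · have h := cond_one hm hdeg hcc hp (q ^ 2) (pow_ne_zero _ hq0) (List.range' k l)
      List.nodup_range' ?_
    · simpa using h
    · intro e he i hi
      obtain ⟨s, t, hst⟩ := List.append_of_mem hi
      have hnd : (s ++ i :: t).Nodup := hst ▸ List.nodup_range'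
      have hx : ys k l e = s.map (pc · e) ++ pc i e :: t.map (pc · e) := by
        rw [ys, hst]; simp
      have h := hMy (xs k e) (s.map (pc · e)) (t.map (pc · e)) (pc i e) ?_ ?_
      · rw [← hx, hqi] at h; exact h
      · rw [← hx]
        intro v hv
        rw [List.mem_append] at hv
        rcases hv with hv | hv
        · exact xs_ne he.le v hv
        · exact ys_ne he.le v hv
      · intro v hv
        rw [← List.map_append, List.mem_map] at hv
        obtain ⟨j, hj, rfl⟩ := hv
        apply hgen e he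
        rintro rfl
        exact (List.nodup_middle.1 hnd).notMem hj

theorem NS_cond {q a : ℂ} {Φ : List ℂ → List Bool → ℂ} (hq : q ^ 2 + q + 1 = 0)
    (ha : a ^ 2 = - q ^ 2) (hΦ : Sol q a Φ) (k l m : ℕ)
    (hk : k % 2 = 1) (hl : l % 2 = 1) (hm : k + l = 2 * m) :
    ∃ P : ℂ[X], (∀ η, η ≠ 0 →
        η ^ m * NS Φ (List.replicate k 1) (List.replicate l 1) η = P.eval η) ∧ Cond q m k l P :=
  NS_cond_aux hq hΦ k l m hk hl hm
    (fun l₁ l₂ y u h0 hg => MM_x hq ha hΦ l₁ l₂ y u h0 hg)
    (fun x l₁ l₂ u h0 hg => MM_y hq ha hΦ x l₁ l₂ u h0 hg)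

end Pool.Agent.H59.Slit
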