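import Pool.Agent.H59.Slit.P4
import Pool.Agent.H59.Slit.Hyp
import Pool.Agent.H59.Slit.Lim
import Pool.Agent.H59.Slit.F3
import Pool.Agent.H30.Glue.SlitDual
import Pool.Agent.H72.Cardy.AsmG
import Pool.Agent.H35.Cardy.SNe

set_option autoImplicit false
open Polynomial MeasureTheory Filter Topology

/-! Cardy's formula in the slit strip: assembly. -/

namespace Pool.Agent.H59.Slit
open Pool.Agent.H72.Cardy
open Pool.Agent.H65.Perc (PConf planeMeasure)
open Pool.Agent.H30.Glue (SlitCross)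

variable {q a : ℂ} {Φ : List ℂ → List Bool → ℂ}

lemma sub_ne (hq : q ^ 2 + q + 1 = 0) : q - q ^ 2 ≠ 0 := by
  intro h
  have h1 : q = -1 / 2 := by linear_combination (1 / 2) * h + (1 / 2) * hq
  rw [h1] at hq
  norm_num at hq

/-- one numerator -/
lemma NS_aux (hq : q ^ 2 + q + 1 = 0) (ha : a ^ 2 = - q ^ 2) (hΦ : Sol q a Φ) (m : ℕ) :
    ∃ Cf : ℕ → ℕ → ℂ, (∀ k l, Cf k l = Cf l k) ∧ ∀ k l : ℕ, k % 2 = 1 → l % 2 = 1 → k + l = 2 * m →
      NS Φ (List.replicate k 1) (List.replicate l 1) 1 = (sm m : ℂ) * Cf k l * ((law k l : ℚ) : ℂ) := by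
  obtain ⟨Cf, hs, hC⟩ := NS_lead hq ha hΦ m
  refine ⟨Cf, hs, fun k l hk hl hm => ?_⟩
  obtain ⟨P, hP, hc⟩ := NS_cond hq ha hΦ k l m hk hl hm
  obtain ⟨h1, h2⟩ := hC k l hk hl hm P hc.deg hP
  have h3 := pade hq k l m hk hl hm P hc
  have h4 := hP 1 one_ne_zero
  rw [one_pow, one_mul] at h4
  rw [h4, h3, h1, h2, ell_eq k l m hk hl hm]
  have h5 := sub_ne hq
  have e1 : -q ^ 2 * Cf k l + -q * Cf k l = Cf k l := by linear_combination (-Cf k l) * hq
  have e2 : -q ^ 2 * Cf k l - -q * Cf k l = (q - q ^ 2) * Cf k l := by ring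
  have e3 : (q - q ^ 2) * Cf k l / (2 * (q - q ^ 2)) = Cf k l / 2 := by
    rw [mul_comm 2, mul_div_mul_left _ _ h5]
  rw [e1, e2, e3]
  push_cast
  ring

theorem NS_one (hq : q ^ 2 + q + 1 = 0) (ha : a ^ 2 = - q ^ 2) (hΦ : Sol q a Φ)
    (k l m : ℕ) (hk : k % 2 = 1) (hl : l % 2 = 1) (hm : k + l = 2 * m) :
    NS Φ (List.replicate k 1) (List.replicate l 1) 1 =
      ((law k l : ℚ) : ℂ) * (NS Φ (List.replicate k 1) (List.replicate l 1) 1 +
        NS Φ (List.replicate l 1) (List.replicate k 1) 1) := by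
  obtain ⟨Cf, hs, hC⟩ := NS_aux hq ha hΦ m
  rw [hC k l hk hl hm, hC l k hl hk (by omega), hs l k]
  have h : ((law k l : ℚ) : ℂ) + ((law l k : ℚ) : ℂ) = 1 := by
    exact_mod_cast congrArg (fun x : ℚ => (x : ℂ)) (law_symm k l)
  linear_combination (-(sm m : ℂ) * Cf k l * ((law k l : ℚ) : ℂ)) * h

lemma NS_eq_Nslit (r m : ℕ) :
    NS Φ (List.replicate (2 * r + 1) 1) (List.replicate (2 * m + 1) 1) 1 =
      Pool.Agent.H30.Glue.Nslit Φ (List.replicate (2 * r + 1) 1)
        (List.replicate (2 * (r + 1 + m) + 1) 1) (List.replicate (2 * m + 1) 1) := by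
  have e1 : (List.replicate (2 * r + 1) (1 : ℂ)) ++ 1 :: List.replicate (2 * m + 1) 1 =
      List.replicate (2 * (r + 1 + m) + 1) 1 := by
    rw [← List.replicate_succ, ← List.replicate_add]
    congr 1
    ring
  unfold NS Pool.Agent.H30.Glue.Nslit
  rw [e1, List.map_replicate, inv_one, List.reverse_replicate]
  congr 1
  funext s
  congr 1
  funext t
  ring

/-- the crossing probability is given by the beta-binomial law, for any polynomial solution -/
theorem slit_law_of (hq : q ^ 2 + q + 1 = 0) (ha : a ^ 2 = - q ^ 2) (hΦ : Sol q a Φ) (r m : ℕ) :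
    (planeMeasure {ω | SlitCross r m ω}).toReal = ((law (2 * r + 1) (2 * m + 1) : ℚ) : ℝ) := by
  have hq0 : q ≠ 0 := by
    rintro rfl
    norm_num at hq
  have ha0 : a ≠ 0 := by
    rintro rfl
    apply hq0
    have : q ^ 2 = 0 := by linear_combination ha
    exact pow_eq_zero_iff (two_ne_zero) |>.1 this
  have hc : ∀ n, Pool.Agent.H72.CardyP.cl a Φ n ≠ 0 := by
    intro n
    rw [← Pool.Agent.H72.CardyP.Neven_cl hΦ n, Neven_one hq ha hΦ n]
    exact Pool.Agent.H35.Cardy.S_ne n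
  have h1 := NS_one hq ha hΦ (2 * r + 1) (2 * m + 1) (r + m + 1) (by omega) (by omega) (by ring)
  rw [NS_eq_Nslit, NS_eq_Nslit, Pool.Agent.H30.Glue.slit_value hq ha hΦ r m,
    Pool.Agent.H30.Glue.slit_value hq ha hΦ m r] at h1
  have h2 := Pool.Agent.H30.Glue.slit_dual hq ha hΦ hc r m
  have h3 : m + 1 + r = r + 1 + m := by ring
  rw [h3] at h1
  have h4 : ((planeMeasure {ω | SlitCross r m ω}).toReal : ℂ) +
      ((planeMeasure {ω | SlitCross m r ω}).toReal : ℂ) = 1 := by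
    exact_mod_cast congrArg (fun x : ℝ => (x : ℂ)) h2
  set p := ((planeMeasure {ω | SlitCross r m ω}).toReal : ℂ) with hp
  set p' := ((planeMeasure {ω | SlitCross m r ω}).toReal : ℂ) with hp'
  set A := Pool.Agent.H72.CardyP.cl a Φ r
  set B := Pool.Agent.H72.CardyP.cl a Φ m
  set C := Pool.Agent.H72.CardyP.cl a Φ (r + 1 + m)
  have h5 : a * A * B * C ≠ 0 := mul_ne_zero (mul_ne_zero (mul_ne_zero ha0 (hc r)) (hc m)) (hc _)
  have h6 : a * A * B * C * p = a * A * B * C * ((law (2 * r + 1) (2 * m + 1) : ℚ) : ℂ) := by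
    have e : a * p * A * B * C + a * p' * B * A * C = a * A * B * C := by
      linear_combination (a * A * B * C) * h4
    rw [e] at h1
    linear_combination h1
  have h7 := mul_left_cancel₀ h5 h6
  have h8 : (((planeMeasure {ω | SlitCross r m ω}).toReal : ℝ) : ℂ) =
      ((((law (2 * r + 1) (2 * m + 1) : ℚ) : ℝ)) : ℂ) := by
    rw [← hp, h7]
    push_cast
    rfl
  exact_mod_cast h8

end Pool.Agent.H59.Slit
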