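import Pool.Agent.H72.Cardy.Defs

set_option autoImplicit false
open Polynomial

/-! Cardy's formula in the slit strip: definitions.

Geometry (strands of the loop model): below the slit tip there are two half-infinite strips, the left
one with `a` strands and the right one with `b` strands (`a`, `b` odd), above it one half-infinite
strip with `a + b + 1` strands, whose strand number `a + 1` starts at the tip of the slit. -/

namespace Pool.Agent.H59.Slit
open Pool.Agent.H72.Cardy

/-- numerator (spin basis) of the probability that the infinite path of the upper strip goes to the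
lower left strip; `x`, `y` are the parameters of the strands on the left and on the right of the tip,
`η` the parameter of the strand which starts at the tip -/
noncomputable def NS (Φ : List ℂ → List Bool → ℂ) (x y : List ℂ) (η : ℂ) : ℂ :=
  sumC x.length fun s => sumC y.length fun t =>
    Φ (x ++ η :: y) (s ++ false :: t) * Φ (x.map (·⁻¹)) s * Φ y.reverse ((t.map not).reverse)

/-- rising factorial -/
def rp (x : ℚ) (n : ℕ) : ℚ := ∏ j ∈ Finset.range n, (x + j)

/-- coefficients of the Pade form -/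
def cc (a i : ℕ) : ℚ :=
  if a % 2 = 1 then
    -((a.factorial : ℚ) * rp (4 / 3) a /
      (i.factorial * (a - i).factorial * rp (2 / 3) i * rp (4 / 3) (a - i)))
  else
    (a.factorial : ℚ) * rp (5 / 3) a /
      (i.factorial * (a - i).factorial * rp (5 / 3) i * rp (1 / 3) (a - i))

/-- exponents of the Pade form (all congruent to `1` mod `3`) -/
def ke (a i : ℕ) : ℤ :=
  if a % 2 = 1 then 3 * (i : ℤ) - (3 * (a : ℤ) + 1) / 2 else 3 * (i : ℤ) - (3 * (a : ℤ) - 2) / 2

/-- the normalised polynomial vanishing at `0` and at `±1, ±2, ±4, …, ±(3m-1)` -/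
def Lam (m : ℕ) (s : ℚ) : ℚ :=
  s * (∏ j ∈ Finset.range m, ((s ^ 2 - (3 * j + 1) ^ 2) * (s ^ 2 - (3 * j + 2) ^ 2))) /
    ((3 * m + 1) * 3 ^ (4 * m) * (2 * m).factorial * rp (2 / 3) (2 * m))

/-- `2 P - 1` -/
def ell (m a b : ℕ) : ℚ :=
  ∑ i ∈ Finset.range (a + 1), ∑ j ∈ Finset.range (b + 1),
    cc a i * cc b j * Lam m ((ke a i - ke b j : ℤ) : ℚ)

/-- the beta-binomial law -/
def law (a b : ℕ) : ℚ :=
  (∑ k ∈ Finset.range (a + 1), rp (1 / 3) k * rp (1 / 3) (a + b + 1 - k) /
    (k.factorial * (a + b + 1 - k).factorial)) * (a + b + 1).factorial / rp (2 / 3) (a + b + 1)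

/-- the value at the homogeneous point of the normalised sum rule -/
def sm (m : ℕ) : ℚ :=
  (3 * m + 1) * 3 ^ (4 * m) * (2 * m).factorial * rp (2 / 3) (2 * m) / (4 * m + 1).factorial

/-- product over pairs `i < j` -/
def ppr (f : ℂ → ℂ → ℂ) : List ℂ → ℂ
  | [] => 1
  | x :: l => (l.map (f x)).prod * ppr f l

/-- the polynomial `η ^ (3m+1) (η - 1/η) (η + 1/η - 2) ^ (2m) N(η)`, `P(η) = η ^ m N(η)` -/
noncomputable def QQ (m : ℕ) (P : ℂ[X]) : ℂ[X] := P * (X ^ 2 - 1) * (X - 1) ^ (4 * m)

/-- the conditions satisfied by the homogeneous numerator `P(η) = η ^ m N(η)` -/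
structure Cond (q : ℂ) (m a b : ℕ) (P : ℂ[X]) : Prop where
  deg : P.natDegree ≤ 2 * m
  hx : (X - 1) ^ (2 * a + 1) ∣
    (QQ m P).comp (C q * X) - ((QQ m P).comp (C q * X)).reflect (6 * m + 2)
  hy : (X - 1) ^ (2 * b + 1) ∣
    (QQ m P).comp (C (q ^ 2) * X) - ((QQ m P).comp (C (q ^ 2) * X)).reflect (6 * m + 2)

end Pool.Agent.H59.Slit
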