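import Pool.Agent.H59.Slit.Defs

/-! Job SL-F3, part A: coefficients of Laurent polynomials as linear functionals. -/

set_option autoImplicit false
open Polynomial

namespace Pool.Agent.H59.Slit.F3
open Pool.Agent.H72.Cardy

/-- `z ^ n * f z` is a polynomial of degree at most `2 n` -/
def LP (n : ℕ) (f : ℂ → ℂ) : Prop :=
  ∃ p : ℂ[X], p.natDegree ≤ 2 * n ∧ ∀ z, z ≠ 0 → z ^ n * f z = p.eval z

lemma LP.zero (n : ℕ) : LP n (fun _ => 0) := ⟨0, by simp, by simp⟩

lemma LP.lin {n : ℕ} {f g : ℂ → ℂ} (hf : LP n f) (hg : LP n g) (c d : ℂ) :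
    LP n (fun z => c * f z + d * g z) := by
  obtain ⟨p, hp, h⟩ := hf
  obtain ⟨r, hr, h'⟩ := hg
  refine ⟨C c * p + C d * r, ?_, fun z hz => ?_⟩
  · refine (natDegree_add_le _ _).trans (max_le ?_ ?_)
    · exact (natDegree_C_mul_le _ _).trans hp
    · exact (natDegree_C_mul_le _ _).trans hr
  · rw [eval_add, eval_mul, eval_mul, eval_C, eval_C, ← h z hz, ← h' z hz]
    ring

lemma LP.sum {n : ℕ} {κ : Type*} (s : Finset κ) (c : κ → ℂ) (f : κ → ℂ → ℂ)
    (hf : ∀ i ∈ s, LP n (f i)) : LP n (fun z => ∑ i ∈ s, c i * f i z) := by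
  classical
  induction s using Finset.induction_on with
  | empty => simpa using LP.zero n
  | insert i s hi ih =>
    have h1 := (hf i (Finset.mem_insert_self i s)).lin
      (ih fun j hj => hf j (Finset.mem_insert_of_mem hj)) (c i) 1
    have h2 : (fun z => ∑ j ∈ insert i s, c j * f j z) =
        fun z => c i * f i z + 1 * ∑ j ∈ s, c j * f j z := by
      funext z
      rw [Finset.sum_insert hi, one_mul]
    rw [h2]
    exact h1

lemma eval_reflect' {p : ℂ[X]} {N : ℕ} (hp : p.natDegree ≤ N) {z : ℂ} (hz : z ≠ 0) :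
    (reflect N p).eval z = z ^ N * p.eval z⁻¹ := by
  have : Invertible z⁻¹ := invertibleOfNonzero (inv_ne_zero hz)
  have h := eval₂_reflect_mul_pow (RingHom.id ℂ) z⁻¹ N p hp
  rw [invOf_eq_inv, inv_inv] at h
  simp only [eval₂_id] at h
  rw [← h, inv_pow]
  have : z ^ N ≠ 0 := pow_ne_zero _ hz
  field_simp

lemma natDegree_reflect_le {p : ℂ[X]} {N : ℕ} (hp : p.natDegree ≤ N) :
    (reflect N p).natDegree ≤ N := by
  rw [natDegree_le_iff_coeff_eq_zero]
  intro i hi
  rw [coeff_reflect, revAt_eq_self_of_lt hi]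
  exact coeff_eq_zero_of_natDegree_lt (lt_of_le_of_lt hp hi)

lemma LP.inv {n : ℕ} {f : ℂ → ℂ} (hf : LP n f) : LP n (fun z => f z⁻¹) := by
  obtain ⟨p, hp, h⟩ := hf
  refine ⟨reflect (2 * n) p, natDegree_reflect_le hp, fun z hz => ?_⟩
  rw [eval_reflect' hp hz, ← h z⁻¹ (inv_ne_zero hz), inv_pow, two_mul, pow_add]
  have : z ^ n ≠ 0 := pow_ne_zero _ hz
  field_simp

lemma poly_eq_of {p r : ℂ[X]} (h : ∀ z, z ≠ 0 → p.eval z = r.eval z) : p = r := by
  apply Polynomial.eq_of_infinite_eval_eq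
  have h2 : ({0}ᶜ : Set ℂ) ⊆ {z | p.eval z = r.eval z} := fun z hz => h z hz
  exact (Set.infinite_of_finite_compl (by simp)).mono h2

/-- A function which vanishes outside of a finite set vanishes. -/
lemma LP.eq_zero_of {n : ℕ} {f : ℂ → ℂ} (hf : LP n f) {S : Set ℂ} (hS : S.Finite)
    (h0 : ∀ z, z ≠ 0 → z ∉ S → f z = 0) : ∀ z, z ≠ 0 → f z = 0 := by
  obtain ⟨p, hp, h⟩ := hf
  have hp0 : p = 0 := by
    apply Polynomial.eq_zero_of_infinite_isRoot
    have h2 : ((S ∪ {0})ᶜ : Set ℂ) ⊆ {z | p.IsRoot z} := by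
      intro z hz
      simp only [Set.mem_compl_iff, Set.mem_union, Set.mem_singleton_iff, not_or] at hz
      change p.eval z = 0
      rw [← h z hz.2, h0 z hz.2 hz.1, mul_zero]
    refine Set.Infinite.mono h2 (Set.infinite_of_finite_compl ?_)
    rw [compl_compl]
    exact hS.union (Set.finite_singleton 0)
  intro z hz
  have h1 := h z hz
  rw [hp0, eval_zero] at h1
  exact (mul_eq_zero.mp h1).resolve_left (pow_ne_zero _ hz)

/-- A function with too many zeros vanishes. -/
lemma LP.eq_zero_of_card {n : ℕ} {f : ℂ → ℂ} (hf : LP n f) (S : Finset ℂ) (hS : 2 * n < S.card)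
    (hS0 : ∀ z ∈ S, z ≠ 0) (h0 : ∀ z ∈ S, f z = 0) : ∀ z, z ≠ 0 → f z = 0 := by
  obtain ⟨p, hp, h⟩ := hf
  have hp0 : p = 0 := by
    apply Polynomial.eq_zero_of_natDegree_lt_card_of_eval_eq_zero' p S
    · intro z hz
      rw [← h z (hS0 z hz), h0 z hz, mul_zero]
    · omega
  intro z hz
  have h1 := h z hz
  rw [hp0, eval_zero] at h1
  exact (mul_eq_zero.mp h1).resolve_left (pow_ne_zero _ hz)

/-- the coefficient of `z ^ j` in the polynomial `z ^ n * f z`, as a linear functional -/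
noncomputable def coef (n j : ℕ) (f : ℂ → ℂ) : ℂ :=
  ∑ i ∈ Finset.range (2 * n + 1), (((i : ℂ) + 1) ^ n * f ((i : ℂ) + 1)) *
    (Lagrange.basis (Finset.range (2 * n + 1)) (fun i : ℕ => (i : ℂ) + 1) i).coeff j

lemma coef_eq {n : ℕ} (j : ℕ) {f : ℂ → ℂ} {p : ℂ[X]} (hp : p.natDegree ≤ 2 * n)
    (h : ∀ z, z ≠ 0 → z ^ n * f z = p.eval z) : coef n j f = p.coeff j := by
  have hinj : Set.InjOn (fun i : ℕ => (i : ℂ) + 1) (Finset.range (2 * n + 1)) := by
    intro i _ j _ hij
    have : (i : ℂ) = j := add_right_cancel hij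
    exact_mod_cast this
  have h1 := Lagrange.eq_interpolate (f := p) hinj (by
    rw [Finset.card_range]
    exact (degree_le_natDegree).trans_lt (by exact_mod_cast Nat.lt_succ_of_le hp))
  unfold coef
  conv_rhs => rw [h1, Lagrange.interpolate_apply, finsetSum_coeff]
  refine Finset.sum_congr rfl fun i _ => ?_
  rw [coeff_C_mul, h _ (by exact_mod_cast Nat.succ_ne_zero i)]

lemma coef_lin (n j : ℕ) (c d : ℂ) (f g : ℂ → ℂ) :
    coef n j (fun z => c * f z + d * g z) = c * coef n j f + d * coef n j g := by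
  unfold coef
  rw [Finset.mul_sum, Finset.mul_sum, ← Finset.sum_add_distrib]
  refine Finset.sum_congr rfl fun i _ => ?_
  ring

lemma coef_mul (n j : ℕ) (c : ℂ) (f : ℂ → ℂ) :
    coef n j (fun z => c * f z) = c * coef n j f := by
  unfold coef
  rw [Finset.mul_sum]
  refine Finset.sum_congr rfl fun i _ => ?_
  ring

lemma coef_add (n j : ℕ) (f g : ℂ → ℂ) :
    coef n j (fun z => f z + g z) = coef n j f + coef n j g := by
  have := coef_lin n j 1 1 f g
  simpa using this

lemma coef_congr (n j : ℕ) {f g : ℂ → ℂ} (h : ∀ z, z ≠ 0 → f z = g z) :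
    coef n j f = coef n j g := by
  unfold coef
  refine Finset.sum_congr rfl fun i _ => ?_
  rw [h _ (by exact_mod_cast Nat.succ_ne_zero i)]

lemma coef_zero (n j : ℕ) {f : ℂ → ℂ} (h : ∀ z, z ≠ 0 → f z = 0) : coef n j f = 0 := by
  rw [coef_congr n j h]
  have := coef_mul n j 0 (fun _ => 0)
  simpa using this

/-- even functions have symmetric coefficients -/
lemma coef_even {n : ℕ} {f : ℂ → ℂ} (hf : LP n f) (he : ∀ z, z ≠ 0 → f z⁻¹ = f z) :
    coef n 0 f = coef n (2 * n) f := by
  obtain ⟨p, hp, h⟩ := hf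
  rw [coef_eq 0 hp h, coef_eq (2 * n) hp h]
  have h1 : p = reflect (2 * n) p := by
    apply poly_eq_of
    intro z hz
    rw [eval_reflect' hp hz, ← h z hz, ← h z⁻¹ (inv_ne_zero hz), he z hz, inv_pow, two_mul, pow_add]
    have : z ^ n ≠ 0 := pow_ne_zero _ hz
    field_simp
  conv_lhs => rw [h1, coeff_reflect, revAt_le (Nat.zero_le _), Nat.sub_zero]

/-- the sum of Laurent polynomials with parameters -/
lemma LP_coef {n m j : ℕ} (F : ℂ → ℂ → ℂ) (h : ∀ η, η ≠ 0 → LP n (fun z => F η z)) :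
    LP n (fun z => coef m j (fun η => F η z)) := by
  have h1 := LP.sum (n := n) (Finset.range (2 * m + 1))
    (fun i => ((i : ℂ) + 1) ^ m *
      (Lagrange.basis (Finset.range (2 * m + 1)) (fun i : ℕ => (i : ℂ) + 1) i).coeff j)
    (fun i z => F ((i : ℂ) + 1) z) (fun i _ => h _ (by exact_mod_cast Nat.succ_ne_zero i))
  have h2 : (fun z => coef m j (fun η => F η z)) = fun z => ∑ i ∈ Finset.range (2 * m + 1),
      (((i : ℂ) + 1) ^ m *
        (Lagrange.basis (Finset.range (2 * m + 1)) (fun i : ℕ => (i : ℂ) + 1) i).coeff j) *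
        F ((i : ℂ) + 1) z := by
    funext z
    unfold coef
    refine Finset.sum_congr rfl fun i _ => ?_
    ring
  rw [h2]
  exact h1

variable {q a : ℂ} {Φ : List ℂ → List Bool → ℂ}

/-- The ground state is a Laurent polynomial in every parameter. -/
theorem sol_LP (hΦ : Sol q a Φ) {n : ℕ} (l₁ l₂ : List ℂ) (s : List Bool)
    (h₁ : ∀ z ∈ l₁, z ≠ 0) (h₂ : ∀ z ∈ l₂, z ≠ 0) (hn : l₁.length + l₂.length = 2 * n) :
    LP n (fun z => Φ (l₁ ++ z :: l₂) s) := by
  obtain ⟨P, hdeg, hP⟩ := hΦ.poly n s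
  have hlen : ∀ z, (l₁ ++ z :: l₂).length = 2 * n + 1 := by
    intro z
    simp only [List.length_append, List.length_cons]
    omega
  let i₀ : Fin (2 * n + 1) := ⟨l₁.length, by omega⟩
  let w : Fin (2 * n + 1) → ℂ := fun i => (l₁ ++ (1 : ℂ) :: l₂)[i.val]'(by rw [hlen]; exact i.2)
  let v : ℂ → Fin (2 * n + 1) → ℂ := fun z i => if i = i₀ then z else w i
  have hv : ∀ z, List.ofFn (v z) = l₁ ++ z :: l₂ := by
    intro z
    apply List.ext_getElem
    · rw [List.length_ofFn, hlen]
    · intro i hi hi'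
      rw [List.getElem_ofFn]
      simp only [v, w, i₀, Fin.mk.injEq]
      by_cases h : i = l₁.length
      · subst h
        simp
      · rw [if_neg h]
        rcases Nat.lt_or_ge i l₁.length with h1 | h1
        · rw [List.getElem_append_left h1, List.getElem_append_left h1]
        · rw [List.getElem_append_right h1, List.getElem_append_right h1]
          obtain ⟨k, hk⟩ : ∃ k, i - l₁.length = k + 1 := ⟨i - l₁.length - 1, by omega⟩
          simp only [hk, List.getElem_cons_succ]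
  have hw : ∀ i, i ≠ i₀ → w i ≠ 0 := by
    intro i hi
    have hmem : w i ∈ l₁ ++ (1 : ℂ) :: l₂ := List.getElem_mem _
    rw [List.mem_append, List.mem_cons] at hmem
    rcases hmem with h | h | h
    · exact h₁ _ h
    · rw [h]
      exact one_ne_zero
    · exact h₂ _ h
  set K : ℂ := ∏ i ∈ Finset.univ.erase i₀, w i with hK
  have hK0 : K ≠ 0 := Finset.prod_ne_zero_iff.mpr fun i hi => hw i (Finset.ne_of_mem_erase hi)
  have hprod : ∀ z, ∏ i, v z i = z * K := by
    intro z
    rw [← Finset.mul_prod_erase Finset.univ _ (Finset.mem_univ i₀)]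
    congr 1
    · simp [v]
    · refine Finset.prod_congr rfl fun i hi => ?_
      simp only [v, if_neg (Finset.ne_of_mem_erase hi)]
  let g : Fin (2 * n + 1) → ℂ[X] := fun i => if i = i₀ then X else C (w i)
  have hgdeg : ∀ d ∈ P.support, (∏ i, g i ^ d i).natDegree ≤ 2 * n := by
    intro d hd
    refine (natDegree_prod_le _ _).trans ?_
    have h1 : ∑ i, (g i ^ d i).natDegree ≤ ∑ i, if i = i₀ then d i else 0 := by
      refine Finset.sum_le_sum fun i _ => ?_
      refine (natDegree_pow_le).trans ?_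
      simp only [g]
      split_ifs with h
      · rw [natDegree_X, mul_one]
      · rw [natDegree_C, mul_zero]
    refine h1.trans ?_
    rw [Finset.sum_ite_eq' Finset.univ i₀, if_pos (Finset.mem_univ _)]
    exact (MvPolynomial.monomial_le_degreeOf i₀ hd).trans (hdeg i₀)
  refine ⟨C ((K ^ n)⁻¹) * MvPolynomial.eval₂ C g P, ?_, fun z hz => ?_⟩
  · refine (natDegree_C_mul_le _ _).trans ?_
    rw [MvPolynomial.eval₂_eq']
    refine natDegree_sum_le_of_forall_le _ _ fun d hd => ?_
    exact (natDegree_C_mul_le _ _).trans (hgdeg d hd)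
  · have hz' : ∀ i, v z i ≠ 0 := by
      intro i
      simp only [v]
      split_ifs with h
      · exact hz
      · exact hw i h
    have h1 := hP (v z) hz'
    rw [hv z, hprod z] at h1
    have h2 : (MvPolynomial.eval₂ C g P).eval z = MvPolynomial.eval (v z) P := by
      rw [MvPolynomial.eval₂_eq', MvPolynomial.eval_eq', eval_finsetSum]
      refine Finset.sum_congr rfl fun d _ => ?_
      rw [eval_mul, eval_C, eval_prod]
      congr 1
      refine Finset.prod_congr rfl fun i _ => ?_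
      rw [eval_pow]
      congr 1
      simp only [g, v]
      split_ifs
      · exact eval_X
      · exact eval_C
    rw [eval_mul, eval_C, h2, ← h1, mul_pow]
    have h3 : K ^ n ≠ 0 := pow_ne_zero _ hK0
    field_simp

end Pool.Agent.H59.Slit.F3
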