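import Pool.Agent.H59.Slit.F3A

/-! Job SL-F3, part B: solutions of the exchange relations that vanish at all fused points. -/

set_option autoImplicit false
open Polynomial

namespace Pool.Agent.H59.Slit.F3
open Pool.Agent.H72.Cardy

variable {q a : ℂ}

lemma q_ne (hq : q ^ 2 + q + 1 = 0) : q ≠ 0 := by
  rintro rfl
  simp at hq

lemma q_cube (hq : q ^ 2 + q + 1 = 0) : q ^ 3 = 1 := by
  linear_combination (q - 1) * hq

/-- generic lists -/
def Gen (q : ℂ) (l : List ℂ) : Prop :=
  (∀ x ∈ l, ∀ y ∈ l, x * y ≠ q) ∧ l.Pairwise (fun x y => x ≠ y ∧ x ≠ q * y)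

lemma gen_nil (q : ℂ) : Gen q [] := ⟨by simp, List.Pairwise.nil⟩

lemma exists_bad {l : List ℂ} (hg : Gen q l) :
    ∃ S : Set ℂ, S.Finite ∧ ∀ x, x ≠ 0 → x ∉ S → Gen q (x :: l) := by
  refine ⟨{x | x ^ 2 = q} ∪ ((fun y => q * y⁻¹) '' {y | y ∈ l} ∪ ({y | y ∈ l} ∪
    (fun y => q * y) '' {y | y ∈ l})), ?_, ?_⟩
  · have hl : {y | y ∈ l}.Finite := List.finite_toSet l
    refine Set.Finite.union ?_ ((hl.image _).union (hl.union (hl.image _)))
    have h1 : {x : ℂ | x ^ 2 = q} ⊆ {x | (X ^ 2 - C q : ℂ[X]).IsRoot x} := by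
      intro x hx
      change (X ^ 2 - C q : ℂ[X]).eval x = 0
      rw [eval_sub, eval_pow, eval_X, eval_C]
      exact sub_eq_zero.mpr hx
    refine Set.Finite.subset ?_ h1
    exact Polynomial.finite_setOfPred_isRoot (X_pow_sub_C_ne_zero two_pos q)
  · intro x hx0 hx
    simp only [Set.mem_union, Set.mem_ofPred_eq, Set.mem_image, not_or, not_exists, not_and] at hx
    obtain ⟨h1, h2, h3, h4⟩ := hx
    have h2' : ∀ y ∈ l, x * y ≠ q := by
      intro y hy h
      apply h2 y hy
      have hy0 : y ≠ 0 := by
        rintro rfl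
        rw [mul_zero] at h
        apply h1
        have hxy : (0 : ℂ) * 0 = q := by rw [mul_zero]; exact h
        exact absurd hxy (hg.1 0 hy 0 hy)
      rw [← h]
      field_simp
    refine ⟨?_, ?_⟩
    · intro y hy z hz
      rw [List.mem_cons] at hy hz
      rcases hy with rfl | hy
      · rcases hz with rfl | hz
        · rw [← sq]; exact h1
        · exact h2' z hz
      · rcases hz with rfl | hz
        · rw [mul_comm]; exact h2' y hy
        · exact hg.1 y hy z hz
    · rw [List.pairwise_cons]
      refine ⟨fun y hy => ⟨?_, ?_⟩, hg.2⟩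
      · rintro rfl
        exact h3 hy
      · intro h
        exact h4 y hy h.symm

/-- split a list of spins -/
lemma split_at {n k : ℕ} {s : List Bool} (hs : s.length = n) (hk : k + 2 ≤ n) :
    ∃ s₁ c d s₂, s = s₁ ++ c :: d :: s₂ ∧ s₁.length = k ∧ s₂.length + k + 2 = n := by
  refine ⟨s.take k, s[k]'(by omega), s[k + 1]'(by omega), s.drop (k + 2), ?_, ?_, ?_⟩
  · have h1 : s = s.take k ++ s.drop k := (List.take_append_drop k s).symm
    conv_lhs => rw [h1]
    congr 1
    rw [List.drop_eq_getElem_cons (by omega : k < s.length),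
      List.drop_eq_getElem_cons (by omega : k + 1 < s.length)]
  · rw [List.length_take]
    omega
  · rw [List.length_drop]
    omega

/-- A solution of the exchange relations, symmetric in the last parameter, which vanishes at the
fused points, is zero. -/
theorem vanish_of_fused (hq : q ^ 2 + q + 1 = 0) {n : ℕ} (hn : 2 ≤ n)
    (Ψ : List ℂ → List Bool → ℂ)
    (hlen : ∀ l s, Ψ l s ≠ 0 → s.length = l.length)
    (hexch : ∀ l₁ x y l₂ s c d t, List.length s = List.length l₁ → List.length t = List.length l₂ →
      l₁.length + l₂.length + 2 = 2 * n → (∀ z ∈ l₁ ++ x :: y :: l₂, z ≠ 0) →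
      (q * y - q⁻¹ * x) * Ψ (l₁ ++ y :: x :: l₂) (s ++ c :: d :: t) =
        (q * x - q⁻¹ * y) * Ψ (l₁ ++ x :: y :: l₂) (s ++ c :: d :: t) +
        (x - y) * (A a c d * cap a (Ψ (l₁ ++ x :: y :: l₂)) s t))
    (heven : ∀ l x s, x ≠ 0 → (∀ z ∈ l, z ≠ 0) → l.length + 1 = 2 * n →
      Ψ (l ++ [x⁻¹]) s = Ψ (l ++ [x]) s)
    (hfuse : ∀ l₁ x l₂ s, l₁.length + l₂.length + 2 = 2 * n → x ≠ 0 → (∀ z ∈ l₁ ++ l₂, z ≠ 0) →
      Ψ (l₁ ++ x :: (q * x) :: l₂) s = 0)
    (hLP : ∀ l₁ l₂ s, (∀ z ∈ l₁, z ≠ 0) → (∀ z ∈ l₂, z ≠ 0) → l₁.length + l₂.length + 1 = 2 * n →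
      LP n (fun z => Ψ (l₁ ++ z :: l₂) s)) :
    ∀ l s, (∀ z ∈ l, z ≠ 0) → l.length = 2 * n → Ψ l s = 0 := by
  have hq0 := q_ne hq
  -- transport of the vanishing
  have htrans : ∀ (v₁ l₁ v₂ : List ℂ) (x : ℂ), x ≠ 0 → (∀ z ∈ l₁, z ≠ 0) → (∀ z ∈ v₁, z ≠ 0) →
      (∀ z ∈ v₂, z ≠ 0) → (∀ w ∈ v₁, x ≠ q * w) → l₁.length + v₁.length + v₂.length + 2 = 2 * n →
      ∀ s, Ψ (l₁ ++ x :: (v₁ ++ (q * x) :: v₂)) s = 0 := by
    intro v₁
    induction v₁ using List.reverseRecOn with
    | nil =>
      intro l₁ v₂ x hx h1 _ h2 _ hl s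
      refine hfuse l₁ x v₂ s (by simpa using hl) hx ?_
      intro z hz
      rw [List.mem_append] at hz
      exact hz.elim (h1 z) (h2 z)
    | append_singleton v w ih =>
      intro l₁ v₂ x hx h1 hv h2 hxw hl s
      by_cases hs : s.length = 2 * n
      swap
      · by_contra hne
        apply hs
        rw [hlen _ _ hne]
        simp only [List.length_append, List.length_cons, List.length_nil] at hl ⊢
        omega
      simp only [List.length_append, List.length_cons, List.length_nil] at hl
      obtain ⟨s₁, c, d, s₂, rfl, hs1, hs2⟩ := split_at (k := l₁.length + 1 + v.length) hs (by omega)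
      have hw0 : w ≠ 0 := hv w (by simp)
      have hv' : ∀ z ∈ v, z ≠ 0 := fun z hz => hv z (by simp [hz])
      have h0 : ∀ s, Ψ (l₁ ++ x :: (v ++ (q * x) :: (w :: v₂))) s = 0 := by
        apply ih l₁ (w :: v₂) x hx h1 hv'
        · intro z hz
          rw [List.mem_cons] at hz
          rcases hz with rfl | hz
          · exact hw0
          · exact h2 z hz
        · intro u hu
          exact hxw u (by simp [hu])
        · simp only [List.length_cons]
          omega
      have e1 : ∀ u u' : ℂ, l₁ ++ x :: (v ++ u :: u' :: v₂) = (l₁ ++ x :: v) ++ u :: u' :: v₂ := by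
        intro u u'
        simp
      have h3 := hexch (l₁ ++ x :: v) (q * x) w v₂ s₁ c d s₂
        (by simp only [List.length_append, List.length_cons]; omega) (by omega)
        (by simp only [List.length_append, List.length_cons]; omega)
        (by
          intro z hz
          simp only [List.mem_append, List.mem_cons] at hz
          rcases hz with (hz | rfl | hz) | rfl | rfl | hz
          · exact h1 z hz
          · exact hx
          · exact hv' z hz
          · exact mul_ne_zero hq0 hx
          · exact hw0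
          · exact h2 z hz)
      rw [← e1, ← e1, h0] at h3
      unfold cap at h3
      rw [h0, h0] at h3
      have h4 : (q * w - q⁻¹ * (q * x)) ≠ 0 := by
        rw [← mul_assoc, inv_mul_cancel₀ hq0, one_mul]
        exact sub_ne_zero.mpr (Ne.symm (hxw w (by simp)))
      have h5 : (q * w - q⁻¹ * (q * x)) * Ψ (l₁ ++ x :: (v ++ w :: (q * x) :: v₂))
          (s₁ ++ c :: d :: s₂) = 0 := by
        rw [h3]
        ring
      have h6 := (mul_eq_zero.mp h5).resolve_left h4
      have e2 : l₁ ++ x :: (v ++ [w] ++ (q * x) :: v₂) =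
          l₁ ++ x :: (v ++ w :: (q * x) :: v₂) := by simp
      rw [e2]
      exact h6
  -- the generic case
  have hgen : ∀ g : List ℂ, Gen q g → (∀ z ∈ g, z ≠ 0) → g.length + 1 = 2 * n →
      ∀ z, z ≠ 0 → ∀ s, Ψ (g ++ [z]) s = 0 := by
    intro g hg hg0 hgl z hz s
    have hz1 : ∀ x ∈ g, Ψ (g ++ [q * x]) s = 0 := by
      intro x hx
      obtain ⟨l₁, v, rfl⟩ := List.append_of_mem hx
      have hpw := hg.2
      rw [List.pairwise_append, List.pairwise_cons] at hpw
      have e1 : l₁ ++ x :: v ++ [q * x] = l₁ ++ x :: (v ++ (q * x) :: []) := by simp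
      rw [e1]
      simp only [List.length_append, List.length_cons] at hgl
      exact htrans v l₁ [] x (hg0 x hx) (fun z hz => hg0 z (by simp [hz]))
        (fun z hz => hg0 z (by simp [hz])) (by simp) (fun w hw => (hpw.2.1.1 w hw).2)
        (by simp only [List.length_nil]; omega) s
    have hnd : g.Nodup := hg.2.imp fun h => h.1
    let L : List ℂ := g.map (fun x => q * x) ++ g.map (fun x => (q * x)⁻¹)
    have hLnd : L.Nodup := by
      rw [List.nodup_append]
      refine ⟨?_, ?_, ?_⟩
      · exact hnd.map fun x y h => mul_left_cancel₀ hq0 h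
      · exact hnd.map fun x y h => mul_left_cancel₀ hq0 (inv_injective h)
      · intro u hu v hv huv
        rw [List.mem_map] at hu hv
        obtain ⟨x, hx, rfl⟩ := hu
        obtain ⟨y, hy, rfl⟩ := hv
        apply hg.1 x hx y hy
        have hx0 := hg0 x hx
        have hy0 := hg0 y hy
        have h1 : q * x * (q * y) = 1 := by
          rw [huv]
          exact inv_mul_cancel₀ (mul_ne_zero hq0 hy0)
        have h3 := q_cube hq
        linear_combination q * h1 - x * y * h3
    have hcard : L.toFinset.card = 2 * g.length := by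
      rw [List.toFinset_card_of_nodup hLnd]
      simp only [L, List.length_append, List.length_map]
      ring
    refine LP.eq_zero_of_card (hLP g [] s hg0 (by simp) (by simpa using hgl)) L.toFinset
      (by omega) ?_ ?_ z hz
    · intro w hw
      simp only [L, List.mem_toFinset, List.mem_append, List.mem_map] at hw
      rcases hw with ⟨x, hx, rfl⟩ | ⟨x, hx, rfl⟩
      · exact mul_ne_zero hq0 (hg0 x hx)
      · exact inv_ne_zero (mul_ne_zero hq0 (hg0 x hx))
    · intro w hw
      simp only [L, List.mem_toFinset, List.mem_append, List.mem_map] at hw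
      rcases hw with ⟨x, hx, rfl⟩ | ⟨x, hx, rfl⟩
      · exact hz1 x hx
      · rw [heven g (q * x) s (mul_ne_zero hq0 (hg0 x hx)) hg0 hgl]
        exact hz1 x hx
  -- free the parameters one by one
  have hfree : ∀ (u g : List ℂ), Gen q g → (∀ z ∈ u, z ≠ 0) → (∀ z ∈ g, z ≠ 0) →
      u.length + g.length + 1 = 2 * n → ∀ z, z ≠ 0 → ∀ s, Ψ (u ++ (g ++ [z])) s = 0 := by
    intro u
    induction u using List.reverseRecOn with
    | nil =>
      intro g hg _ hg0 hl z hz s
      exact hgen g hg hg0 (by simpa using hl) z hz s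
    | append_singleton u x ih =>
      intro g hg hu hg0 hl z hz s
      simp only [List.length_append, List.length_cons, List.length_nil] at hl
      obtain ⟨S, hS, hSg⟩ := exists_bad hg
      have hu' : ∀ z ∈ u, z ≠ 0 := fun z hz => hu z (by simp [hz])
      have h1 := LP.eq_zero_of (hLP u (g ++ [z]) s hu' (by
        intro w hw
        rw [List.mem_append, List.mem_singleton] at hw
        rcases hw with hw | rfl
        · exact hg0 w hw
        · exact hz) (by simp only [List.length_append, List.length_cons, List.length_nil]; omega))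
        hS (fun x hx hxS => by
          have h2 := ih (x :: g) (hSg x hx hxS) hu' (by
            intro w hw
            rw [List.mem_cons] at hw
            rcases hw with rfl | hw
            · exact hx
            · exact hg0 w hw) (by simp only [List.length_cons]; omega) z hz s
          simpa using h2) x (hu x (by simp))
      have e1 : u ++ [x] ++ (g ++ [z]) = u ++ x :: (g ++ [z]) := by simp
      rw [e1]
      exact h1
  intro l s hl0 hl
  obtain rfl | ⟨u, z, rfl⟩ := List.eq_nil_or_concat' l
  · simp only [List.length_nil] at hl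
    omega
  simp only [List.length_append, List.length_cons, List.length_nil] at hl
  have := hfree u [] (gen_nil q) (fun w hw => hl0 w (by simp [hw])) (by simp)
    (by simp only [List.length_nil]; omega) z (hl0 z (by simp)) s
  simpa using this

end Pool.Agent.H59.Slit.F3
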