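import Pool.Agent.H59.Slit.F3B

/-! Job SL-F3, part C: the extreme coefficients of the ground state in one parameter. -/

set_option autoImplicit false
open Polynomial

namespace Pool.Agent.H59.Slit.F3
open Pool.Agent.H72.Cardy

variable {q a : ℂ} {Φ : List ℂ → List Bool → ℂ}

lemma a_ne (hq : q ^ 2 + q + 1 = 0) (ha : a ^ 2 = - q ^ 2) : a ≠ 0 := by
  rintro rfl
  have := q_ne hq
  simp at ha
  exact this ha

/-- top coefficient -/
noncomputable def hi (Φ : List ℂ → List Bool → ℂ) (n : ℕ) (l₁ l₂ : List ℂ) (s : List Bool) : ℂ :=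
  coef n (2 * n) fun η => Φ (l₁ ++ η :: l₂) s

/-- lowest coefficient -/
noncomputable def lo (Φ : List ℂ → List Bool → ℂ) (n : ℕ) (l₁ l₂ : List ℂ) (s : List Bool) : ℂ :=
  coef n 0 fun η => Φ (l₁ ++ η :: l₂) s

lemma nz_all {l₁ l₂ : List ℂ} {x : ℂ} (h₁ : ∀ z ∈ l₁, z ≠ 0) (h₂ : ∀ z ∈ l₂, z ≠ 0) (hx : x ≠ 0) :
    ∀ z ∈ l₁ ++ x :: l₂, z ≠ 0 := by
  intro z hz
  simp only [List.mem_append, List.mem_cons] at hz
  rcases hz with hz | rfl | hz
  · exact h₁ z hz
  · exact hx
  · exact h₂ z hz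

lemma nz_all2 {l₁ l₂ : List ℂ} {x y : ℂ} (h₁ : ∀ z ∈ l₁, z ≠ 0) (h₂ : ∀ z ∈ l₂, z ≠ 0)
    (hx : x ≠ 0) (hy : y ≠ 0) : ∀ z ∈ l₁ ++ x :: y :: l₂, z ≠ 0 :=
  nz_all h₁ (by
    intro z hz
    rw [List.mem_cons] at hz
    rcases hz with rfl | hz
    · exact hy
    · exact h₂ z hz) hx

lemma top_coef {p : ℂ[X]} {n : ℕ} (hp : p.natDegree ≤ n) (u v : ℂ) :
    ((C u + C v * X) * p).coeff (n + 1) = v * p.coeff n := by
  rw [add_mul, coeff_add, coeff_C_mul, mul_assoc, coeff_C_mul, coeff_X_mul,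
    coeff_eq_zero_of_natDegree_lt (by omega : p.natDegree < n + 1)]
  ring

lemma low_coef (p : ℂ[X]) (u v : ℂ) : ((C u + C v * X) * p).coeff 0 = u * p.coeff 0 := by
  rw [add_mul, coeff_add, coeff_C_mul, mul_assoc, coeff_C_mul, coeff_X_mul_zero]
  ring

/-- the exchange relation for the extreme coefficients -/
lemma hilo_exch (hΦ : Sol q a Φ) {n : ℕ} (l₁ : List ℂ) (y : ℂ) (l₂ : List ℂ)
    (s : List Bool) (c d : Bool) (t : List Bool) (h₁ : ∀ z ∈ l₁, z ≠ 0) (hy : y ≠ 0)
    (h₂ : ∀ z ∈ l₂, z ≠ 0) (hs : s.length = l₁.length) (ht : t.length = l₂.length)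
    (hn : l₁.length + l₂.length + 1 = 2 * n) :
    -q⁻¹ * hi Φ n (l₁ ++ [y]) l₂ (s ++ c :: d :: t) =
        q * hi Φ n l₁ (y :: l₂) (s ++ c :: d :: t) + A a c d * cap a (hi Φ n l₁ (y :: l₂)) s t ∧
      q * lo Φ n (l₁ ++ [y]) l₂ (s ++ c :: d :: t) =
        -q⁻¹ * lo Φ n l₁ (y :: l₂) (s ++ c :: d :: t) -
          A a c d * cap a (lo Φ n l₁ (y :: l₂)) s t := by
  have h₁' : ∀ z ∈ l₁ ++ [y], z ≠ 0 := by
    intro z hz
    simp only [List.mem_append, List.mem_singleton] at hz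
    rcases hz with hz | rfl
    · exact h₁ z hz
    · exact hy
  have h₂' : ∀ z ∈ y :: l₂, z ≠ 0 := by
    intro z hz
    rw [List.mem_cons] at hz
    rcases hz with rfl | hz
    · exact hy
    · exact h₂ z hz
  obtain ⟨p', hp', e'⟩ := sol_LP hΦ (n := n) (l₁ ++ [y]) l₂ (s ++ c :: d :: t) h₁' h₂
    (by simp only [List.length_append, List.length_cons, List.length_nil]; omega)
  obtain ⟨p, hp, e⟩ := sol_LP hΦ (n := n) l₁ (y :: l₂) (s ++ c :: d :: t) h₁ h₂'
    (by simp only [List.length_cons]; omega)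
  obtain ⟨p1, hp1, e1⟩ := sol_LP hΦ (n := n) l₁ (y :: l₂) (s ++ true :: false :: t) h₁ h₂'
    (by simp only [List.length_cons]; omega)
  obtain ⟨p2, hp2, e2⟩ := sol_LP hΦ (n := n) l₁ (y :: l₂) (s ++ false :: true :: t) h₁ h₂'
    (by simp only [List.length_cons]; omega)
  beta_reduce at e' e e1 e2
  have key : (C (q * y) + C (-q⁻¹) * X) * p' =
      (C (-q⁻¹ * y) + C q * X) * p +
        (C (-y) + C 1 * X) * (C (A a c d) * (C a⁻¹ * p1 + C a * p2)) := by
    apply poly_eq_of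
    intro z hz
    simp only [eval_add, eval_mul, eval_C, eval_X]
    rw [← e' z hz, ← e z hz, ← e1 z hz, ← e2 z hz]
    have h3 := hΦ.exch l₁ z y l₂ s c d t hs ht (nz_all2 h₁ h₂ hz hy)
    unfold cap at h3
    have e4 : l₁ ++ [y] ++ z :: l₂ = l₁ ++ y :: z :: l₂ := by simp
    rw [e4]
    linear_combination z ^ n * h3
  have hdeg : (C (A a c d) * (C a⁻¹ * p1 + C a * p2)).natDegree ≤ 2 * n := by
    refine (natDegree_C_mul_le _ _).trans ((natDegree_add_le _ _).trans (max_le ?_ ?_))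
    · exact (natDegree_C_mul_le _ _).trans hp1
    · exact (natDegree_C_mul_le _ _).trans hp2
  unfold hi lo cap
  beta_reduce
  rw [coef_eq _ hp' e', coef_eq _ hp e, coef_eq _ hp1 e1, coef_eq _ hp2 e2,
    coef_eq _ hp' e', coef_eq _ hp e, coef_eq _ hp1 e1, coef_eq _ hp2 e2]
  constructor
  · have h3 := congrArg (fun r : ℂ[X] => r.coeff (2 * n + 1)) key
    simp only [coeff_add] at h3
    rw [top_coef hp', top_coef hp, top_coef hdeg, coeff_C_mul, coeff_add, coeff_C_mul,
      coeff_C_mul] at h3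
    linear_combination h3
  · have h3 := congrArg (fun r : ℂ[X] => r.coeff 0) key
    simp only [coeff_add] at h3
    rw [low_coef, low_coef, low_coef, coeff_C_mul, coeff_add, coeff_C_mul, coeff_C_mul] at h3
    apply mul_left_cancel₀ hy
    linear_combination h3

/-- top coefficient in the first parameter -/
noncomputable def tp (Φ : List ℂ → List Bool → ℂ) (c₀ : Bool) (n : ℕ) (l : List ℂ)
    (s : List Bool) : ℂ :=
  coef n (2 * n) fun η => Φ (η :: l) (c₀ :: s)

lemma hi_nil (c₀ : Bool) (n : ℕ) (l : List ℂ) (s : List Bool) :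
    hi Φ n [] l (c₀ :: s) = tp Φ c₀ n l s := rfl

lemma tp_supp (hΦ : Sol q a Φ) (c₀ : Bool) (n : ℕ) (l : List ℂ) (s : List Bool)
    (h : tp Φ c₀ n l s ≠ 0) :
    s.length = l.length ∧ l.length = 2 * (c₀ :: s).count true := by
  by_contra hcon
  apply h
  unfold tp
  apply coef_zero
  intro z _
  by_contra hne
  have := hΦ.supp _ _ hne
  simp only [List.length_cons] at this
  apply hcon
  constructor
  · omega
  · omega

lemma tp_exch (hΦ : Sol q a Φ) (c₀ : Bool) (n : ℕ) (l₁ : List ℂ) (x y : ℂ) (l₂ : List ℂ)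
    (s : List Bool) (c d : Bool) (t : List Bool) (hs : s.length = l₁.length)
    (ht : t.length = l₂.length) (h0 : ∀ z ∈ l₁ ++ x :: y :: l₂, z ≠ 0) :
    (q * y - q⁻¹ * x) * tp Φ c₀ n (l₁ ++ y :: x :: l₂) (s ++ c :: d :: t) =
      (q * x - q⁻¹ * y) * tp Φ c₀ n (l₁ ++ x :: y :: l₂) (s ++ c :: d :: t) +
      (x - y) * (A a c d * cap a (tp Φ c₀ n (l₁ ++ x :: y :: l₂)) s t) := by
  have h1 : ∀ z, z ≠ 0 → (q * y - q⁻¹ * x) * Φ (z :: (l₁ ++ y :: x :: l₂)) (c₀ :: (s ++ c :: d :: t)) =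
      (q * x - q⁻¹ * y) * Φ (z :: (l₁ ++ x :: y :: l₂)) (c₀ :: (s ++ c :: d :: t)) +
      (((x - y) * A a c d * a⁻¹) * Φ (z :: (l₁ ++ x :: y :: l₂)) (c₀ :: (s ++ true :: false :: t)) +
      ((x - y) * A a c d * a) * Φ (z :: (l₁ ++ x :: y :: l₂)) (c₀ :: (s ++ false :: true :: t))) := by
    intro z hz
    have h3 := hΦ.exch (z :: l₁) x y l₂ (c₀ :: s) c d t (by simp [hs]) ht (by
      intro w hw
      rw [List.cons_append, List.mem_cons] at hw
      rcases hw with rfl | hw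
      · exact hz
      · exact h0 w hw)
    simp only [List.cons_append] at h3
    unfold cap at h3
    simp only [List.cons_append] at h3
    linear_combination h3
  unfold cap tp
  rw [← coef_mul, coef_congr n (2 * n) h1, coef_add, coef_add, coef_mul, coef_mul, coef_mul]
  ring

lemma tp_even_last (hΦ : Sol q a Φ) (c₀ : Bool) (n : ℕ) (l : List ℂ) (x : ℂ) (s : List Bool)
    (hx : x ≠ 0) (h0 : ∀ z ∈ l, z ≠ 0) :
    tp Φ c₀ n (l ++ [x⁻¹]) s = tp Φ c₀ n (l ++ [x]) s := by
  unfold tp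
  apply coef_congr
  intro z hz
  have := hΦ.even_last (z :: l) x (c₀ :: s) hx (by
    intro w hw
    rw [List.mem_cons] at hw
    rcases hw with rfl | hw
    · exact hz
    · exact h0 w hw)
  simpa using this

lemma tp_fuse (hΦ : Sol q a Φ) (c₀ : Bool) (k : ℕ) (l₁ : List ℂ) (x : ℂ) (l₂ : List ℂ)
    (s : List Bool) (c d : Bool) (t : List Bool) (hs : s.length = l₁.length)
    (ht : t.length = l₂.length) (hx : x ≠ 0) (h0 : ∀ z ∈ l₁ ++ l₂, z ≠ 0)
    (hk : l₁.length + l₂.length = 2 * k) :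
    tp Φ c₀ (k + 1) (l₁ ++ x :: (q * x) :: l₂) (s ++ c :: d :: t) =
      A a c d * ((l₁ ++ l₂).map fun y => X' y - X' (q⁻¹ * x)).prod *
        tp Φ c₀ k (l₁ ++ l₂) (s ++ t) := by
  obtain ⟨p, hp, e⟩ := sol_LP hΦ (n := k) [] (l₁ ++ l₂) (c₀ :: (s ++ t)) (by simp) h0
    (by simp only [List.length_nil, List.length_append]; omega)
  simp only [List.nil_append] at e
  set K : ℂ := A a c d * ((l₁ ++ l₂).map fun y => X' y - X' (q⁻¹ * x)).prod with hK
  set w : ℂ := X' (q⁻¹ * x) with hw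
  have hr : (C K * ((X ^ 2 + C (-w) * X + 1) * p)).natDegree ≤ 2 * (k + 1) := by
    refine (natDegree_C_mul_le _ _).trans (natDegree_mul_le.trans ?_)
    have h1 : (X ^ 2 + C (-w) * X + 1 : ℂ[X]).natDegree ≤ 2 := by
      compute_degree
    omega
  have hre : ∀ z, z ≠ 0 → z ^ (k + 1) *
      Φ (z :: (l₁ ++ x :: (q * x) :: l₂)) (c₀ :: (s ++ c :: d :: t)) =
      (C K * ((X ^ 2 + C (-w) * X + 1) * p)).eval z := by
    intro z hz
    have h3 := hΦ.fuse (z :: l₁) x l₂ (c₀ :: s) c d t (by simp [hs]) ht hx (by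
      intro w hw
      rw [List.cons_append, List.mem_cons] at hw
      rcases hw with rfl | hw
      · exact hz
      · exact h0 w hw)
    simp only [List.cons_append, List.map_cons, List.prod_cons, ← hw] at h3
    rw [h3, hK]
    simp only [eval_mul, eval_add, eval_C, eval_X, eval_pow, eval_one]
    rw [← e z hz, pow_succ]
    have h4 : X' z = z + z⁻¹ := rfl
    rw [h4]
    field_simp
    ring
  unfold tp
  rw [coef_eq _ hr hre, coef_eq _ hp e, coeff_C_mul]
  congr 1
  rw [add_mul, add_mul, coeff_add, coeff_add, one_mul,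
    coeff_eq_zero_of_natDegree_lt (by omega : p.natDegree < 2 * (k + 1)), mul_assoc, coeff_C_mul,
    show 2 * (k + 1) = 2 * k + 1 + 1 by ring, coeff_X_mul,
    coeff_eq_zero_of_natDegree_lt (by omega : p.natDegree < 2 * k + 1),
    show 2 * k + 1 + 1 = 2 * k + 2 by ring, coeff_X_pow_mul]
  ring

lemma tp_LP (hΦ : Sol q a Φ) (c₀ : Bool) (n : ℕ) (l₁ l₂ : List ℂ) (s : List Bool)
    (h₁ : ∀ z ∈ l₁, z ≠ 0) (h₂ : ∀ z ∈ l₂, z ≠ 0) (hn : l₁.length + l₂.length + 1 = 2 * n) :
    LP n (fun z => tp Φ c₀ n (l₁ ++ z :: l₂) s) := by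
  unfold tp
  apply LP_coef (fun η z => Φ (η :: (l₁ ++ z :: l₂)) (c₀ :: s))
  intro η hη
  have := sol_LP hΦ (n := n) (η :: l₁) l₂ (c₀ :: s) (by
    intro w hw
    rw [List.mem_cons] at hw
    rcases hw with rfl | hw
    · exact hη
    · exact h₁ w hw) h₂ (by simp only [List.length_cons]; omega)
  simpa using this

/-- The top coefficient with spin down at the first site vanishes. -/
theorem tp_true (hq : q ^ 2 + q + 1 = 0) (hΦ : Sol q a Φ) (n : ℕ) :
    ∀ (l : List ℂ) (s : List Bool), (∀ z ∈ l, z ≠ 0) → l.length = 2 * n →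
      tp Φ true n l s = 0 := by
  induction n with
  | zero =>
    intro l s hl0 hl
    by_contra hne
    have := (tp_supp hΦ true 0 l s hne).2
    rw [List.count_cons_self] at this
    omega
  | succ k ih =>
    rcases Nat.eq_zero_or_pos k with rfl | hk
    · intro l s hl0 hl
      by_contra hne
      obtain ⟨h1, h2⟩ := tp_supp hΦ true 1 l s hne
      rw [List.count_cons_self] at h2
      match l, hl with
      | [y, z], _ =>
        simp only [List.length_cons, List.length_nil] at h1 h2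
        have h3 : s.count true = 0 := by omega
        match s, h1, h3 with
        | [c, d], _, h3 =>
          have hcd : c = false ∧ d = false := by
            revert h3
            cases c <;> cases d <;> decide
          obtain ⟨rfl, rfl⟩ := hcd
          apply hne
          unfold tp
          have h4 : ∀ η : ℂ, η ≠ 0 → η ^ 1 * Φ [η, y, z] [true, false, false] =
              (C (a⁻¹ * (X' z - X' (q * y))) * X : ℂ[X]).eval η := by
            intro η hη
            rw [hΦ.three η y z hη (hl0 y (by simp)) (hl0 z (by simp)), eval_mul, eval_C, eval_X]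
            ring
          rw [coef_eq _ ((natDegree_C_mul_le _ _).trans (natDegree_X_le.trans (by norm_num))) h4,
            coeff_C_mul, coeff_X]
          norm_num
    · apply vanish_of_fused hq (a := a) (by omega : 2 ≤ k + 1) (fun l s => tp Φ true (k + 1) l s)
      · intro l s h
        exact (tp_supp hΦ true (k + 1) l s h).1
      · intro l₁ x y l₂ s c d t hs ht _ h0
        exact tp_exch hΦ true (k + 1) l₁ x y l₂ s c d t hs ht h0
      · intro l x s hx h0 _
        exact tp_even_last hΦ true (k + 1) l x s hx h0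
      · intro l₁ x l₂ s hl hx h0
        by_contra hne
        have h1 := (tp_supp hΦ true (k + 1) _ s hne).1
        simp only [List.length_append, List.length_cons] at h1
        obtain ⟨s₁, c, d, s₂, rfl, hs1, hs2⟩ := split_at (k := l₁.length) h1 (by omega)
        apply hne
        rw [tp_fuse hΦ true k l₁ x l₂ s₁ c d s₂ hs1 (by omega) hx h0 (by omega),
          ih (l₁ ++ l₂) (s₁ ++ s₂) h0 (by rw [List.length_append]; omega), mul_zero]
      · intro l₁ l₂ s h₁ h₂ hl
        exact tp_LP hΦ true (k + 1) l₁ l₂ s h₁ h₂ hl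

end Pool.Agent.H59.Slit.F3
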