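import Pool.Agent.H59.Slit.F3C

/-! Job SL-F3, part D: the symmetry of the top coefficient. -/

set_option autoImplicit false
open Polynomial

namespace Pool.Agent.H59.Slit.F3
open Pool.Agent.H72.Cardy

variable {q a : ℂ} {Φ : List ℂ → List Bool → ℂ}

lemma q_inv (hq : q ^ 2 + q + 1 = 0) : q⁻¹ = q ^ 2 := by
  have h := q_cube hq
  have h0 := q_ne hq
  field_simp
  linear_combination -h

lemma a_inv_sq (hq : q ^ 2 + q + 1 = 0) (ha : a ^ 2 = - q ^ 2) : a⁻¹ * a⁻¹ = -q := by
  have h0 := a_ne hq ha
  have h := q_cube hq
  field_simp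
  rw [ha]
  linear_combination -h

lemma nz_cons {l : List ℂ} {x : ℂ} (hx : x ≠ 0) (h : ∀ z ∈ l, z ≠ 0) : ∀ z ∈ x :: l, z ≠ 0 := by
  intro z hz
  rw [List.mem_cons] at hz
  rcases hz with rfl | hz
  · exact hx
  · exact h z hz

lemma exists_concat {s : List Bool} {n : ℕ} (h : s.length = n + 1) :
    ∃ s' c, s = s' ++ [c] ∧ s'.length = n := by
  obtain rfl | ⟨s', c, rfl⟩ := List.eq_nil_or_concat' s
  · simp at h
  · refine ⟨s', c, rfl, ?_⟩
    simpa using h

/-- Moving the special parameter through the list, top coefficient. -/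
lemma hi_move (hq : q ^ 2 + q + 1 = 0) (ha : a ^ 2 = - q ^ 2) (hΦ : Sol q a Φ) (n : ℕ)
    (l₁ : List ℂ) : ∀ (l₂ : List ℂ) (s t : List Bool), (∀ z ∈ l₁, z ≠ 0) → (∀ z ∈ l₂, z ≠ 0) →
      s.length = l₁.length → t.length = l₂.length → l₁.length + l₂.length = 2 * n →
      hi Φ n l₁ l₂ (s ++ false :: t) =
        (-q ^ 2) ^ s.count false * (-q) ^ s.count true * tp Φ false n (l₁ ++ l₂) (s ++ t) := by
  have hq0 := q_ne hq
  have hq3 := q_cube hq
  have haa := a_inv_sq hq ha
  have ha0 := a_ne hq ha
  have hqi := q_inv hq
  induction l₁ using List.reverseRecOn with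
  | nil =>
    intro l₂ s t _ _ hs _ _
    have : s = [] := List.length_eq_zero_iff.mp (by simpa using hs)
    subst this
    simp only [List.nil_append, List.count_nil, pow_zero, one_mul]
    exact hi_nil false n l₂ t
  | append_singleton l y ih =>
    intro l₂ s t h₁ h₂ hs ht hn
    simp only [List.length_append, List.length_cons, List.length_nil] at hs hn
    obtain ⟨s', c, rfl, hs'⟩ := exists_concat hs
    have hy : y ≠ 0 := h₁ y (by simp)
    have hl : ∀ z ∈ l, z ≠ 0 := fun z hz => h₁ z (by simp [hz])
    have hex := (hilo_exch hΦ (n := n) l y l₂ s' c false t hl hy h₂ (by omega) ht (by omega)).1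
    have e1 : s' ++ [c] ++ false :: t = s' ++ c :: false :: t := by simp
    rw [e1]
    have hlen : ∀ b : Bool, (b :: t).length = (y :: l₂).length := by intro b; simp [ht]
    cases c with
    | false =>
      have h3 := ih (y :: l₂) s' (false :: t) hl (nz_cons hy h₂) (by omega) (hlen _)
        (by simp only [List.length_cons]; omega)
      have e2 : s' ++ [false] ++ t = s' ++ false :: t := by simp
      have e3 : l ++ [y] ++ l₂ = l ++ y :: l₂ := by simp
      simp only [A, zero_mul, add_zero] at hex
      rw [h3] at hex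
      rw [e2, e3, List.count_append, List.count_append]
      simp only [List.count_cons, List.count_nil, beq_self_eq_true, if_true]
      have h4 : ((false == true) = true) = False := by simp
      simp only [h4, if_false, add_zero, zero_add, pow_add, pow_one]
      rw [hqi] at hex
      linear_combination (-q) * hex + (-(hi Φ n (l ++ [y]) l₂ (s' ++ false :: false :: t))) * hq3
    | true =>
      have h3 := ih (y :: l₂) s' (true :: t) hl (nz_cons hy h₂) (by omega) (hlen _)
        (by simp only [List.length_cons]; omega)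
      have e2 : s' ++ [true] ++ t = s' ++ true :: t := by simp
      have e3 : l ++ [y] ++ l₂ = l ++ y :: l₂ := by simp
      simp only [A, cap] at hex
      rw [h3] at hex
      rw [e2, e3, List.count_append, List.count_append]
      simp only [List.count_cons, List.count_nil, beq_self_eq_true, if_true]
      have h4 : ((true == false) = true) = False := by simp
      simp only [h4, if_false, add_zero, zero_add, pow_add, pow_one]
      rw [hqi] at hex
      have hia : a⁻¹ * a = 1 := inv_mul_cancel₀ ha0
      linear_combination (-q) * hex + (-(hi Φ n (l ++ [y]) l₂ (s' ++ true :: false :: t))) * hq3 +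
        (-q) * hi Φ n l (y :: l₂) (s' ++ true :: false :: t) * haa +
        (-q) * ((-q ^ 2) ^ s'.count false * (-q) ^ s'.count true *
          tp Φ false n (l ++ y :: l₂) (s' ++ true :: t)) * hia

/-- Moving the special parameter through the list, lowest coefficient. -/
lemma lo_true (hq : q ^ 2 + q + 1 = 0) (ha : a ^ 2 = - q ^ 2) (hΦ : Sol q a Φ) (n : ℕ)
    (l₁ : List ℂ) : ∀ (l₂ : List ℂ) (s t : List Bool), (∀ z ∈ l₁, z ≠ 0) → (∀ z ∈ l₂, z ≠ 0) →
      s.length = l₁.length → t.length = l₂.length → l₁.length + l₂.length = 2 * n →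
      lo Φ n l₁ l₂ (s ++ true :: t) = 0 := by
  have hq0 := q_ne hq
  have hq3 := q_cube hq
  have ha0 := a_ne hq ha
  have hqi := q_inv hq
  induction l₁ using List.reverseRecOn with
  | nil =>
    intro l₂ s t _ h₂ hs _ hn
    have : s = [] := List.length_eq_zero_iff.mp (by simpa using hs)
    subst this
    have hn' : l₂.length = 2 * n := by simpa using hn
    have h1 := tp_true hq hΦ n l₂ t h₂ hn'
    have h2 : lo Φ n [] l₂ (true :: t) = hi Φ n [] l₂ (true :: t) := by
      refine coef_even (sol_LP hΦ [] l₂ (true :: t) (by simp) h₂ (by simpa using hn')) ?_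
      intro z hz
      exact hΦ.even_first z l₂ (true :: t) hz h₂
    rw [List.nil_append, h2, hi_nil, h1]
  | append_singleton l y ih =>
    intro l₂ s t h₁ h₂ hs ht hn
    simp only [List.length_append, List.length_cons, List.length_nil] at hs hn
    obtain ⟨s', c, rfl, hs'⟩ := exists_concat hs
    have hy : y ≠ 0 := h₁ y (by simp)
    have hl : ∀ z ∈ l, z ≠ 0 := fun z hz => h₁ z (by simp [hz])
    have hex := (hilo_exch hΦ (n := n) l y l₂ s' c true t hl hy h₂ (by omega) ht (by omega)).2
    have e1 : s' ++ [c] ++ true :: t = s' ++ c :: true :: t := by simp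
    rw [e1]
    have hlen : ∀ b : Bool, (b :: t).length = (y :: l₂).length := by intro b; simp [ht]
    have h0 : ∀ b : Bool, lo Φ n l (y :: l₂) (s' ++ true :: b :: t) = 0 := fun b =>
      ih (y :: l₂) s' (b :: t) hl (nz_cons hy h₂) (by omega) (hlen _)
        (by simp only [List.length_cons]; omega)
    apply mul_left_cancel₀ hq0
    rw [hex, mul_zero]
    cases c with
    | false =>
      simp only [A, cap, h0, mul_zero, zero_add]
      rw [hqi]
      linear_combination (-(lo Φ n l (y :: l₂) (s' ++ false :: true :: t))) * ha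
    | true =>
      simp only [A, h0]
      ring

lemma lo_move (hq : q ^ 2 + q + 1 = 0) (ha : a ^ 2 = - q ^ 2) (hΦ : Sol q a Φ) (n : ℕ)
    (l₁ : List ℂ) : ∀ (l₂ : List ℂ) (s t : List Bool), (∀ z ∈ l₁, z ≠ 0) → (∀ z ∈ l₂, z ≠ 0) →
      s.length = l₁.length → t.length = l₂.length → l₁.length + l₂.length = 2 * n →
      lo Φ n l₁ l₂ (s ++ false :: t) =
        (-q) ^ s.count false * (-q ^ 2) ^ s.count true * tp Φ false n (l₁ ++ l₂) (s ++ t) := by
  have hq0 := q_ne hq
  have hq3 := q_cube hq
  have ha0 := a_ne hq ha
  have hqi := q_inv hq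
  induction l₁ using List.reverseRecOn with
  | nil =>
    intro l₂ s t _ h₂ hs _ hn
    have : s = [] := List.length_eq_zero_iff.mp (by simpa using hs)
    subst this
    have hn' : l₂.length = 2 * n := by simpa using hn
    have h2 : lo Φ n [] l₂ (false :: t) = hi Φ n [] l₂ (false :: t) := by
      refine coef_even (sol_LP hΦ [] l₂ (false :: t) (by simp) h₂ (by simpa using hn')) ?_
      intro z hz
      exact hΦ.even_first z l₂ (false :: t) hz h₂
    simp only [List.nil_append, List.count_nil, pow_zero, one_mul]
    rw [h2, hi_nil]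
  | append_singleton l y ih =>
    intro l₂ s t h₁ h₂ hs ht hn
    simp only [List.length_append, List.length_cons, List.length_nil] at hs hn
    obtain ⟨s', c, rfl, hs'⟩ := exists_concat hs
    have hy : y ≠ 0 := h₁ y (by simp)
    have hl : ∀ z ∈ l, z ≠ 0 := fun z hz => h₁ z (by simp [hz])
    have hex := (hilo_exch hΦ (n := n) l y l₂ s' c false t hl hy h₂ (by omega) ht (by omega)).2
    have e1 : s' ++ [c] ++ false :: t = s' ++ c :: false :: t := by simp
    rw [e1]
    have hlen : ∀ b : Bool, (b :: t).length = (y :: l₂).length := by intro b; simp [ht]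
    have h0 : ∀ b : Bool, lo Φ n l (y :: l₂) (s' ++ true :: b :: t) = 0 := fun b =>
      lo_true hq ha hΦ n l (y :: l₂) s' (b :: t) hl (nz_cons hy h₂) (by omega) (hlen _)
        (by simp only [List.length_cons]; omega)
    have e3 : l ++ [y] ++ l₂ = l ++ y :: l₂ := by simp
    apply mul_left_cancel₀ hq0
    rw [hex]
    cases c with
    | false =>
      have h3 := ih (y :: l₂) s' (false :: t) hl (nz_cons hy h₂) (by omega) (hlen _)
        (by simp only [List.length_cons]; omega)
      have e2 : s' ++ [false] ++ t = s' ++ false :: t := by simp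
      simp only [A, zero_mul, sub_zero]
      rw [h3, e2, e3, List.count_append, List.count_append]
      simp only [List.count_cons, List.count_nil, beq_self_eq_true, if_true]
      have h4 : ((false == true) = true) = False := by simp
      simp only [h4, if_false, add_zero, zero_add, pow_add, pow_one]
      rw [hqi]
      ring
    | true =>
      have h3 := ih (y :: l₂) s' (true :: t) hl (nz_cons hy h₂) (by omega) (hlen _)
        (by simp only [List.length_cons]; omega)
      have e2 : s' ++ [true] ++ t = s' ++ true :: t := by simp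
      simp only [A, cap, h0, mul_zero, zero_add]
      rw [h3, e2, e3, List.count_append, List.count_append]
      simp only [List.count_cons, List.count_nil, beq_self_eq_true, if_true]
      have h4 : ((true == false) = true) = False := by simp
      simp only [h4, if_false, add_zero, zero_add, pow_add, pow_one]
      have hia : a⁻¹ * a = 1 := inv_mul_cancel₀ ha0
      linear_combination (-((-q) ^ s'.count false * (-q ^ 2) ^ s'.count true *
          tp Φ false n (l ++ y :: l₂) (s' ++ true :: t))) * hia +
        ((-q) ^ s'.count false * (-q ^ 2) ^ s'.count true *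
          tp Φ false n (l ++ y :: l₂) (s' ++ true :: t)) * hq3

/-- The top coefficient is symmetric in the next parameter. -/
lemma tp_even_first (hq : q ^ 2 + q + 1 = 0) (ha : a ^ 2 = - q ^ 2) (hΦ : Sol q a Φ) {n : ℕ}
    (x : ℂ) (l : List ℂ) (s : List Bool) (hx : x ≠ 0) (hl : ∀ z ∈ l, z ≠ 0)
    (hn : l.length + 1 = 2 * n) :
    tp Φ false n (x⁻¹ :: l) s = tp Φ false n (x :: l) s := by
  have hq0 := q_ne hq
  by_cases hs : s.length = 2 * n
  · have h1 := hi_move hq ha hΦ n (x⁻¹ :: l) [] s [] (nz_cons (inv_ne_zero hx) hl) (by simp)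
      (by simp only [List.length_cons]; omega) (by simp)
      (by simp only [List.length_cons, List.length_nil]; omega)
    have h2 := hi_move hq ha hΦ n (x :: l) [] s [] (nz_cons hx hl) (by simp)
      (by simp only [List.length_cons]; omega) (by simp)
      (by simp only [List.length_cons, List.length_nil]; omega)
    have h3 : hi Φ n (x⁻¹ :: l) [] (s ++ false :: []) = hi Φ n (x :: l) [] (s ++ false :: []) := by
      unfold hi
      apply coef_congr
      intro z hz
      exact hΦ.even_first x (l ++ [z]) (s ++ [false]) hx (nz_all hl (by simp) hz)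
    rw [h1, h2] at h3
    simp only [List.append_nil] at h3
    refine mul_left_cancel₀ (mul_ne_zero (pow_ne_zero _ ?_) (pow_ne_zero _ ?_)) h3
    · exact neg_ne_zero.mpr (pow_ne_zero _ hq0)
    · exact neg_ne_zero.mpr hq0
  · have h0 : ∀ y, tp Φ false n (y :: l) s = 0 := by
      intro y
      by_contra hne
      apply hs
      rw [(tp_supp hΦ false n _ s hne).1, List.length_cons, hn]
    rw [h0, h0]

/-- the reflected top coefficient -/
noncomputable def tq (Φ : List ℂ → List Bool → ℂ) (n : ℕ) (l : List ℂ) (s : List Bool) : ℂ :=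
  tp Φ false n (l.map (·⁻¹)).reverse (s.map not).reverse

lemma A_not (c d : Bool) : A a (!d) (!c) = A a c d := by
  cases c <;> cases d <;> rfl

lemma X'_inv' (x : ℂ) : X' x⁻¹ = X' x := by
  unfold X'
  rw [inv_inv, add_comm]

lemma one_case (hq : q ^ 2 + q + 1 = 0) (ha : a ^ 2 = - q ^ 2) (hΦ : Sol q a Φ) (y z : ℂ)
    (hy : y ≠ 0) (hz : z ≠ 0) :
    tp Φ false 1 [y, z] [true, false] = a⁻¹ ∧ tp Φ false 1 [y, z] [false, true] = a := by
  have hq0 := q_ne hq
  have hq3 := q_cube hq
  have ha0 := a_ne hq ha
  have hqi := q_inv hq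
  have haa := a_inv_sq hq ha
  have hia : a⁻¹ * a = 1 := inv_mul_cancel₀ ha0
  have hz1 : ∀ w ∈ [z], w ≠ 0 := by simpa using hz
  have hy1 : ∀ w ∈ [y], w ≠ 0 := by simpa using hy
  have hyz : ∀ w ∈ [y, z], w ≠ 0 := nz_cons hy hz1
  have h0 : hi Φ 1 [] [y, z] [true, false, false] = 0 := by
    rw [hi_nil]
    exact tp_true hq hΦ 1 [y, z] [false, false] hyz rfl
  -- the first value
  have h1 := (hilo_exch hΦ (n := 1) [] y [z] [] true false [false] (by simp) hy hz1 rfl rfl
    rfl).1
  have h2 : hi Φ 1 ([] ++ [y]) [z] ([] ++ [true, false, false]) = -q * a⁻¹ := by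
    unfold hi
    have h4 : ∀ η : ℂ, η ≠ 0 → η ^ 1 * Φ ([] ++ [y] ++ η :: [z]) ([] ++ [true, false, false]) =
        (C (-(a⁻¹ * q)) * X ^ 2 + C (a⁻¹ * X' z) * X + C (-(a⁻¹ * q⁻¹)) : ℂ[X]).eval η := by
      intro η hη
      have := hΦ.three y η z hy hη hz
      simp only [List.nil_append, List.cons_append]
      rw [this]
      simp only [eval_add, eval_mul, eval_C, eval_X, eval_pow]
      have h5 : X' (q * η) = q * η + (q * η)⁻¹ := rfl
      rw [h5]
      field_simp
      ring
    rw [coef_eq _ (by compute_degree) h4]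
    rw [coeff_add, coeff_add, coeff_C_mul, coeff_C_mul, coeff_X_pow, coeff_X, coeff_C]
    norm_num
    ring
  have h3 : tp Φ false 1 [y, z] [true, false] = a⁻¹ := by
    have e1 : hi Φ 1 [] [y, z] [false, true, false] = tp Φ false 1 [y, z] [true, false] := rfl
    rw [h2] at h1
    simp only [A, cap, List.nil_append] at h1
    rw [h0, e1] at h1
    rw [hqi] at h1
    linear_combination -h1 + a⁻¹ * hq3 - (tp Φ false 1 [y, z] [true, false]) * hia
  refine ⟨h3, ?_⟩
  -- the second value
  have h4 : hi Φ 1 [y, z] [] [false, false, true] = 0 := by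
    have h5 := lo_true hq ha hΦ 1 [y, z] [] [false, false] [] hyz (by simp) rfl rfl rfl
    have h6 : lo Φ 1 [y, z] [] [false, false, true] = hi Φ 1 [y, z] [] [false, false, true] := by
      refine coef_even (sol_LP hΦ [y, z] [] _ hyz (by simp) rfl) ?_
      intro w hw
      exact hΦ.even_last [y, z] w _ hw hyz
    rw [← h6]
    exact h5
  have h5 := (hilo_exch hΦ (n := 1) [y] z [] [false] false true [] hy1 hz (by simp) rfl rfl rfl).1
  have h6 := hi_move hq ha hΦ 1 [y] [z] [false] [true] hy1 hz1 rfl rfl rfl
  have h7 := (hilo_exch hΦ (n := 1) [] y [z] [] false true [false] (by simp) hy hz1 rfl rfl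
    rfl).1
  simp only [A, cap, List.nil_append, List.cons_append] at h5 h6 h7
  rw [h4] at h5
  have e1 : hi Φ 1 [] [y, z] [false, true, false] = a⁻¹ := by
    rw [← h3]
    rfl
  rw [h0, e1] at h7
  have h8 : hi Φ 1 [y] [z] [false, false, true] = -q ^ 2 * tp Φ false 1 [y, z] [false, true] := by
    rw [h6]
    simp
  rw [h8] at h5
  rw [hqi] at h5 h7
  have hqq : q - q ^ 2 ≠ 0 := by
    intro h
    have h9 : q * (1 - q) = 0 := by linear_combination h
    have h10 := (mul_eq_zero.mp h9).resolve_left hq0
    have h11 : q = 1 := (sub_eq_zero.mp h10).symm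
    rw [h11] at hq
    norm_num at hq
  set b := tp Φ false 1 [y, z] [false, true]
  set u := hi Φ 1 [y] [z] [false, true, false]
  -- u = -q (q - q ^ 2) a⁻¹
  have h9 : u = -q * (q - q ^ 2) * a⁻¹ := by
    linear_combination (-q) * h7 - u * hq3 - q * a⁻¹ * ha
  have h10 : (q - q ^ 2) * (q ^ 2 * b + q * a⁻¹) = 0 := by
    rw [h9] at h5
    linear_combination h5 - q ^ 2 * b * ha + (-q * (q - q ^ 2) * a⁻¹) * hia
  have h11 := (mul_eq_zero.mp h10).resolve_left hqq
  have h12 : a * a⁻¹ = 1 := mul_inv_cancel₀ ha0
  have h13 : b = -q ^ 2 * a⁻¹ := by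
    linear_combination q * h11 - b * hq3
  rw [h13]
  linear_combination -a⁻¹ * ha + a * h12

/-- **Symmetry of the top coefficient.** -/
theorem tp_refl (hq : q ^ 2 + q + 1 = 0) (ha : a ^ 2 = - q ^ 2) (hΦ : Sol q a Φ) (n : ℕ) :
    ∀ (l : List ℂ) (s : List Bool), (∀ z ∈ l, z ≠ 0) → l.length = 2 * n →
      tp Φ false n l s - tq Φ n l s = 0 := by
  have hq0 := q_ne hq
  have hq3 := q_cube hq
  have hqi := q_inv hq
  have hlen : ∀ (n : ℕ) (l : List ℂ) (s : List Bool), tp Φ false n l s - tq Φ n l s ≠ 0 →
      s.length = l.length := by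
    intro n l s h
    by_contra hne
    apply h
    have h1 : tp Φ false n l s = 0 := by
      by_contra h1
      exact hne (tp_supp hΦ false n l s h1).1
    have h2 : tq Φ n l s = 0 := by
      by_contra h2
      have := (tp_supp hΦ false n _ _ h2).1
      simp only [List.length_reverse, List.length_map] at this
      exact hne this
    rw [h1, h2, sub_zero]
  have hinv : ∀ l : List ℂ, (∀ z ∈ l, z ≠ 0) → ∀ z ∈ (l.map (·⁻¹)).reverse, z ≠ 0 := by
    intro l hl z hz
    rw [List.mem_reverse, List.mem_map] at hz
    obtain ⟨w, hw, rfl⟩ := hz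
    exact inv_ne_zero (hl w hw)
  induction n with
  | zero =>
    intro l s _ hl
    have hl' : l = [] := List.length_eq_zero_iff.mp (by simpa using hl)
    subst hl'
    by_contra hne
    have h1 := hlen 0 [] s hne
    have h2 : s = [] := List.length_eq_zero_iff.mp (by simpa using h1)
    subst h2
    apply hne
    unfold tq
    simp
  | succ k ih =>
    rcases Nat.eq_zero_or_pos k with rfl | hk
    · intro l s hl0 hl
      by_contra hne
      have hs := hlen 1 l s hne
      match l, hl, hl0, hs with
      | [y, z], _, hl0, hs =>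
        match s, hs with
        | [c, d], _ =>
          have hy := hl0 y (by simp)
          have hz := hl0 z (by simp)
          obtain ⟨h1, h2⟩ := one_case hq ha hΦ y z hy hz
          obtain ⟨h3, h4⟩ := one_case hq ha hΦ z⁻¹ y⁻¹ (inv_ne_zero hz) (inv_ne_zero hy)
          have hzero : ∀ (l : List ℂ) (s : List Bool), l.length = 2 → s.count true ≠ 1 →
              tp Φ false 1 l s = 0 := by
            intro l s hl hs
            by_contra h5
            have h6 := (tp_supp hΦ false 1 l s h5).2
            apply hs
            rw [List.count_cons] at h6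
            simp only [Bool.false_eq_true, beq_iff_eq, if_false, add_zero] at h6
            omega
          apply hne
          cases c <;> cases d
          · have h5 := hzero [y, z] [false, false] rfl (by decide)
            have h6 := hzero [z⁻¹, y⁻¹] [true, true] rfl (by decide)
            change tp Φ false 1 [y, z] [false, false] - tp Φ false 1 [z⁻¹, y⁻¹] [true, true] = 0
            rw [h5, h6, sub_zero]
          · change tp Φ false 1 [y, z] [false, true] - tp Φ false 1 [z⁻¹, y⁻¹] [false, true] = 0
            rw [h2, h4, sub_self]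
          · change tp Φ false 1 [y, z] [true, false] - tp Φ false 1 [z⁻¹, y⁻¹] [true, false] = 0
            rw [h1, h3, sub_self]
          · have h5 := hzero [y, z] [true, true] rfl (by decide)
            have h6 := hzero [z⁻¹, y⁻¹] [false, false] rfl (by decide)
            change tp Φ false 1 [y, z] [true, true] - tp Φ false 1 [z⁻¹, y⁻¹] [false, false] = 0
            rw [h5, h6, sub_zero]
    · apply vanish_of_fused hq (a := a) (by omega : 2 ≤ k + 1)
        (fun l s => tp Φ false (k + 1) l s - tq Φ (k + 1) l s)
      · intro l s h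
        exact hlen (k + 1) l s h
      · intro l₁ x y l₂ s c d t hs ht _ h0
        have hx : x ≠ 0 := h0 x (by simp)
        have hy : y ≠ 0 := h0 y (by simp)
        have h1 := tp_exch hΦ false (k + 1) l₁ x y l₂ s c d t hs ht h0
        have h2 := tp_exch hΦ false (k + 1) (l₂.map (·⁻¹)).reverse y⁻¹ x⁻¹ (l₁.map (·⁻¹)).reverse
          (t.map not).reverse (!d) (!c) (s.map not).reverse (by simp [ht]) (by simp [hs]) (by
            intro z hz
            simp only [List.mem_append, List.mem_cons, List.mem_reverse, List.mem_map] at hz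
            rcases hz with ⟨w, hw, rfl⟩ | rfl | rfl | ⟨w, hw, rfl⟩
            · exact inv_ne_zero (h0 w (by simp [hw]))
            · exact inv_ne_zero hy
            · exact inv_ne_zero hx
            · exact inv_ne_zero (h0 w (by simp [hw])))
        rw [A_not] at h2
        have e1 : ∀ u v : ℂ, (l₂.map (·⁻¹)).reverse ++ u⁻¹ :: v⁻¹ :: (l₁.map (·⁻¹)).reverse =
            ((l₁ ++ v :: u :: l₂).map (·⁻¹)).reverse := by
          intro u v
          simp
        have e2 : ∀ b b' : Bool, (t.map not).reverse ++ (!b) :: (!b') :: (s.map not).reverse =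
            ((s ++ b' :: b :: t).map not).reverse := by
          intro b b'
          simp
        have e3 : (t.map not).reverse ++ true :: false :: (s.map not).reverse =
            ((s ++ true :: false :: t).map not).reverse := e2 false true
        have e4 : (t.map not).reverse ++ false :: true :: (s.map not).reverse =
            ((s ++ false :: true :: t).map not).reverse := e2 true false
        unfold cap at h2
        rw [e1, e1, e2, e3, e4] at h2
        unfold cap at h1 ⊢
        unfold tq
        have h3 : (x * y) * ((q * x⁻¹ - q⁻¹ * y⁻¹) *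
            tp Φ false (k + 1) ((l₁ ++ y :: x :: l₂).map (·⁻¹)).reverse
              ((s ++ c :: d :: t).map not).reverse) = (x * y) * ((q * y⁻¹ - q⁻¹ * x⁻¹) *
            tp Φ false (k + 1) ((l₁ ++ x :: y :: l₂).map (·⁻¹)).reverse
              ((s ++ c :: d :: t).map not).reverse + (y⁻¹ - x⁻¹) * (A a c d *
            (a⁻¹ * tp Φ false (k + 1) ((l₁ ++ x :: y :: l₂).map (·⁻¹)).reverse
              ((s ++ true :: false :: t).map not).reverse +
            a * tp Φ false (k + 1) ((l₁ ++ x :: y :: l₂).map (·⁻¹)).reverse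
              ((s ++ false :: true :: t).map not).reverse))) := congrArg _ h2
        have hxx : x * x⁻¹ = 1 := mul_inv_cancel₀ hx
        have hyy : y * y⁻¹ = 1 := mul_inv_cancel₀ hy
        have e5 : (x * y) * (q * x⁻¹ - q⁻¹ * y⁻¹) = q * y - q⁻¹ * x := by
          linear_combination q * y * hxx - q⁻¹ * x * hyy
        have e6 : (x * y) * (q * y⁻¹ - q⁻¹ * x⁻¹) = q * x - q⁻¹ * y := by
          linear_combination q * x * hyy - q⁻¹ * y * hxx
        have e7 : (x * y) * (y⁻¹ - x⁻¹) = x - y := by
          linear_combination x * hyy - y * hxx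
        rw [mul_add, ← mul_assoc, ← mul_assoc (x * y) (q * y⁻¹ - q⁻¹ * x⁻¹),
          ← mul_assoc (x * y) (y⁻¹ - x⁻¹), e5, e6, e7] at h3
        linear_combination h1 - h3
      · intro l x s hx h0 hl
        have h1 := tp_even_last hΦ false (k + 1) l x s hx h0
        have h2 : tq Φ (k + 1) (l ++ [x⁻¹]) s = tq Φ (k + 1) (l ++ [x]) s := by
          unfold tq
          have e1 : ∀ u : ℂ, ((l ++ [u]).map (·⁻¹)).reverse = u⁻¹ :: (l.map (·⁻¹)).reverse := by
            intro u
            simp
          rw [e1, e1]
          exact tp_even_first hq ha hΦ x⁻¹ _ _ (inv_ne_zero hx) (hinv l h0) (by simpa using hl)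
        rw [h1, h2]
      · intro l₁ x l₂ s hl hx h0
        by_contra hne
        have h1 := hlen (k + 1) _ s hne
        simp only [List.length_append, List.length_cons] at h1
        obtain ⟨s₁, c, d, s₂, rfl, hs1, hs2⟩ := split_at (k := l₁.length) h1 (by omega)
        apply hne
        have h2 := tp_fuse hΦ false k l₁ x l₂ s₁ c d s₂ hs1 (by omega) hx h0 (by omega)
        have hqx : q⁻¹ * x⁻¹ ≠ 0 := mul_ne_zero (inv_ne_zero hq0) (inv_ne_zero hx)
        have h3 := tp_fuse hΦ false k (l₂.map (·⁻¹)).reverse (q⁻¹ * x⁻¹) (l₁.map (·⁻¹)).reverse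
          (s₂.map not).reverse (!d) (!c) (s₁.map not).reverse
          (by simp only [List.length_reverse, List.length_map]; omega)
          (by simp only [List.length_reverse, List.length_map]; omega) hqx (by
            intro z hz
            simp only [List.mem_append, List.mem_reverse, List.mem_map] at hz
            rcases hz with ⟨w, hw, rfl⟩ | ⟨w, hw, rfl⟩
            · exact inv_ne_zero (h0 w (by simp [hw]))
            · exact inv_ne_zero (h0 w (by simp [hw])))
          (by simp only [List.length_reverse, List.length_map]; omega)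
        rw [A_not] at h3
        have e1 : q * (q⁻¹ * x⁻¹) = x⁻¹ := by
          rw [← mul_assoc, mul_inv_cancel₀ hq0, one_mul]
        have e2 : (l₂.map (·⁻¹)).reverse ++ (q⁻¹ * x⁻¹) :: x⁻¹ :: (l₁.map (·⁻¹)).reverse =
            ((l₁ ++ x :: (q * x) :: l₂).map (·⁻¹)).reverse := by
          simp only [List.map_append, List.map_cons, List.reverse_append, List.reverse_cons,
            List.append_assoc, List.singleton_append, mul_inv]
          rfl
        have e3 : (s₂.map not).reverse ++ (!d) :: (!c) :: (s₁.map not).reverse =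
            ((s₁ ++ c :: d :: s₂).map not).reverse := by
          simp
        have e4 : (l₂.map (·⁻¹)).reverse ++ (l₁.map (·⁻¹)).reverse =
            ((l₁ ++ l₂).map (·⁻¹)).reverse := by
          simp
        have e5 : (s₂.map not).reverse ++ (s₁.map not).reverse = ((s₁ ++ s₂).map not).reverse := by
          simp
        have e6 : X' (q⁻¹ * (q⁻¹ * x⁻¹)) = X' (q⁻¹ * x) := by
          rw [← X'_inv' (q⁻¹ * x)]
          congr 1
          rw [mul_inv, inv_inv, hqi, ← mul_assoc]
          linear_combination q * x⁻¹ * hq3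
        rw [e1, e2, e3, e4, e5, e6] at h3
        have e7 : ((((l₁ ++ l₂).map (·⁻¹)).reverse).map fun y => X' y - X' (q⁻¹ * x)).prod =
            ((l₁ ++ l₂).map fun y => X' y - X' (q⁻¹ * x)).prod := by
          rw [List.map_reverse, List.prod_reverse, List.map_map]
          congr 1
          apply List.map_congr_left
          intro z _
          simp only [Function.comp_apply]
          rw [X'_inv']
        rw [e7] at h3
        have h4 := ih (l₁ ++ l₂) (s₁ ++ s₂) h0 (by rw [List.length_append]; omega)
        have h5 : tq Φ (k + 1) (l₁ ++ x :: (q * x) :: l₂) (s₁ ++ c :: d :: s₂) =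
            A a c d * ((l₁ ++ l₂).map fun y => X' y - X' (q⁻¹ * x)).prod *
              tq Φ k (l₁ ++ l₂) (s₁ ++ s₂) := h3
        rw [h2, h5, ← mul_sub, h4, mul_zero]
      · intro l₁ l₂ s h₁ h₂ hl
        have h1 := tp_LP hΦ false (k + 1) l₁ l₂ s h₁ h₂ hl
        have h2 := (tp_LP hΦ false (k + 1) (l₂.map (·⁻¹)).reverse (l₁.map (·⁻¹)).reverse
          (s.map not).reverse (hinv l₂ h₂) (hinv l₁ h₁)
          (by simp only [List.length_reverse, List.length_map]; omega)).inv
        have h3 := h1.lin h2 1 (-1)
        have h4 : (fun z => tp Φ false (k + 1) (l₁ ++ z :: l₂) s - tq Φ (k + 1) (l₁ ++ z :: l₂) s) =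
            fun z => 1 * tp Φ false (k + 1) (l₁ ++ z :: l₂) s + (-1) *
              tp Φ false (k + 1) ((l₂.map (·⁻¹)).reverse ++ z⁻¹ :: (l₁.map (·⁻¹)).reverse)
                (s.map not).reverse := by
          funext z
          unfold tq
          have e1 : ((l₁ ++ z :: l₂).map (·⁻¹)).reverse =
              (l₂.map (·⁻¹)).reverse ++ z⁻¹ :: (l₁.map (·⁻¹)).reverse := by
            simp
          rw [e1]
          ring
        rw [h4]
        exact h3

end Pool.Agent.H59.Slit.F3
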