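import Pool.Agent.H59.Slit.Defs

set_option autoImplicit false

/-! Cardy's formula in the slit strip: nonzero parameters and the function `MM`. -/

namespace Pool.Agent.H59.Slit
open Pool.Agent.H72.Cardy

/-- all nonzero -/
def NZ (l : List ℂ) : Prop := ∀ x ∈ l, x ≠ 0

/-- the function `M` -/
noncomputable def MM (Φ : List ℂ → List Bool → ℂ) (x y : List ℂ) (η : ℂ) : ℂ :=
  NS Φ x y η * (η - η⁻¹) * ((x ++ y).map fun v => X' η - X' v).prod

end Pool.Agent.H59.Slit
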