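import Pool.Agent.H59.Slit.Defs
import Pool.Agent.H59.Slit.NZ
import Pool.Agent.H72.Cardy.NSym

set_option autoImplicit false

/-! Cardy's formula in the slit strip: symmetries of the numerator. -/

namespace Pool.Agent.H59.Slit
open Pool.Agent.H72.Cardy Pool.Agent.H72.Cardy.NSymAux

variable {q a : ℂ} {Φ : List ℂ → List Bool → ℂ}

namespace NAux

/-- both vectors satisfy an exchange relation on the same sites: the contraction is invariant -/
theorem contract_same {m n : ℕ} {be al ga : ℂ} (hbe : be ≠ 0) {W W' V V' : List Bool → ℂ}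
    (hV : ∀ s t c d, List.length s = m → List.length t = n →
      be * V' (s ++ c :: d :: t) = al * V (s ++ c :: d :: t) + ga * (A a c d * cap a V s t))
    (hW : ∀ s t c d, List.length s = m → List.length t = n →
      be * W (s ++ c :: d :: t) = al * W' (s ++ c :: d :: t) + ga * (A a c d * cap a W' s t)) :
    sumC (m + (n + 2)) (fun s => W' s * V' s) = sumC (m + (n + 2)) (fun s => W s * V s) := by
  apply mul_left_cancel₀ hbe
  rw [← sumC_mul, ← sumC_mul, sumC_mid, sumC_mid]
  apply sumC_congr
  intro s hs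
  apply sumC_congr
  intro t ht
  have e1 := hV s t false false hs ht
  have e2 := hV s t true false hs ht
  have e3 := hV s t false true hs ht
  have e4 := hV s t true true hs ht
  have f1 := hW s t false false hs ht
  have f2 := hW s t true false hs ht
  have f3 := hW s t false true hs ht
  have f4 := hW s t true true hs ht
  simp only [A, cap] at e1 e2 e3 e4 f1 f2 f3 f4 ⊢
  linear_combination W' (s ++ false :: false :: t) * e1 +
    W' (s ++ true :: false :: t) * e2 + W' (s ++ false :: true :: t) * e3 +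
    W' (s ++ true :: true :: t) * e4 - V (s ++ false :: false :: t) * f1 -
    V (s ++ true :: false :: t) * f2 - V (s ++ false :: true :: t) * f3 -
    V (s ++ true :: true :: t) * f4

/-- the exchange relation passes through a sum over the spins on the right -/
theorem sum_exch {k : ℕ} {U U' G : List Bool → ℂ} {be al ga : ℂ} {s t₀ : List Bool} {c d : Bool}
    (h : ∀ w, List.length w = k →
      be * U' (s ++ c :: d :: (t₀ ++ w)) = al * U (s ++ c :: d :: (t₀ ++ w)) +
        ga * (A a c d * cap a U s (t₀ ++ w))) :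
    be * sumC k (fun w => U' (s ++ c :: d :: (t₀ ++ w)) * G w) =
      al * sumC k (fun w => U (s ++ c :: d :: (t₀ ++ w)) * G w) +
      ga * (A a c d * (a⁻¹ * sumC k (fun w => U (s ++ true :: false :: (t₀ ++ w)) * G w) +
        a * sumC k (fun w => U (s ++ false :: true :: (t₀ ++ w)) * G w))) := by
  have h2 := sumC_lin k al ga
    (fun w => U (s ++ c :: d :: (t₀ ++ w)) * G w)
    (fun w => A a c d * (a⁻¹ * (U (s ++ true :: false :: (t₀ ++ w)) * G w) +
        a * (U (s ++ false :: true :: (t₀ ++ w)) * G w)))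
  have h3 := sumC_lin k a⁻¹ a
    (fun w => U (s ++ true :: false :: (t₀ ++ w)) * G w)
    (fun w => U (s ++ false :: true :: (t₀ ++ w)) * G w)
  rw [← h3, ← sumC_mul k (A a c d), ← h2, ← sumC_mul]
  apply sumC_congr
  intro w hw
  have := h w hw
  simp only [cap] at this
  linear_combination G w * this

end NAux

open NAux

theorem NS_swapx (hq : q ^ 2 + q + 1 = 0) (ha : a ^ 2 = - q ^ 2) (hΦ : Sol q a Φ)
    (l₁ : List ℂ) (u v : ℂ) (l₂ y : List ℂ) (η : ℂ) (h0 : NZ (l₁ ++ u :: v :: l₂ ++ y ++ [η]))
    (huv : u ^ 3 ≠ v ^ 3) :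
    NS Φ (l₁ ++ v :: u :: l₂) y η = NS Φ (l₁ ++ u :: v :: l₂) y η := by
  have hu : u ≠ 0 := h0 u (by simp)
  have hv : v ≠ 0 := h0 v (by simp)
  have key : ∀ X : List ℂ, NS Φ X y η = sumC X.length (fun s => Φ (X.map (·⁻¹)) s *
      sumC y.length (fun t => Φ (X ++ η :: y) (s ++ false :: t) *
        Φ y.reverse ((t.map not).reverse))) := by
    intro X
    unfold NS
    apply sumC_congr
    intro s _
    rw [← sumC_mul]
    apply sumC_congr
    intro t _
    ring
  rw [key, key]
  have hlen : (l₁ ++ v :: u :: l₂).length = l₁.length + (l₂.length + 2) := by simp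
  have hlen' : (l₁ ++ u :: v :: l₂).length = l₁.length + (l₂.length + 2) := by simp
  rw [hlen, hlen']
  refine contract_same (a := a) (be_ne_zero hq huv) (al := q * u - q⁻¹ * v) (ga := u - v)
    (W := Φ ((l₁ ++ u :: v :: l₂).map (·⁻¹))) (W' := Φ ((l₁ ++ v :: u :: l₂).map (·⁻¹)))
    (V := fun s => sumC y.length (fun t => Φ ((l₁ ++ u :: v :: l₂) ++ η :: y) (s ++ false :: t) *
        Φ y.reverse ((t.map not).reverse)))
    (V' := fun s => sumC y.length (fun t => Φ ((l₁ ++ v :: u :: l₂) ++ η :: y) (s ++ false :: t) *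
        Φ y.reverse ((t.map not).reverse))) ?_ ?_
  · intro s t c d hs ht
    have h := sum_exch (a := a) (k := y.length) (U := Φ (l₁ ++ u :: v :: (l₂ ++ η :: y)))
      (U' := Φ (l₁ ++ v :: u :: (l₂ ++ η :: y)))
      (G := fun t => Φ y.reverse ((t.map not).reverse)) (be := q * v - q⁻¹ * u)
      (al := q * u - q⁻¹ * v) (ga := u - v) (s := s) (t₀ := t ++ [false]) (c := c) (d := d)
      (fun w hw => hΦ.exch l₁ u v (l₂ ++ η :: y) s c d (t ++ [false] ++ w) hs
        (by simp [hw, ht]) (by
          intro z hz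
          simp only [List.mem_append, List.mem_cons] at hz
          apply h0 z
          simp only [List.mem_append, List.mem_cons, List.not_mem_nil, or_false]
          tauto))
    simpa [cap, List.append_assoc] using h
  · intro s t c d hs ht
    have h := hΦ.exch (l₁.map (·⁻¹)) v⁻¹ u⁻¹ (l₂.map (·⁻¹)) s c d t (by simp [hs]) (by simp [ht]) (by
      intro z hz
      simp only [List.mem_append, List.mem_cons, List.mem_map] at hz
      rcases hz with ⟨w, hw, rfl⟩ | rfl | rfl | ⟨w, hw, rfl⟩
      · exact inv_ne_zero (h0 w (by simp [hw]))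
      · exact inv_ne_zero hv
      · exact inv_ne_zero hu
      · exact inv_ne_zero (h0 w (by simp [hw])))
    simp only [List.map_append, List.map_cons]
    have e1 : q * v - q⁻¹ * u = (q * u⁻¹ - q⁻¹ * v⁻¹) * (u * v) := by
      field_simp
    have e2 : q * u - q⁻¹ * v = (q * v⁻¹ - q⁻¹ * u⁻¹) * (u * v) := by
      field_simp
    have e3 : u - v = (v⁻¹ - u⁻¹) * (u * v) := by
      field_simp
    rw [e1, e2, e3]
    linear_combination (u * v) * h

theorem NS_evenx (hΦ : Sol q a Φ) (u : ℂ) (l y : List ℂ) (η : ℂ) (h0 : NZ (u :: l ++ y ++ [η])) :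
    NS Φ (u⁻¹ :: l) y η = NS Φ (u :: l) y η := by
  have hu : u ≠ 0 := h0 u (by simp)
  have h1 : Φ (u⁻¹ :: l ++ η :: y) = Φ (u :: l ++ η :: y) := by
    funext s
    rw [List.cons_append, List.cons_append]
    refine hΦ.even_first _ _ _ hu (fun z hz => ?_)
    simp only [List.mem_append, List.mem_cons] at hz
    apply h0 z
    simp only [List.mem_append, List.mem_cons, List.not_mem_nil, or_false]
    tauto
  have h2 : Φ ((u⁻¹ :: l).map (·⁻¹)) = Φ ((u :: l).map (·⁻¹)) := by
    funext s
    rw [List.map_cons, List.map_cons, inv_inv]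
    refine (hΦ.even_first _ _ _ hu (fun z hz => ?_)).symm
    obtain ⟨w, hw, rfl⟩ := List.mem_map.1 hz
    exact inv_ne_zero (h0 w (by simp [hw]))
  unfold NS
  rw [h1, h2]
  rfl

theorem NS_swapy (hq : q ^ 2 + q + 1 = 0) (ha : a ^ 2 = - q ^ 2) (hΦ : Sol q a Φ)
    (x l₁ : List ℂ) (u v : ℂ) (l₂ : List ℂ) (η : ℂ) (h0 : NZ (x ++ l₁ ++ u :: v :: l₂ ++ [η]))
    (huv : u ^ 3 ≠ v ^ 3) :
    NS Φ x (l₁ ++ v :: u :: l₂) η = NS Φ x (l₁ ++ u :: v :: l₂) η := by
  have key : ∀ Y : List ℂ, NS Φ x Y η = sumC x.length (fun s => Φ (x.map (·⁻¹)) s *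
      sumC Y.length (fun t => Φ Y.reverse (rv t) * Φ (x ++ η :: Y) (s ++ false :: t))) := by
    intro Y
    unfold NS rv
    apply sumC_congr
    intro s _
    rw [← sumC_mul]
    apply sumC_congr
    intro t _
    ring
  rw [key, key]
  apply sumC_congr
  intro s hs
  congr 1
  have hlen : (l₁ ++ v :: u :: l₂).length = l₁.length + (l₂.length + 2) := by simp
  have hlen' : (l₁ ++ u :: v :: l₂).length = l₁.length + (l₂.length + 2) := by simp
  rw [hlen, hlen']
  refine contract_swap (a := a) (be_ne_zero hq huv) (al := q * u - q⁻¹ * v) (ga := u - v)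
    (W := Φ (l₁ ++ u :: v :: l₂).reverse) (W' := Φ (l₁ ++ v :: u :: l₂).reverse)
    (V := fun t => Φ (x ++ η :: (l₁ ++ u :: v :: l₂)) (s ++ false :: t))
    (V' := fun t => Φ (x ++ η :: (l₁ ++ v :: u :: l₂)) (s ++ false :: t)) ?_ ?_
  · intro s' t c d hs' ht
    have h := hΦ.exch (x ++ η :: l₁) u v l₂ (s ++ false :: s') c d t (by simp [hs, hs'])
      ht (by
      intro z hz
      simp only [List.mem_append, List.mem_cons] at hz
      apply h0 z
      simp only [List.mem_append, List.mem_cons, List.not_mem_nil, or_false]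
      tauto)
    simpa [cap, List.append_assoc] using h
  · intro s' t c d hs' ht
    have h := hΦ.exch l₂.reverse u v l₁.reverse s' c d t (by simp [hs'])
      (by simp [ht]) (by
      intro z hz
      simp only [List.mem_append, List.mem_cons, List.mem_reverse] at hz
      apply h0 z
      simp only [List.mem_append, List.mem_cons, List.not_mem_nil, or_false]
      tauto)
    simpa [cap, List.append_assoc] using h

theorem NS_eveny (hΦ : Sol q a Φ) (x l : List ℂ) (u η : ℂ) (h0 : NZ (x ++ l ++ [u, η])) :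
    NS Φ x (l ++ [u⁻¹]) η = NS Φ x (l ++ [u]) η := by
  have hu : u ≠ 0 := h0 u (by simp)
  have h1 : Φ (x ++ η :: (l ++ [u⁻¹])) = Φ (x ++ η :: (l ++ [u])) := by
    funext s
    rw [← List.cons_append, ← List.cons_append, ← List.append_assoc, ← List.append_assoc]
    refine hΦ.even_last _ _ _ hu (fun z hz => ?_)
    simp only [List.mem_append, List.mem_cons] at hz
    apply h0 z
    simp only [List.mem_append, List.mem_cons, List.not_mem_nil, or_false]
    tauto
  have h2 : Φ (l ++ [u⁻¹]).reverse = Φ (l ++ [u]).reverse := by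
    funext s
    rw [List.reverse_append, List.reverse_append]
    refine hΦ.even_first _ _ _ hu (fun z hz => ?_)
    exact h0 z (by simp [List.mem_reverse.1 hz])
  unfold NS
  rw [h1, h2]
  simp

end Pool.Agent.H59.Slit
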