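import Pool.Agent.H59.Slit.N1

set_option autoImplicit false

/-! Cardy's formula in the slit strip: fusion of the numerator. -/

namespace Pool.Agent.H59.Slit
open Pool.Agent.H72.Cardy Pool.Agent.H72.Cardy.NSymAux

variable {q a : ℂ} {Φ : List ℂ → List Bool → ℂ}

namespace NAux

theorem q_ne_zero (hq : q ^ 2 + q + 1 = 0) : q ≠ 0 := by
  rintro rfl; norm_num at hq

theorem X'_inv (z : ℂ) : X' z⁻¹ = X' z := by
  simp [X', add_comm]

theorem X'_qinv (u : ℂ) : X' (q * u⁻¹) = X' (q⁻¹ * u) := by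
  rw [← X'_inv (q * u⁻¹), mul_inv, inv_inv]

theorem X'_qinv' (u : ℂ) : X' (q⁻¹ * u⁻¹) = X' (q * u) := by
  rw [← X'_inv (q⁻¹ * u⁻¹), mul_inv, inv_inv, inv_inv]

theorem sumC_snoc (k : ℕ) (f : List Bool → ℂ) :
    sumC (k + 1) f = sumC k (fun s => f (s ++ [false]) + f (s ++ [true])) := by
  rw [sumC_append k 1 f]
  rfl

theorem sumC_cons (k : ℕ) (f : List Bool → ℂ) :
    sumC (k + 1) f = sumC k (fun s => f (false :: s) + f (true :: s)) := by
  rw [sumC]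
  have := sumC_lin k 1 1 (fun s => f (false :: s)) (fun s => f (true :: s))
  simp only [one_mul] at this
  rw [this]

/-- the remaining sum after fusion on the left of the tip -/
noncomputable def KX (Φ : List ℂ → List Bool → ℂ) (l y : List ℂ) (u : ℂ) : ℂ :=
  sumC l.length fun s => sumC y.length fun t =>
    Φ (l ++ y) (s ++ t) * Φ (l.map (·⁻¹) ++ [u⁻¹]) (s ++ [true]) *
      Φ y.reverse ((t.map not).reverse)

theorem KX_even (hΦ : Sol q a Φ) (l y : List ℂ) (u : ℂ) (h0 : NZ (l ++ y ++ [u])) :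
    KX Φ l y u⁻¹ = KX Φ l y u := by
  have hu : u ≠ 0 := h0 u (by simp)
  have h1 : Φ (l.map (·⁻¹) ++ [u⁻¹⁻¹]) = Φ (l.map (·⁻¹) ++ [u⁻¹]) := by
    funext s
    rw [inv_inv]
    refine (hΦ.even_last _ _ _ hu (fun z hz => ?_)).symm
    obtain ⟨w, hw, rfl⟩ := List.mem_map.1 hz
    exact inv_ne_zero (h0 w (by simp [hw]))
  unfold KX
  rw [h1]

theorem NS_KX (hΦ : Sol q a Φ) (l y : List ℂ) (u : ℂ) (h0 : NZ (l ++ y ++ [u])) :
    NS Φ (l ++ [u]) y (q * u) =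
      a⁻¹ * ((l ++ y).map fun v => X' v - X' (q⁻¹ * u)).prod * KX Φ l y u := by
  unfold NS KX
  rw [List.length_append, List.length_singleton, sumC_snoc, ← sumC_mul]
  apply sumC_congr
  intro s hs
  rw [← sumC_mul]
  have h2 := sumC_lin y.length 1 1
    (fun t => Φ (l ++ [u] ++ q * u :: y) (s ++ [false] ++ false :: t) *
      Φ ((l ++ [u]).map (·⁻¹)) (s ++ [false]) * Φ y.reverse ((t.map not).reverse))
    (fun t => Φ (l ++ [u] ++ q * u :: y) (s ++ [true] ++ false :: t) *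
      Φ ((l ++ [u]).map (·⁻¹)) (s ++ [true]) * Φ y.reverse ((t.map not).reverse))
  simp only [one_mul] at h2
  rw [← h2]
  apply sumC_congr
  intro t ht
  have hf := fun c d => hΦ.fuse l u y s c d t hs ht (h0 u (by simp))
    (fun z hz => h0 z (List.mem_append_left _ hz))
  have e : l ++ [u] ++ q * u :: y = l ++ u :: (q * u) :: y := by simp
  have e1 : s ++ [false] ++ false :: t = s ++ false :: false :: t := by simp
  have e2 : s ++ [true] ++ false :: t = s ++ true :: false :: t := by simp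
  have e3 : (l ++ [u]).map (·⁻¹) = l.map (·⁻¹) ++ [u⁻¹] := by simp
  rw [e, e1, e2, e3, hf, hf]
  simp only [A]
  ring

/-- the remaining sum after fusion on the right of the tip -/
noncomputable def KY (Φ : List ℂ → List Bool → ℂ) (x l : List ℂ) (u : ℂ) : ℂ :=
  sumC x.length fun s => sumC l.length fun t =>
    Φ (x ++ l) (s ++ t) * Φ (x.map (·⁻¹)) s *
      Φ (l.reverse ++ [u]) ((t.map not).reverse ++ [false])

theorem KY_even (hΦ : Sol q a Φ) (x l : List ℂ) (u : ℂ) (h0 : NZ (x ++ l ++ [u])) :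
    KY Φ x l u⁻¹ = KY Φ x l u := by
  have hu : u ≠ 0 := h0 u (by simp)
  have h1 : Φ (l.reverse ++ [u⁻¹]) = Φ (l.reverse ++ [u]) := by
    funext s
    refine hΦ.even_last _ _ _ hu (fun z hz => ?_)
    exact h0 z (by simp [List.mem_reverse.1 hz])
  unfold KY
  rw [h1]

theorem NS_KY (hq : q ^ 2 + q + 1 = 0) (hΦ : Sol q a Φ) (x l : List ℂ) (u : ℂ)
    (h0 : NZ (x ++ l ++ [u])) :
    NS Φ x (u :: l) (q⁻¹ * u) =
      a * ((x ++ l).map fun v => X' v - X' (q * u)).prod * KY Φ x l u := by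
  have hq0 := q_ne_zero hq
  have hq3 : q ^ 3 = 1 := by linear_combination (q - 1) * hq
  unfold NS KY
  rw [← sumC_mul]
  apply sumC_congr
  intro s hs
  rw [List.length_cons, sumC_cons, ← sumC_mul]
  apply sumC_congr
  intro t ht
  have hf := fun c d => hΦ.fuse x (q⁻¹ * u) l s c d t hs ht
    (mul_ne_zero (inv_ne_zero hq0) (h0 u (by simp))) (fun z hz => h0 z (List.mem_append_left _ hz))
  rw [mul_inv_cancel_left₀ hq0] at hf
  have e : q⁻¹ * (q⁻¹ * u) = q * u := by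
    field_simp
    linear_combination -u * hq3
  rw [e] at hf
  rw [hf, hf]
  simp only [A, List.map_cons, List.reverse_cons, Bool.not_true]
  ring

end NAux

open NAux

theorem NS_fusex (hq : q ^ 2 + q + 1 = 0) (ha : a ^ 2 = - q ^ 2) (hΦ : Sol q a Φ)
    (l y : List ℂ) (u : ℂ) (h0 : NZ (l ++ y ++ [u])) :
    NS Φ (l ++ [u]) y (q * u) * ((l ++ y).map fun v => X' v - X' (q * u)).prod =
      NS Φ (l ++ [u⁻¹]) y (q * u⁻¹) * ((l ++ y).map fun v => X' v - X' (q * u⁻¹)).prod := by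
  have h0' : NZ (l ++ y ++ [u⁻¹]) := by
    intro z hz
    simp only [List.mem_append, List.mem_singleton] at hz
    rcases hz with hz | rfl
    · exact h0 z (List.mem_append_left _ (List.mem_append.2 hz))
    · exact inv_ne_zero (h0 u (by simp))
  rw [NS_KX hΦ l y u h0, NS_KX hΦ l y u⁻¹ h0', KX_even hΦ l y u h0, X'_qinv', X'_qinv]
  ring

theorem NS_fusey (hq : q ^ 2 + q + 1 = 0) (ha : a ^ 2 = - q ^ 2) (hΦ : Sol q a Φ)
    (x l : List ℂ) (u : ℂ) (h0 : NZ (x ++ l ++ [u])) :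
    NS Φ x (u :: l) (q⁻¹ * u) * ((x ++ l).map fun v => X' v - X' (q⁻¹ * u)).prod =
      NS Φ x (u⁻¹ :: l) (q⁻¹ * u⁻¹) * ((x ++ l).map fun v => X' v - X' (q⁻¹ * u⁻¹)).prod := by
  have h0' : NZ (x ++ l ++ [u⁻¹]) := by
    intro z hz
    simp only [List.mem_append, List.mem_singleton] at hz
    rcases hz with hz | rfl
    · exact h0 z (List.mem_append_left _ (List.mem_append.2 hz))
    · exact inv_ne_zero (h0 u (by simp))
  rw [NS_KY hq hΦ x l u h0, NS_KY hq hΦ x l u⁻¹ h0', KY_even hΦ x l u h0, X'_qinv, X'_qinv']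
  ring

namespace NAux

theorem NS_movex (hq : q ^ 2 + q + 1 = 0) (ha : a ^ 2 = - q ^ 2) (hΦ : Sol q a Φ)
    (l₁ : List ℂ) (u : ℂ) (l₂ y : List ℂ) (η : ℂ) (h0 : NZ (l₁ ++ u :: l₂ ++ y ++ [η]))
    (hg : ∀ v ∈ l₂, u ^ 3 ≠ v ^ 3) :
    NS Φ (l₁ ++ u :: l₂) y η = NS Φ (l₁ ++ l₂ ++ [u]) y η := by
  induction l₂ generalizing l₁ with
  | nil => simp
  | cons v l₂ ih =>
    have h1 := NS_swapx hq ha hΦ l₁ u v l₂ y η h0 (hg v (by simp))
    rw [← h1]
    have h2 := ih (l₁ ++ [v]) (by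
      intro z hz
      apply h0 z
      simp only [List.mem_append, List.mem_cons, List.not_mem_nil, or_false] at hz ⊢
      tauto) (fun w hw => hg w (List.mem_cons_of_mem _ hw))
    simpa [List.append_assoc] using h2

theorem NS_movey (hq : q ^ 2 + q + 1 = 0) (ha : a ^ 2 = - q ^ 2) (hΦ : Sol q a Φ)
    (x l₁ : List ℂ) (u : ℂ) (l₂ : List ℂ) (η : ℂ) (h0 : NZ (x ++ l₁ ++ u :: l₂ ++ [η]))
    (hg : ∀ v ∈ l₂, u ^ 3 ≠ v ^ 3) :
    NS Φ x (l₁ ++ u :: l₂) η = NS Φ x (l₁ ++ l₂ ++ [u]) η := by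
  induction l₂ generalizing l₁ with
  | nil => simp
  | cons v l₂ ih =>
    have h1 := NS_swapy hq ha hΦ x l₁ u v l₂ η h0 (hg v (by simp))
    rw [← h1]
    have h2 := ih (l₁ ++ [v]) (by
      intro z hz
      apply h0 z
      simp only [List.mem_append, List.mem_cons, List.not_mem_nil, or_false] at hz ⊢
      tauto) (fun w hw => hg w (List.mem_cons_of_mem _ hw))
    simpa [List.append_assoc] using h2

/-- a factor of the product can be taken out -/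
theorem prod_mid (f : ℂ → ℂ) (l₁ : List ℂ) (u : ℂ) (l₂ : List ℂ) :
    ((l₁ ++ u :: l₂).map f).prod = f u * ((l₁ ++ l₂).map f).prod := by
  simp only [List.map_append, List.map_cons, List.prod_append, List.prod_cons]
  ring

theorem prod_neg (l : List ℂ) (x : ℂ) :
    (l.map fun v => x - X' v).prod = (-1) ^ l.length * (l.map fun v => X' v - x).prod := by
  induction l with
  | nil => simp
  | cons v l ih =>
    simp only [List.map_cons, List.prod_cons, List.length_cons, ih]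
    ring

theorem tip_id (hq : q ^ 2 + q + 1 = 0) {u : ℂ} (hu : u ≠ 0) :
    (q * u - (q * u)⁻¹) * (X' (q * u) - X' u) =
      (q * u⁻¹ - (q * u⁻¹)⁻¹) * (X' (q * u⁻¹) - X' u) := by
  have hqi := q_inv hq
  have huU : u * u⁻¹ = 1 := mul_inv_cancel₀ hu
  simp only [X', mul_inv, inv_inv, hqi]
  generalize u⁻¹ = U at *
  grind

theorem tip_id' (hq : q ^ 2 + q + 1 = 0) {u : ℂ} (hu : u ≠ 0) :
    (q⁻¹ * u - (q⁻¹ * u)⁻¹) * (X' (q⁻¹ * u) - X' u) =
      (q⁻¹ * u⁻¹ - (q⁻¹ * u⁻¹)⁻¹) * (X' (q⁻¹ * u⁻¹) - X' u) := by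
  have hqi := q_inv hq
  have huU : u * u⁻¹ = 1 := mul_inv_cancel₀ hu
  simp only [X', mul_inv, inv_inv, hqi]
  generalize u⁻¹ = U at *
  grind

end NAux

/-- from the previous statements: move `u` next to the tip by `NS_swapx`, use `NS_fusex`, then move
`u⁻¹` to the first place, use `NS_evenx`, and move it back -/
theorem MM_x (hq : q ^ 2 + q + 1 = 0) (ha : a ^ 2 = - q ^ 2) (hΦ : Sol q a Φ)
    (l₁ l₂ y : List ℂ) (u : ℂ) (h0 : NZ (l₁ ++ u :: l₂ ++ y))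
    (hg : ∀ v ∈ l₁ ++ l₂, v ^ 3 ≠ u ^ 3 ∧ v ^ 3 * u ^ 3 ≠ 1) :
    MM Φ (l₁ ++ u :: l₂) y (q * u) = MM Φ (l₁ ++ u :: l₂) y (q * u⁻¹) := by
  have hu : u ≠ 0 := h0 u (by simp)
  have hq0 := q_ne_zero hq
  have hU : u⁻¹ ≠ 0 := inv_ne_zero hu
  have hnz : ∀ η : ℂ, η ≠ 0 → ∀ z, z = η ∨ z = u ∨ z = u⁻¹ ∨ z ∈ l₁ ∨ z ∈ l₂ ∨ z ∈ y → z ≠ 0 := by
    rintro η hη z (rfl | rfl | rfl | hz | hz | hz)
    · exact hη
    · exact hu
    · exact hU
    · exact h0 z (by simp [hz])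
    · exact h0 z (by simp [hz])
    · exact h0 z (by simp [hz])
  have hη1 : q * u ≠ 0 := mul_ne_zero hq0 hu
  have hη2 : q * u⁻¹ ≠ 0 := mul_ne_zero hq0 hU
  -- left-hand side
  have m1 : NS Φ (l₁ ++ u :: l₂) y (q * u) = NS Φ (l₁ ++ l₂ ++ [u]) y (q * u) :=
    NS_movex hq ha hΦ l₁ u l₂ y _ (fun z hz => hnz _ hη1 z (by
      simp only [List.mem_append, List.mem_cons, List.not_mem_nil, or_false] at hz
      tauto)) (fun v hv h => (hg v (by simp [hv])).1 h.symm)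
  -- right-hand side
  have m2 : NS Φ (l₁ ++ u :: l₂) y (q * u⁻¹) = NS Φ (l₁ ++ l₂ ++ [u]) y (q * u⁻¹) :=
    NS_movex hq ha hΦ l₁ u l₂ y _ (fun z hz => hnz _ hη2 z (by
      simp only [List.mem_append, List.mem_cons, List.not_mem_nil, or_false] at hz
      tauto)) (fun v hv h => (hg v (by simp [hv])).1 h.symm)
  have m3 : NS Φ (u :: (l₁ ++ l₂)) y (q * u⁻¹) = NS Φ (l₁ ++ l₂ ++ [u]) y (q * u⁻¹) := by
    have := NS_movex hq ha hΦ [] u (l₁ ++ l₂) y (q * u⁻¹) (fun z hz => hnz _ hη2 z (by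
      simp only [List.mem_append, List.mem_cons, List.not_mem_nil, or_false, false_or] at hz
      tauto)) (fun v hv h => (hg v hv).1 h.symm)
    simpa using this
  have m4 : NS Φ (u⁻¹ :: (l₁ ++ l₂)) y (q * u⁻¹) = NS Φ (l₁ ++ l₂ ++ [u⁻¹]) y (q * u⁻¹) := by
    have := NS_movex hq ha hΦ [] u⁻¹ (l₁ ++ l₂) y (q * u⁻¹) (fun z hz => hnz _ hη2 z (by
      simp only [List.mem_append, List.mem_cons, List.not_mem_nil, or_false, false_or] at hz
      tauto)) (fun v hv h => (hg v hv).2 (by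
        rw [← h, inv_pow]
        exact inv_mul_cancel₀ (pow_ne_zero 3 hu)))
    simpa using this
  have m5 : NS Φ (u⁻¹ :: (l₁ ++ l₂)) y (q * u⁻¹) = NS Φ (u :: (l₁ ++ l₂)) y (q * u⁻¹) :=
    NS_evenx hΦ u (l₁ ++ l₂) y _ (fun z hz => hnz _ hη2 z (by
      simp only [List.mem_append, List.mem_cons, List.not_mem_nil, or_false] at hz
      tauto))
  have m6 := NS_fusex hq ha hΦ (l₁ ++ l₂) y u (fun z hz => hnz _ hη2 z (by
      simp only [List.mem_append, List.mem_cons, List.not_mem_nil, or_false] at hz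
      tauto))
  have t := tip_id hq hu
  have e : l₁ ++ u :: l₂ ++ y = l₁ ++ u :: (l₂ ++ y) := by simp
  unfold MM
  rw [e, prod_mid, prod_mid, prod_neg, prod_neg, ← List.append_assoc, m1, m2, ← m3, ← m5, m4]
  linear_combination (-1) ^ (l₁ ++ l₂ ++ y).length * (q * u - (q * u)⁻¹) *
      (X' (q * u) - X' u) * m6 + (-1) ^ (l₁ ++ l₂ ++ y).length *
      (NS Φ (l₁ ++ l₂ ++ [u⁻¹]) y (q * u⁻¹) *
        ((l₁ ++ l₂ ++ y).map fun v => X' v - X' (q * u⁻¹)).prod) * t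

theorem MM_y (hq : q ^ 2 + q + 1 = 0) (ha : a ^ 2 = - q ^ 2) (hΦ : Sol q a Φ)
    (x l₁ l₂ : List ℂ) (u : ℂ) (h0 : NZ (x ++ (l₁ ++ u :: l₂)))
    (hg : ∀ v ∈ l₁ ++ l₂, v ^ 3 ≠ u ^ 3 ∧ v ^ 3 * u ^ 3 ≠ 1) :
    MM Φ x (l₁ ++ u :: l₂) (q⁻¹ * u) = MM Φ x (l₁ ++ u :: l₂) (q⁻¹ * u⁻¹) := by
  have hu : u ≠ 0 := h0 u (by simp)
  have hq0 := inv_ne_zero (q_ne_zero hq)
  have hU : u⁻¹ ≠ 0 := inv_ne_zero hu
  have hnz : ∀ η : ℂ, η ≠ 0 → ∀ z, z = η ∨ z = u ∨ z = u⁻¹ ∨ z ∈ l₁ ∨ z ∈ l₂ ∨ z ∈ x → z ≠ 0 := by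
    rintro η hη z (rfl | rfl | rfl | hz | hz | hz)
    · exact hη
    · exact hu
    · exact hU
    · exact h0 z (by simp [hz])
    · exact h0 z (by simp [hz])
    · exact h0 z (by simp [hz])
  have hη1 : q⁻¹ * u ≠ 0 := mul_ne_zero hq0 hu
  have hη2 : q⁻¹ * u⁻¹ ≠ 0 := mul_ne_zero hq0 hU
  have mv : ∀ η : ℂ, η ≠ 0 → NS Φ x (l₁ ++ u :: l₂) η = NS Φ x (u :: (l₁ ++ l₂)) η := by
    intro η hη
    have h1 := NS_movey hq ha hΦ x l₁ u l₂ η (fun z hz => hnz _ hη z (by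
      simp only [List.mem_append, List.mem_cons, List.not_mem_nil, or_false] at hz
      tauto)) (fun v hv h => (hg v (by simp [hv])).1 h.symm)
    have h2 := NS_movey hq ha hΦ x [] u (l₁ ++ l₂) η (fun z hz => hnz _ hη z (by
      simp only [List.mem_append, List.mem_cons, List.not_mem_nil, or_false] at hz
      tauto)) (fun v hv h => (hg v hv).1 h.symm)
    rw [h1]
    simpa using h2.symm
  have m1 := mv _ hη1
  have m2 := mv _ hη2
  have m3 : NS Φ x (u :: (l₁ ++ l₂)) (q⁻¹ * u⁻¹) = NS Φ x (l₁ ++ l₂ ++ [u]) (q⁻¹ * u⁻¹) := by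
    have h2 := NS_movey hq ha hΦ x [] u (l₁ ++ l₂) (q⁻¹ * u⁻¹) (fun z hz => hnz _ hη2 z (by
      simp only [List.mem_append, List.mem_cons, List.not_mem_nil, or_false] at hz
      tauto)) (fun v hv h => (hg v hv).1 h.symm)
    simpa using h2
  have m4 : NS Φ x (u⁻¹ :: (l₁ ++ l₂)) (q⁻¹ * u⁻¹) =
      NS Φ x (l₁ ++ l₂ ++ [u⁻¹]) (q⁻¹ * u⁻¹) := by
    have h2 := NS_movey hq ha hΦ x [] u⁻¹ (l₁ ++ l₂) (q⁻¹ * u⁻¹) (fun z hz => hnz _ hη2 z (by
      simp only [List.mem_append, List.mem_cons, List.not_mem_nil, or_false] at hz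
      tauto)) (fun v hv h => (hg v hv).2 (by
        rw [← h, inv_pow]
        exact inv_mul_cancel₀ (pow_ne_zero 3 hu)))
    simpa using h2
  have m5 : NS Φ x (l₁ ++ l₂ ++ [u⁻¹]) (q⁻¹ * u⁻¹) = NS Φ x (l₁ ++ l₂ ++ [u]) (q⁻¹ * u⁻¹) :=
    NS_eveny hΦ x (l₁ ++ l₂) u _ (fun z hz => hnz _ hη2 z (by
      simp only [List.mem_append, List.mem_cons, List.not_mem_nil, or_false] at hz
      tauto))
  have m6 := NS_fusey hq ha hΦ x (l₁ ++ l₂) u (fun z hz => hnz _ hη2 z (by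
      simp only [List.mem_append, List.mem_cons, List.not_mem_nil, or_false] at hz
      tauto))
  have t := tip_id' hq hu
  have e : x ++ (l₁ ++ u :: l₂) = (x ++ l₁) ++ u :: l₂ := by simp
  unfold MM
  rw [e, prod_mid, prod_mid, prod_neg, prod_neg, List.append_assoc, m1, m2, m3, ← m5, ← m4]
  linear_combination (-1) ^ (x ++ (l₁ ++ l₂)).length * (q⁻¹ * u - (q⁻¹ * u)⁻¹) *
      (X' (q⁻¹ * u) - X' u) * m6 + (-1) ^ (x ++ (l₁ ++ l₂)).length *
      (NS Φ x (u⁻¹ :: (l₁ ++ l₂)) (q⁻¹ * u⁻¹) *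
        ((x ++ (l₁ ++ l₂)).map fun v => X' v - X' (q⁻¹ * u⁻¹)).prod) * t

end Pool.Agent.H59.Slit
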