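import Pool.Agent.H59.Slit.Defs

set_option autoImplicit false
open Polynomial

/-! Job SL-P1 (helper19): the lacunary lemmas `lac1`, `lac2`. -/

namespace Pool.Agent.H59.Slit
open Pool.Agent.H72.Cardy

namespace P1

/-- a nonzero polynomial vanishes at `1` to an order smaller than its number of terms -/
theorem mult_lt : ∀ (n : ℕ) (P : ℂ[X]), P.natDegree ≤ n → P ≠ 0 →
    P.rootMultiplicity 1 < P.support.card := by
  intro n
  induction n with
  | zero =>
    intro P hn hP
    have h : P = C (P.coeff 0) := eq_C_of_natDegree_le_zero hn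
    have h1 : P.rootMultiplicity 1 = 0 := by rw [h]; exact rootMultiplicity_C _ _
    rw [h1]
    exact Finset.card_pos.mpr (nonempty_support_iff.mpr hP)
  | succ n ih =>
    intro P hn hP
    by_cases h0 : P.coeff 0 = 0
    · obtain ⟨Q, rfl⟩ := X_dvd_iff.mpr h0
      have hQ : Q ≠ 0 := by rintro rfl; simp at hP
      have hdeg : Q.natDegree ≤ n := by
        rw [natDegree_X_mul hQ] at hn; omega
      have h1 := ih Q hdeg hQ
      have h2 : (X * Q : ℂ[X]).rootMultiplicity 1 = Q.rootMultiplicity 1 := by
        rw [rootMultiplicity_mul hP]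
        have : (X : ℂ[X]).rootMultiplicity 1 = 0 := by
          apply rootMultiplicity_eq_zero
          simp [IsRoot]
        rw [this, zero_add]
      have h3 : Q.support.card ≤ (X * Q : ℂ[X]).support.card := by
        apply Finset.card_le_card_of_injOn (fun k => k + 1)
        · intro k hk
          simp only [Finset.mem_coe, mem_support_iff] at hk ⊢
          rwa [coeff_X_mul]
        · intro a _ b _ hab
          simpa using hab
      omega
    · have hcard : P.support.card ≠ 0 := by
        intro h
        exact hP (by simpa using h)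
      by_cases hr : P.IsRoot 1
      · have hd : P.natDegree ≠ 0 := by
          intro hd
          have h : P = C (P.coeff 0) := eq_C_of_natDegree_eq_zero hd
          rw [h] at hr
          simp [IsRoot] at hr
          exact h0 hr
        have hD : derivative P ≠ 0 := by
          intro hD
          exact hd (derivative_eq_zero.mp hD)
        have hDn : (derivative P).natDegree ≤ n := by
          have := natDegree_derivative_le P
          omega
        have h1 := ih _ hDn hD
        rw [derivative_rootMultiplicity_of_root hr] at h1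
        have h2 : (derivative P).support.card ≤ (P.support.erase 0).card := by
          apply Finset.card_le_card_of_injOn (fun k => k + 1)
          · intro k hk
            simp only [Finset.mem_coe, mem_support_iff, coeff_derivative] at hk
            simp only [Finset.coe_erase, Set.mem_sdiff, Finset.mem_coe, mem_support_iff,
              Set.mem_singleton_iff, Nat.add_eq_zero_iff, one_ne_zero, and_false,
              not_false_eq_true, and_true]
            intro h
            apply hk
            rw [h, zero_mul]
          · intro a _ b _ hab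
            simpa using hab
        have h3 : (P.support.erase 0).card = P.support.card - 1 :=
          Finset.card_erase_of_mem (mem_support_iff.mpr h0)
        omega
      · rw [rootMultiplicity_eq_zero hr]
        omega

theorem nat_le (n : ℕ) (p : ℂ[X]) (h : p.degree < (n : WithBot ℕ) + 1) : p.natDegree ≤ n := by
  by_cases hp : p = 0
  · subst hp; simp
  · rw [degree_eq_natDegree hp] at h
    have : p.natDegree < n + 1 := by exact_mod_cast h
    omega

/-- homogenisation `η^n p(η + 1/η)` -/
noncomputable def hom (n : ℕ) (p : ℂ[X]) : ℂ[X] :=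
  ∑ j ∈ Finset.range (n + 1), C (p.coeff j) * (X ^ 2 + 1) ^ j * X ^ (n - j)

theorem hom_eval (n : ℕ) (p : ℂ[X]) (hp : p.natDegree ≤ n) (η : ℂ) (hη : η ≠ 0) :
    (hom n p).eval η = η ^ n * p.eval (η + η⁻¹) := by
  rw [hom, eval_finsetSum, eval_eq_sum_range' (Nat.lt_succ_of_le hp), Finset.mul_sum]
  apply Finset.sum_congr rfl
  intro j hj
  have hj' : j ≤ n := Nat.lt_succ_iff.mp (Finset.mem_range.mp hj)
  simp only [eval_mul, eval_C, eval_pow, eval_add, eval_X, eval_one]
  have h1 : (η ^ 2 + 1) = (η + η⁻¹) * η := by
    field_simp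
  have h2 : η ^ n = η ^ j * η ^ (n - j) := by
    rw [← pow_add]; congr 1; omega
  rw [h1, mul_pow, h2]
  ring

theorem hom_natDegree (n : ℕ) (p : ℂ[X]) : (hom n p).natDegree ≤ 2 * n := by
  rw [hom]
  apply natDegree_sum_le_of_forall_le
  intro j hj
  have hj' : j ≤ n := Nat.lt_succ_iff.mp (Finset.mem_range.mp hj)
  have h1 : (X ^ 2 + 1 : ℂ[X]).natDegree ≤ 2 := by
    compute_degree
  have h2 : ((X ^ 2 + 1 : ℂ[X]) ^ j).natDegree ≤ j * 2 := natDegree_pow_le_of_le j h1
  have h3 : (C (p.coeff j) * (X ^ 2 + 1) ^ j * X ^ (n - j) : ℂ[X]).natDegree ≤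
      (0 + j * 2) + (n - j) := by
    apply natDegree_mul_le_of_le
    · apply natDegree_mul_le_of_le
      · simp
      · exact h2
    · simp
  omega

theorem exists_eta (z : ℂ) : ∃ η : ℂ, η ≠ 0 ∧ η + η⁻¹ = z := by
  have hdeg : (X ^ 2 - C z * X + 1 : ℂ[X]).degree ≠ 0 := by
    have : (X ^ 2 - C z * X + 1 : ℂ[X]).degree = 2 := by
      compute_degree!
    rw [this]; decide
  obtain ⟨η, h⟩ := IsAlgClosed.exists_root _ hdeg
  simp only [IsRoot, eval_add, eval_sub, eval_pow, eval_X, eval_mul, eval_C, eval_one] at h
  have h0 : η ≠ 0 := by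
    rintro rfl
    simp at h
  refine ⟨η, h0, ?_⟩
  field_simp
  linear_combination h

theorem hom_eq_zero (n : ℕ) (p : ℂ[X]) (hp : p.natDegree ≤ n) (h : hom n p = 0) : p = 0 := by
  apply Polynomial.funext
  intro z
  obtain ⟨η, h0, rfl⟩ := exists_eta z
  have h1 := hom_eval n p hp η h0
  rw [h, eval_zero] at h1
  rw [eval_zero]
  rcases mul_eq_zero.mp h1.symm with h2 | h2
  · exact absurd h2 (pow_ne_zero _ h0)
  · exact h2

theorem support_card (R₀ R₁ : ℂ[X]) :
    (expand ℂ 3 R₀ + X * expand ℂ 3 R₁).support.card ≤ R₀.support.card + R₁.support.card := by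
  classical
  have hsub : (expand ℂ 3 R₀ + X * expand ℂ 3 R₁).support ⊆
      R₀.support.image (fun k => 3 * k) ∪ R₁.support.image (fun k => 3 * k + 1) := by
    intro k hk
    rw [mem_support_iff, coeff_add, coeff_expand (by norm_num)] at hk
    simp only [Finset.mem_union, Finset.mem_image, mem_support_iff]
    by_cases h3 : 3 ∣ k
    · obtain ⟨j, rfl⟩ := h3
      left
      refine ⟨j, ?_, rfl⟩
      rw [if_pos (Dvd.intro j rfl), Nat.mul_div_cancel_left j (by norm_num)] at hk
      have : (X * expand ℂ 3 R₁).coeff (3 * j) = 0 := by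
        rcases j with _ | j
        · simp
        · rw [show 3 * (j + 1) = (3 * j + 2) + 1 by ring, coeff_X_mul, coeff_expand (by norm_num),
            if_neg (by omega)]
      rw [this, add_zero] at hk
      exact hk
    · rw [if_neg h3, zero_add] at hk
      right
      rcases k with _ | k
      · simp at h3
      · rw [coeff_X_mul, coeff_expand (by norm_num)] at hk
        by_cases h4 : 3 ∣ k
        · obtain ⟨j, rfl⟩ := h4
          rw [if_pos (Dvd.intro j rfl), Nat.mul_div_cancel_left j (by norm_num)] at hk
          exact ⟨j, hk, rfl⟩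
        · rw [if_neg h4] at hk
          exact absurd rfl hk
  calc _ ≤ _ := Finset.card_le_card hsub
    _ ≤ _ := Finset.card_union_le _ _
    _ ≤ _ := add_le_add Finset.card_image_le Finset.card_image_le

theorem expand_zero_sep (R₀ R₁ : ℂ[X]) (h : expand ℂ 3 R₀ + X * expand ℂ 3 R₁ = 0) :
    R₀ = 0 ∧ R₁ = 0 := by
  constructor
  · ext j
    have h1 := congrArg (fun p => coeff p (3 * j)) h
    simp only [coeff_add, coeff_zero] at h1
    rw [coeff_expand (by norm_num), if_pos (Dvd.intro j rfl),
      Nat.mul_div_cancel_left j (by norm_num)] at h1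
    have : (X * expand ℂ 3 R₁).coeff (3 * j) = 0 := by
      rcases j with _ | j
      · simp
      · rw [show 3 * (j + 1) = (3 * j + 2) + 1 by ring, coeff_X_mul, coeff_expand (by norm_num),
          if_neg (by omega)]
    rw [this, add_zero] at h1
    simpa using h1
  · ext j
    have h1 := congrArg (fun p => coeff p (3 * j + 1)) h
    simp only [coeff_add, coeff_zero] at h1
    rw [coeff_expand (by norm_num), if_neg (by omega), zero_add, coeff_X_mul,
      coeff_expand (by norm_num), if_pos (Dvd.intro j rfl),
      Nat.mul_div_cancel_left j (by norm_num)] at h1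
    simpa using h1

theorem main (n m : ℕ) (α β : ℂ[X]) (hα : α.natDegree ≤ n) (hβ : β.natDegree ≤ n)
    (h : (X - C 2) ^ m ∣ α.comp T + X * β.comp T)
    (hcard : (X * hom n α - hom n β).support.card + (X * hom n β - hom n α).support.card ≤ 2 * m) :
    α = 0 ∧ β = 0 := by
  set A₀ := hom n α with hA₀
  set B₀ := hom n β with hB₀
  set P : ℂ[X] := expand ℂ 3 (X * A₀ - B₀) + X * expand ℂ 3 (X * B₀ - A₀) with hP
  have hPeval : ∀ η : ℂ, η ≠ 0 → P.eval η =
      η ^ (3 * n + 1) * (η ^ 2 - 1) * (α.comp T + X * β.comp T).eval (η + η⁻¹) := by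
    intro η hη
    have hη3 : η ^ 3 ≠ 0 := pow_ne_zero _ hη
    have e1 := hom_eval n α hα (η ^ 3) hη3
    have e2 := hom_eval n β hβ (η ^ 3) hη3
    have hT : T.eval (η + η⁻¹) = η ^ 3 + (η ^ 3)⁻¹ := by
      simp only [T, eval_sub, eval_pow, eval_X, eval_mul, eval_ofNat]
      field_simp
      ring
    simp only [hP, eval_add, eval_mul, eval_X, expand_eval, eval_sub, eval_comp, hT]
    rw [← hA₀] at e1
    rw [← hB₀] at e2
    rw [e1, e2]
    have h3 : η ^ (3 * n + 1) = (η ^ 3) ^ n * η := by
      rw [pow_succ, pow_mul]
    rw [h3]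
    field_simp
    ring
  have hP0 : P = 0 := by
    by_contra hne
    obtain ⟨H, hH⟩ := h
    set N := H.natDegree with hN
    have key : P * X ^ (m + N + 1) =
        (X - C 1) ^ (2 * m) * (X ^ (3 * n + 2) * (X ^ 2 - 1) * hom N H) := by
      apply Polynomial.funext
      intro η
      by_cases hη : η = 0
      · subst hη
        simp
      · have e1 := hPeval η hη
        have e3 := hom_eval N H le_rfl η hη
        simp only [eval_mul, eval_pow, eval_X, eval_sub, eval_one, eval_C, e1, e3, hH]
        have h4 : η + η⁻¹ - 2 = (η - 1) ^ 2 * η⁻¹ := by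
          field_simp
          ring
        rw [h4, mul_pow, ← pow_mul, pow_succ, pow_add, inv_pow]
        have h5 : η ^ m ≠ 0 := pow_ne_zero _ hη
        field_simp
        ring
    have hcop : IsCoprime ((X - C 1 : ℂ[X]) ^ (2 * m)) (X ^ (m + N + 1)) := by
      apply IsCoprime.pow
      refine ⟨-1, 1, ?_⟩
      simp
    have hdvd : (X - C 1 : ℂ[X]) ^ (2 * m) ∣ P :=
      hcop.dvd_of_dvd_mul_right (Dvd.intro _ key.symm)
    have h1 : 2 * m ≤ P.rootMultiplicity 1 := (le_rootMultiplicity_iff hne).mpr hdvd
    have h2 := mult_lt _ P le_rfl hne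
    have h3 := support_card (X * A₀ - B₀) (X * B₀ - A₀)
    rw [← hP] at h3
    omega
  obtain ⟨h1, h2⟩ := expand_zero_sep _ _ hP0
  have hB : B₀ = X * A₀ := (sub_eq_zero.mp h1).symm
  have hA : A₀ * (X ^ 2 - 1) = 0 := by
    rw [hB] at h2
    linear_combination h2
  have hA0 : A₀ = 0 := by
    rcases mul_eq_zero.mp hA with h3 | h3
    · exact h3
    · exfalso
      have := congrArg (fun p => eval 0 p) h3
      simp at this
  have hB0 : B₀ = 0 := by rw [hB, hA0, mul_zero]
  exact ⟨hom_eq_zero n α hα hA0, hom_eq_zero n β hβ hB0⟩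

end P1

open P1

/-- lacunary lemma -/
theorem lac1 (d : ℕ) (α β : ℂ[X]) (hα : α.degree < d) (hβ : β.degree < d)
    (h : (X - C 2) ^ (2 * d) ∣ α.comp T + X * β.comp T) : α = 0 ∧ β = 0 := by
  rcases d with _ | n
  · simp only [Nat.cast_zero] at hα hβ
    have h0 : ∀ p : ℂ[X], p.degree < 0 → p = 0 := by
      intro p hp
      by_contra hne
      rw [degree_eq_natDegree hne] at hp
      exact absurd hp (by simp)
    exact ⟨h0 _ hα, h0 _ hβ⟩
  · have hα' : α.natDegree ≤ n := nat_le n α (by simpa using hα)
    have hβ' : β.natDegree ≤ n := nat_le n β (by simpa using hβ)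
    refine main n _ α β hα' hβ' h ?_
    have hA := hom_natDegree n α
    have hB := hom_natDegree n β
    have c1 : (X * hom n α - hom n β).support.card ≤ 2 * n + 1 + 1 := by
      refine le_trans (card_supp_le_succ_natDegree _) (Nat.succ_le_succ ?_)
      refine le_trans (natDegree_sub_le _ _) (max_le ?_ (by omega))
      refine le_trans natDegree_mul_le ?_
      rw [natDegree_X]; omega
    have c2 : (X * hom n β - hom n α).support.card ≤ 2 * n + 1 + 1 := by
      refine le_trans (card_supp_le_succ_natDegree _) (Nat.succ_le_succ ?_)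
      refine le_trans (natDegree_sub_le _ _) (max_le ?_ (by omega))
      refine le_trans natDegree_mul_le ?_
      rw [natDegree_X]; omega
    omega

/-- the same with `4d+2` exponents and order of vanishing `4d+3` -/
theorem lac2 (d : ℕ) (α β : ℂ[X]) (hα : α.degree < d + 1) (hβ : β.degree < d)
    (h : (X - C 2) ^ (2 * d + 1) ∣ α.comp T + X * β.comp T) : α = 0 ∧ β = 0 := by
  have hα' : α.natDegree ≤ d := nat_le d α hα
  rcases d with _ | n
  · have hβ0 : β = 0 := by
      by_contra hne
      rw [degree_eq_natDegree hne] at hβ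
      exact absurd hβ (by simp)
    subst hβ0
    refine ⟨?_, rfl⟩
    have hC : α = C (α.coeff 0) := eq_C_of_natDegree_le_zero hα'
    obtain ⟨H, hH⟩ := h
    have := congrArg (fun p => eval 2 p) hH
    rw [hC] at this
    simp at this
    rw [hC, this, C_0]
  · have hβ' : β.natDegree ≤ n := nat_le n β (by simpa using hβ)
    refine main (n + 1) _ α β hα' (by omega) h ?_
    have hA := hom_natDegree (n + 1) α
    have hB := hom_natDegree n β
    have hfac : hom (n + 1) β = X * hom n β := by
      unfold hom
      rw [Finset.sum_range_succ, coeff_eq_zero_of_natDegree_lt (by omega : β.natDegree < n + 1)]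
      simp only [C_0, zero_mul, add_zero]
      rw [Finset.mul_sum]
      apply Finset.sum_congr rfl
      intro j hj
      have hj' : j ≤ n := Nat.lt_succ_iff.mp (Finset.mem_range.mp hj)
      rw [show n + 1 - j = (n - j) + 1 by omega, pow_succ]
      ring
    rw [hfac]
    have c1 : (X * hom (n + 1) α - X * hom n β).support.card ≤ 2 * (n + 1) + 1 := by
      rw [← mul_sub]
      have h1 : (X * (hom (n + 1) α - hom n β)).support.card ≤
          (hom (n + 1) α - hom n β).support.card := by
        apply Finset.card_le_card_of_injOn (fun k => k - 1)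
        · intro k hk
          simp only [Finset.mem_coe, mem_support_iff] at hk ⊢
          rcases k with _ | k
          · simp at hk
          · rwa [coeff_X_mul] at hk
        · intro a ha b hb hab
          simp only [Finset.mem_coe, mem_support_iff] at ha hb
          rcases a with _ | a
          · simp at ha
          · rcases b with _ | b
            · simp at hb
            · simpa using hab
      refine le_trans h1 (le_trans (card_supp_le_succ_natDegree _) (Nat.succ_le_succ ?_))
      exact le_trans (natDegree_sub_le _ _) (max_le (by omega) (by omega))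
    have c2 : (X * (X * hom n β) - hom (n + 1) α).support.card ≤ 2 * (n + 1) + 1 := by
      refine le_trans (card_supp_le_succ_natDegree _) (Nat.succ_le_succ ?_)
      refine le_trans (natDegree_sub_le _ _) (max_le ?_ (by omega))
      refine le_trans natDegree_mul_le ?_
      rw [natDegree_X]
      have : (X * hom n β).natDegree ≤ 1 + (hom n β).natDegree := by
        refine le_trans natDegree_mul_le ?_
        rw [natDegree_X]
      omega
    omega

end Pool.Agent.H59.Slit
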