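import Pool.Agent.H59.Slit.P2a

set_option autoImplicit false
open Polynomial

/-! Job SL-P2, second part: the explicit Pade form. -/

namespace Pool.Agent.H59.Slit
open Pool.Agent.H72.Cardy

namespace P2

/-- decomposition of a polynomial -/
theorem decomp : ∀ (d : ℕ) (p : ℂ[X]), p.natDegree ≤ 2 * d + 1 →
    ∃ α β : ℂ[X], α.natDegree ≤ d ∧ β.natDegree ≤ d ∧ β.coeff d = -p.coeff 0 ∧
      ∀ ζ : ℂ, ζ ≠ 0 → ζ ^ (d + 1) * α.eval (ζ + ζ⁻¹) - ζ ^ d * β.eval (ζ + ζ⁻¹) = p.eval ζ := by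
  intro d
  induction d with
  | zero =>
    intro p hp
    refine ⟨C (p.coeff 1), C (-p.coeff 0), by simp, by simp, by simp, ?_⟩
    intro ζ _
    rw [eval_C, eval_C, eval_eq_sum_range' (n := 2) (by omega), Finset.sum_range_succ,
      Finset.sum_range_one]
    ring
  | succ d ih =>
    intro p hp
    set u := p.coeff (2 * d + 3) with hu
    set v := p.coeff 0 with hv
    set r : ℂ[X] := p - C u * (X * (X ^ 2 + 1) ^ (d + 1)) - C v * (X ^ 2 + 1) ^ (d + 1) with hr
    have hA : ((X ^ 2 + 1 : ℂ[X]) ^ (d + 1)).natDegree = 2 * d + 2 := by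
      rw [natDegree_pow]
      have : (X ^ 2 + 1 : ℂ[X]).natDegree = 2 := by compute_degree!
      rw [this]; ring
    have hAm : ((X ^ 2 + 1 : ℂ[X]) ^ (d + 1)).Monic := by
      apply Monic.pow
      have : (X ^ 2 + 1 : ℂ[X]) = X ^ 2 + C 1 := by simp
      rw [this]
      exact monic_X_pow_add_C 1 (by norm_num)
    have hAt : ((X ^ 2 + 1 : ℂ[X]) ^ (d + 1)).coeff (2 * d + 2) = 1 := by
      have := hAm.coeff_natDegree
      rwa [hA] at this
    have hA3 : ((X ^ 2 + 1 : ℂ[X]) ^ (d + 1)).coeff (2 * d + 3) = 0 :=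
      coeff_eq_zero_of_natDegree_lt (by rw [hA]; omega)
    have hA0 : ((X ^ 2 + 1 : ℂ[X]) ^ (d + 1)).coeff 0 = 1 := by
      rw [coeff_zero_eq_eval_zero]; simp
    have hr0 : r.coeff 0 = 0 := by
      rw [hr, coeff_sub, coeff_sub, coeff_C_mul, coeff_C_mul, hA0, coeff_X_mul_zero]
      ring
    have hr3 : r.coeff (2 * d + 3) = 0 := by
      rw [hr, coeff_sub, coeff_sub, coeff_C_mul, coeff_C_mul, hA3,
        show 2 * d + 3 = (2 * d + 2) + 1 by ring, coeff_X_mul, hAt]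
      rw [show 2 * d + 2 + 1 = 2 * d + 3 by ring, ← hu]
      ring
    have hrd : r.natDegree ≤ 2 * d + 3 := by
      rw [hr]
      refine (natDegree_sub_le _ _).trans (max_le ((natDegree_sub_le _ _).trans (max_le ?_ ?_)) ?_)
      · omega
      · refine (natDegree_C_mul_le _ _).trans (natDegree_mul_le.trans ?_)
        rw [hA, natDegree_X]; omega
      · refine (natDegree_C_mul_le _ _).trans ?_
        rw [hA]; omega
    obtain ⟨r', hr'⟩ := X_dvd_iff.2 hr0
    have hr'd : r'.natDegree ≤ 2 * d + 1 := by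
      rw [natDegree_le_iff_coeff_eq_zero]
      intro N hN
      have h1 : r'.coeff N = r.coeff (N + 1) := by rw [hr', coeff_X_mul]
      rw [h1]
      rcases Nat.lt_or_ge (2 * d + 3) (N + 1) with h2 | h2
      · exact coeff_eq_zero_of_natDegree_lt (by omega)
      · have : N + 1 = 2 * d + 3 := by omega
        rw [this, hr3]
    obtain ⟨α', β', h1, h2, h3, h4⟩ := ih r' hr'd
    refine ⟨C u * X ^ (d + 1) + α', C (-v) * X ^ (d + 1) + β', ?_, ?_, ?_, ?_⟩
    · refine (natDegree_add_le _ _).trans (max_le (natDegree_C_mul_X_pow_le _ _) (by omega))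
    · refine (natDegree_add_le _ _).trans (max_le (natDegree_C_mul_X_pow_le _ _) (by omega))
    · rw [coeff_add, coeff_C_mul_X_pow, if_pos rfl,
        coeff_eq_zero_of_natDegree_lt (p := β') (by omega)]
      ring
    · intro ζ hζ
      have h5 : p.eval ζ = r.eval ζ + u * (ζ * (ζ ^ 2 + 1) ^ (d + 1)) + v * (ζ ^ 2 + 1) ^ (d + 1) := by
        rw [hr]; simp; ring
      have h6 : r.eval ζ = ζ * r'.eval ζ := by rw [hr']; simp
      rw [h5, h6, ← h4 ζ hζ]
      have h7 : ζ ^ 2 + 1 = ζ * (ζ + ζ⁻¹) := by field_simp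
      rw [h7]
      simp only [eval_add, eval_mul, eval_C, eval_pow, eval_X]
      rw [mul_pow]
      ring

/-- indicial equation -/
theorem indicial (a : ℕ) (F : ℂ[X]) (hF : F ≠ 0) (h1 : F.IsRoot 1)
    (hode : (1 - X ^ 3) * derivative (derivative F) + C (6 * a : ℂ) * X ^ 2 * derivative F -
      C (3 * a * (3 * a + 1) : ℂ) * X * F = 0) : (X - 1) ^ (2 * a + 1) ∣ F := by
  set r := F.rootMultiplicity 1 with hr
  have hr1 : 1 ≤ r := (rootMultiplicity_pos hF).2 h1
  obtain ⟨s, hs⟩ : ∃ s, r = s + 1 := ⟨r - 1, by omega⟩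
  obtain ⟨G, hG, hG1⟩ : ∃ G : ℂ[X], F = (X - 1) ^ (s + 1) * G ∧ G.eval 1 ≠ 0 := by
    obtain ⟨G, hG, hG1⟩ := exists_eq_pow_rootMultiplicity_mul_and_not_dvd F hF 1
    refine ⟨G, ?_, ?_⟩
    · rw [← hs, hr]
      simpa using hG
    · intro h
      exact hG1 (by simpa using dvd_iff_isRoot.2 h)
  have hd1 : derivative F = (X - 1) ^ s * (C ((s : ℂ) + 1) * G + (X - 1) * derivative G) := by
    rw [hG, derivative_mul, derivative_pow, derivative_sub, derivative_X, derivative_one]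
    simp only [Nat.add_sub_cancel, sub_zero, mul_one]
    push_cast
    rw [pow_succ]
    ring
  have hd2 : (X - 1) * derivative (derivative F) = (X - 1) ^ s *
      (C ((s : ℂ) + 1) * C (s : ℂ) * G + (X - 1) * (C (2 * ((s : ℂ) + 1)) * derivative G +
        (X - 1) * derivative (derivative G))) := by
    rw [hd1, derivative_mul, derivative_pow, derivative_sub, derivative_X, derivative_one]
    simp only [derivative_add, derivative_mul, derivative_sub, derivative_X, derivative_one,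
      derivative_C, sub_zero, mul_one, zero_mul, zero_add, one_mul]
    rcases Nat.eq_zero_or_pos s with h0 | h0
    · subst h0
      simp only [Nat.cast_zero, map_zero, pow_zero, zero_mul, mul_zero]
      simp only [C_add, C_mul, C_1, C_0, map_ofNat]
      ring
    · obtain ⟨k, rfl⟩ : ∃ k, s = k + 1 := ⟨s - 1, by omega⟩
      simp only [Nat.add_sub_cancel]
      rw [pow_succ]
      simp only [C_add, C_mul, C_1, map_ofNat]
      ring
  have h3 : (X - 1) ^ s * ((-(X ^ 2 + X + 1)) *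
      (C ((s : ℂ) + 1) * C (s : ℂ) * G + (X - 1) * (C (2 * ((s : ℂ) + 1)) * derivative G +
        (X - 1) * derivative (derivative G))) + C (6 * a : ℂ) * X ^ 2 *
      (C ((s : ℂ) + 1) * G + (X - 1) * derivative G) -
      C (3 * a * (3 * a + 1) : ℂ) * X * (X - 1) * G) = 0 := by
    have e : (1 - X ^ 3 : ℂ[X]) * derivative (derivative F) = (-(X ^ 2 + X + 1)) *
        ((X - 1) * derivative (derivative F)) := by ring
    rw [e, hd2, hd1, hG] at hode
    rw [← hode, pow_succ]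
    ring
  have hX : ((X : ℂ[X]) - 1) ^ s ≠ 0 := pow_ne_zero _ (by simpa using X_sub_C_ne_zero (1 : ℂ))
  have h4 := (mul_eq_zero.1 h3).resolve_left hX
  have h5 := congrArg (eval (1 : ℂ)) h4
  simp only [eval_add, eval_sub, eval_mul, eval_neg, eval_pow, eval_X, eval_one, eval_C, sub_self,
    zero_mul, mul_zero, add_zero, sub_zero, one_pow, mul_one, eval_zero] at h5
  have h6 : ((s : ℂ) + 1) * G.eval 1 * (2 * a - s) = 0 := by linear_combination (1 / 3) * h5
  have h7 : ((s : ℂ) + 1) ≠ 0 := Nat.cast_add_one_ne_zero s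
  have h8 : (s : ℂ) = 2 * a := by
    rcases mul_eq_zero.1 h6 with h | h
    · rcases mul_eq_zero.1 h with h | h
      · exact absurd h h7
      · exact absurd h hG1
    · linear_combination -h
  have h9 : s = 2 * a := by exact_mod_cast h8
  rw [hG, h9]
  exact dvd_mul_right _ _


/-- the differential operator -/
noncomputable def LL (a : ℕ) (F : ℂ[X]) : ℂ[X] :=
  (1 - X ^ 3) * derivative (derivative F) + C (6 * a : ℂ) * X ^ 2 * derivative F -
      C (3 * a * (3 * a + 1) : ℂ) * X * F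

theorem LL_add (a : ℕ) (F G : ℂ[X]) : LL a (F + G) = LL a F + LL a G := by
  unfold LL; simp only [derivative_add]; ring

theorem LL_sub (a : ℕ) (F G : ℂ[X]) : LL a (F - G) = LL a F - LL a G := by
  unfold LL; simp only [derivative_sub]; ring

/-- action on monomials of degree at least two -/
theorem LL_mon (a k : ℕ) (c : ℂ) : LL a (C c * X ^ (k + 2)) =
    C (c * (k + 2) * (k + 1)) * X ^ k -
      C (c * (3 * a - (k + 2)) * (3 * a - (k + 2) + 1)) * X ^ (k + 3) := by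
  unfold LL
  simp only [derivative_mul, derivative_C, zero_mul, zero_add, derivative_X_pow]
  simp only [show k + 2 - 1 = k + 1 by omega, show k + 1 - 1 = k by omega]
  push_cast
  simp only [C_add, C_mul, C_sub, C_1, map_ofNat, map_natCast]
  ring

theorem LL_zero_mon (a : ℕ) (c : ℂ) : LL a (C c * X ^ 0) =
      - (C (c * (3 * a) * (3 * a + 1)) * X ^ 1) := by
  unfold LL
  simp only [pow_zero, mul_one, derivative_C, derivative_zero]
  simp only [C_add, C_mul, C_sub, C_1, map_ofNat, map_natCast]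
  ring

theorem LL_one_mon (a : ℕ) (c : ℂ) : LL a (C c * X ^ 1) =
      - (C (c * (3 * a - 1) * (3 * a)) * X ^ 2) := by
  unfold LL
  simp only [pow_one, derivative_mul, derivative_C, derivative_X, zero_mul, zero_add, mul_one,
    mul_zero]
  simp only [C_add, C_mul, C_sub, C_1, map_ofNat, map_natCast]
  ring

theorem tele0 (a : ℕ) (u : ℕ → ℂ)
    (hu : ∀ j, j < a → u (j + 1) * (3 * j + 3) * (3 * j + 2) =
      u j * (3 * a - 3 * j) * (3 * a - 3 * j + 1)) :
    ∀ n, n ≤ a → LL a (∑ j ∈ Finset.range (n + 1), C (u j) * X ^ (3 * j)) =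
      -(C (u n * (3 * a - 3 * n) * (3 * a - 3 * n + 1)) * X ^ (3 * n + 1)) := by
  intro n
  induction n with
  | zero =>
    intro _
    rw [Finset.sum_range_one, mul_zero, LL_zero_mon]
    simp
  | succ n ih =>
    intro hn
    rw [Finset.sum_range_succ, LL_add, ih (by omega), show 3 * (n + 1) = 3 * n + 1 + 2 by ring,
      LL_mon, ← hu n (by omega)]
    push_cast
    have e1 : u (n + 1) * (3 * (n : ℂ) + 3) * (3 * n + 2) =
        u (n + 1) * (3 * (n : ℂ) + 1 + 2) * (3 * n + 1 + 1) := by ring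
    have e2 : u (n + 1) * (3 * (a : ℂ) - (3 * n + 1 + 2)) * (3 * a - (3 * n + 1 + 2) + 1) =
        u (n + 1) * (3 * (a : ℂ) - 3 * (n + 1)) * (3 * a - 3 * (n + 1) + 1) := by ring
    rw [e1, e2]
    ring

theorem tele1 (a : ℕ) (u : ℕ → ℂ)
    (hu : ∀ j, j < a → u (j + 1) * (3 * j + 4) * (3 * j + 3) =
      u j * (3 * a - 3 * j - 1) * (3 * a - 3 * j)) :
    ∀ n, n ≤ a → LL a (∑ j ∈ Finset.range (n + 1), C (u j) * X ^ (3 * j + 1)) =
      -(C (u n * (3 * a - 3 * n - 1) * (3 * a - 3 * n)) * X ^ (3 * n + 2)) := by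
  intro n
  induction n with
  | zero =>
    intro _
    rw [Finset.sum_range_one, mul_zero, zero_add, LL_one_mon]
    simp
  | succ n ih =>
    intro hn
    rw [Finset.sum_range_succ, LL_add, ih (by omega), show 3 * (n + 1) + 1 = 3 * n + 2 + 2 by ring,
      LL_mon, ← hu n (by omega)]
    push_cast
    have e1 : u (n + 1) * (3 * (n : ℂ) + 4) * (3 * n + 3) =
        u (n + 1) * (3 * (n : ℂ) + 2 + 2) * (3 * n + 2 + 1) := by ring
    have e2 : u (n + 1) * (3 * (a : ℂ) - (3 * n + 2 + 2)) * (3 * a - (3 * n + 2 + 2) + 1) =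
        u (n + 1) * (3 * (a : ℂ) - 3 * (n + 1) - 1) * (3 * a - 3 * (n + 1)) := by ring
    rw [e1, e2]
    ring

theorem rp_succ (x : ℚ) (n : ℕ) : rp x (n + 1) = rp x n * (x + n) := by
  unfold rp; rw [Finset.prod_range_succ]

theorem rp_ne (x : ℚ) (hx : 0 < x) (n : ℕ) : rp x n ≠ 0 := by
  unfold rp
  exact Finset.prod_ne_zero_iff.2 fun j _ => by positivity

/-- the recursion for the coefficients -/
theorem cc_rec (d j : ℕ) (hj : j < 2 * d + 1) :
    cc (2 * d + 1) (j + 1) * (3 * j + 3) * (3 * j + 2) =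
      cc (2 * d + 1) j * (3 * ((2 * d + 1 : ℕ) : ℚ) - 3 * j) *
        (3 * ((2 * d + 1 : ℕ) : ℚ) - 3 * j + 1) := by
  obtain ⟨k, hk⟩ : ∃ k, 2 * d + 1 = j + 1 + k := ⟨2 * d - j, by omega⟩
  have hodd : (2 * d + 1) % 2 = 1 := by omega
  unfold cc
  rw [if_pos hodd, if_pos hodd, hk]
  rw [show j + 1 + k - (j + 1) = k by omega, show j + 1 + k - j = k + 1 by omega,
    Nat.factorial_succ j, Nat.factorial_succ k, rp_succ (2 / 3) j, rp_succ (4 / 3) k]
  have h1 := rp_ne (2 / 3) (by norm_num) j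
  have h2 := rp_ne (4 / 3) (by norm_num) k
  have h3 : (j.factorial : ℚ) ≠ 0 := by positivity
  have h4 : (k.factorial : ℚ) ≠ 0 := by positivity
  have h5 : (2 / 3 + (j : ℚ)) ≠ 0 := by positivity
  have h6 : (4 / 3 + (k : ℚ)) ≠ 0 := by positivity
  have h7 : ((j : ℚ) + 1) ≠ 0 := by positivity
  have h8 : ((k : ℚ) + 1) ≠ 0 := by positivity
  push_cast
  field_simp
  ring

theorem cc_zero (d : ℕ) : cc (2 * d + 1) 0 = -1 := by
  have hodd : (2 * d + 1) % 2 = 1 := by omega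
  unfold cc
  rw [if_pos hodd]
  have h2 := rp_ne (4 / 3) (by norm_num) (2 * d + 1)
  have h4 : ((2 * d + 1).factorial : ℚ) ≠ 0 := by positivity
  simp only [Nat.factorial_zero, Nat.cast_one, Nat.sub_zero, one_mul]
  have h0 : rp (2 / 3) 0 = 1 := by simp [rp]
  rw [h0]
  field_simp

/-- coefficients -/
noncomputable def ci (d i : ℕ) : ℂ := (cc (2 * d + 1) i : ℂ)

theorem ci_rec (d j : ℕ) (hj : j < 2 * d + 1) :
    ci d (j + 1) * (3 * j + 3) * (3 * j + 2) =
      ci d j * (3 * ((2 * d + 1 : ℕ) : ℂ) - 3 * j) *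
        (3 * ((2 * d + 1 : ℕ) : ℂ) - 3 * j + 1) := by
  have h := congrArg (fun x : ℚ => (x : ℂ)) (cc_rec d j hj)
  unfold ci
  simpa using h

/-- the lacunary polynomial -/
noncomputable def FF (d : ℕ) : ℂ[X] :=
  (∑ j ∈ Finset.range (2 * d + 1 + 1), C (ci d j) * X ^ (3 * j)) -
    ∑ j ∈ Finset.range (2 * d + 1 + 1), C (ci d (2 * d + 1 - j)) * X ^ (3 * j + 1)

theorem FF_dvd (d : ℕ) : (X - 1) ^ (4 * d + 3) ∣ FF d := by
  by_cases hF : FF d = 0
  · rw [hF]; exact dvd_zero _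
  rw [show 4 * d + 3 = 2 * (2 * d + 1) + 1 by ring]
  refine indicial (2 * d + 1) (FF d) hF ?_ ?_
  · unfold FF
    rw [IsRoot, eval_sub, eval_finsetSum, eval_finsetSum, sub_eq_zero]
    simp only [eval_mul, eval_C, eval_pow, eval_X, one_pow, mul_one]
    exact (Finset.sum_range_reflect (fun j => ci d j) (2 * d + 1 + 1)).symm.trans
      (Finset.sum_congr rfl fun j _ => by rw [show 2 * d + 1 + 1 - 1 - j = 2 * d + 1 - j by omega])
  · change LL (2 * d + 1) (FF d) = 0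
    unfold FF
    rw [LL_sub, tele0 (2 * d + 1) (fun j => ci d j) (fun j hj => ci_rec d j hj) _ le_rfl,
      tele1 (2 * d + 1) (fun j => ci d (2 * d + 1 - j)) ?_ _ le_rfl]
    · simp only [sub_self, mul_zero, zero_mul, C_0, neg_zero, zero_sub]
    · intro j hj
      obtain ⟨i, hi⟩ : ∃ i, 2 * d + 1 = j + 1 + i := ⟨2 * d - j, by omega⟩
      have h := ci_rec d i (by omega)
      rw [show 2 * d + 1 - (j + 1) = i by omega, show 2 * d + 1 - j = i + 1 by omega]
      rw [hi] at h ⊢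
      push_cast at h ⊢
      linear_combination -h

/-- from the order of vanishing at `1` to the one at `2` -/
theorem dvd_of_eval (d : ℕ) (F G : ℂ[X]) (hF : (X - 1) ^ (4 * d + 3) ∣ F)
    (h : ∀ η : ℂ, η ≠ 0 → F.eval η = η ^ (3 * d + 1) * (η ^ 2 - 1) * G.eval (η + η⁻¹)) :
    (X - C 2) ^ (2 * d + 1) ∣ G := by
  by_cases hG : G = 0
  · rw [hG]; exact dvd_zero _
  rw [← le_rootMultiplicity_iff hG]
  by_contra hlt
  push Not at hlt
  obtain ⟨G₁, hG₁, hnd⟩ := exists_eq_pow_rootMultiplicity_mul_and_not_dvd G hG 2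
  set j := G.rootMultiplicity 2 with hj
  set N := G₁.natDegree with hN
  have key : F * X ^ (j + N + 1) =
      (X - 1) ^ (2 * j + 1) * (X ^ (3 * d + 2) * (X + 1) * P1.hom N G₁) := by
    apply Polynomial.funext
    intro η
    by_cases hη : η = 0
    · subst hη
      simp
    · have e3 := P1.hom_eval N G₁ le_rfl η hη
      have e4 : G.eval (η + η⁻¹) = (η + η⁻¹ - 2) ^ j * G₁.eval (η + η⁻¹) := by
        conv_lhs => rw [hG₁]
        simp
      simp only [eval_mul, eval_pow, eval_X, eval_sub, eval_one, eval_add, e3, h η hη, e4]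
      have h4 : η + η⁻¹ - 2 = (η - 1) ^ 2 * η⁻¹ := by
        field_simp
        ring
      rw [h4, mul_pow, ← pow_mul, pow_succ (η - 1), pow_succ η (j + N), pow_add η j, inv_pow]
      have h5 : η ^ j ≠ 0 := pow_ne_zero _ hη
      field_simp
      ring
  have hX1 : ((X : ℂ[X]) - 1) ≠ 0 := by simpa using X_sub_C_ne_zero (1 : ℂ)
  have h1 : (X - 1 : ℂ[X]) ^ (2 * j + 2) ∣ F * X ^ (j + N + 1) :=
    ((pow_dvd_pow _ (by omega)).trans hF).mul_right _
  rw [key, show 2 * j + 2 = (2 * j + 1) + 1 by ring, pow_succ (X - 1 : ℂ[X]) (2 * j + 1)] at h1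
  have h2 := (mul_dvd_mul_iff_left (pow_ne_zero (2 * j + 1) hX1)).1 h1
  obtain ⟨K, hK⟩ := h2
  have h3 := congrArg (eval (1 : ℂ)) hK
  have e5 := P1.hom_eval N G₁ le_rfl 1 one_ne_zero
  simp only [eval_mul, eval_pow, eval_X, eval_sub, eval_one, eval_add, e5, one_pow, one_mul,
    sub_self, zero_mul] at h3
  apply hnd
  rw [dvd_iff_isRoot, IsRoot]
  rw [inv_one, show (1 : ℂ) + 1 = 2 by norm_num] at h3
  rcases mul_eq_zero.1 h3 with h4 | h4
  · norm_num at h4
  · exact h4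

end P2

open P2 in
/-- the explicit Pade form -/
theorem exists_w (d : ℕ) : ∃ α β : ℂ[X], IsW d α β ∧
    ∀ η : ℂ, η ≠ 0 → η * α.eval (η ^ 3 + (η ^ 3)⁻¹) - (η ^ 2)⁻¹ * β.eval (η ^ 3 + (η ^ 3)⁻¹) =
      ∑ i ∈ Finset.range (2 * d + 2), (cc (2 * d + 1) i : ℂ) * η ^ ke (2 * d + 1) i := by
  set p : ℂ[X] := ∑ i ∈ Finset.range (2 * d + 1 + 1), C (ci d i) * X ^ i with hp
  have hpd : p.natDegree ≤ 2 * d + 1 := by
    rw [hp]
    apply natDegree_sum_le_of_forall_le
    intro i hi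
    have := Finset.mem_range.1 hi
    exact (natDegree_C_mul_X_pow_le _ _).trans (by omega)
  have hp0 : p.coeff 0 = -1 := by
    rw [hp, finsetSum_coeff, Finset.sum_range_succ']
    simp [ci, cc_zero]
  obtain ⟨α, β, hα, hβ, hl, hev⟩ := decomp d p hpd
  have hpe : ∀ ζ : ℂ, p.eval ζ = ∑ i ∈ Finset.range (2 * d + 1 + 1), ci d i * ζ ^ i := by
    intro ζ
    rw [hp, eval_finsetSum]
    simp
  refine ⟨α, β, ⟨hα, hβ, by rw [hl, hp0, neg_neg], ?_⟩, ?_⟩
  · refine dvd_of_eval d (FF d) _ (FF_dvd d) ?_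
    intro η hη
    have hη3 : η ^ 3 ≠ 0 := pow_ne_zero _ hη
    have hηi : (η ^ 3)⁻¹ ≠ 0 := inv_ne_zero hη3
    have hT : T.eval (η + η⁻¹) = η ^ 3 + (η ^ 3)⁻¹ := by
      simp only [T, eval_sub, eval_pow, eval_X, eval_mul, eval_ofNat]
      field_simp
      ring
    have e1 := hev (η ^ 3) hη3
    have e2 := hev ((η ^ 3)⁻¹) hηi
    rw [inv_inv, add_comm ((η ^ 3)⁻¹)] at e2
    have e3 : (FF d).eval η = p.eval (η ^ 3) - η * (η ^ 3) ^ (2 * d + 1) * p.eval ((η ^ 3)⁻¹) := by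
      unfold FF
      rw [eval_sub, eval_finsetSum, eval_finsetSum, hpe, hpe, Finset.mul_sum]
      congr 1
      · refine Finset.sum_congr rfl fun i _ => ?_
        simp [pow_mul]
      · rw [← Finset.sum_range_reflect]
        refine Finset.sum_congr rfl fun i hi => ?_
        have hi' := Finset.mem_range.1 hi
        simp only [eval_mul, eval_C, eval_pow, eval_X]
        rw [show 2 * d + 1 - (2 * d + 1 + 1 - 1 - i) = i by omega,
          show 2 * d + 1 + 1 - 1 - i = 2 * d + 1 - i by omega,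
          show (η ^ 3) ^ (2 * d + 1) = (η ^ 3) ^ (2 * d + 1 - i) * (η ^ 3) ^ i by
            rw [← pow_add]; congr 1; omega, inv_pow, pow_succ, pow_mul]
        have : (η ^ 3) ^ i ≠ 0 := pow_ne_zero _ hη3
        field_simp
    rw [e3, ← e1, ← e2]
    simp only [eval_add, eval_mul, eval_X, eval_comp, hT]
    set A := α.eval (η ^ 3 + (η ^ 3)⁻¹)
    set B := β.eval (η ^ 3 + (η ^ 3)⁻¹)
    have f1 : η * (η ^ 3) ^ (2 * d + 1) * (((η ^ 3)⁻¹) ^ (d + 1) * A - ((η ^ 3)⁻¹) ^ d * B) =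
        η * ((η ^ 3) ^ d * A - (η ^ 3) ^ (d + 1) * B) := by
      rw [show (η ^ 3) ^ (2 * d + 1) = (η ^ 3) ^ (d + 1) * (η ^ 3) ^ d by
        rw [← pow_add]; congr 1; omega, inv_pow, inv_pow]
      have g1 : (η ^ 3) ^ (d + 1) ≠ 0 := pow_ne_zero _ hη3
      have g2 : (η ^ 3) ^ d ≠ 0 := pow_ne_zero _ hη3
      rw [mul_assoc η, mul_sub ((η ^ 3) ^ (d + 1) * (η ^ 3) ^ d)]
      congr 1
      have g3 : (η ^ 3) ^ (d + 1) * (η ^ 3) ^ d * (((η ^ 3) ^ (d + 1))⁻¹ * A) = (η ^ 3) ^ d * A := by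
        field_simp
      have g4 : (η ^ 3) ^ (d + 1) * (η ^ 3) ^ d * (((η ^ 3) ^ d)⁻¹ * B) = (η ^ 3) ^ (d + 1) * B := by
        field_simp
      rw [g3, g4]
    rw [f1, show 3 * d + 1 = 3 * d + 1 by rfl, pow_succ η (3 * d), pow_mul, pow_succ (η ^ 3) d]
    have g5 : η * η⁻¹ = 1 := mul_inv_cancel₀ hη
    have g6 : (η ^ 2 - 1) * η * (η + η⁻¹) = η ^ 4 - 1 := by
      have : (η ^ 2 - 1) * η * (η + η⁻¹) = (η ^ 2 - 1) * (η ^ 2 + η * η⁻¹) := by ring
      rw [this, g5]; ring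
    linear_combination (-(η ^ 3) ^ d * B) * g6
  · intro η hη
    have hη3 : η ^ 3 ≠ 0 := pow_ne_zero _ hη
    have e1 := hev (η ^ 3) hη3
    rw [hpe] at e1
    have hm : ((η ^ (3 * d + 2)) : ℂ) ≠ 0 := pow_ne_zero _ hη
    have e2 : η * α.eval (η ^ 3 + (η ^ 3)⁻¹) - (η ^ 2)⁻¹ * β.eval (η ^ 3 + (η ^ 3)⁻¹) =
        (η ^ (3 * d + 2))⁻¹ * ((η ^ 3) ^ (d + 1) * α.eval (η ^ 3 + (η ^ 3)⁻¹) -
          (η ^ 3) ^ d * β.eval (η ^ 3 + (η ^ 3)⁻¹)) := by
      have k1 : (η ^ 3) ^ (d + 1) = η ^ (3 * d + 2) * η := by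
        rw [← pow_mul, ← pow_succ]; congr 1
      have k2 : (η ^ 3) ^ d * η ^ 2 = η ^ (3 * d + 2) := by
        rw [← pow_mul, ← pow_add]
      have k3 : (η ^ (3 * d + 2))⁻¹ * (η ^ 3) ^ d = (η ^ 2)⁻¹ := by
        rw [← k2]
        have : (η ^ 3) ^ d ≠ 0 := pow_ne_zero _ hη3
        field_simp
      rw [mul_sub, ← mul_assoc, ← mul_assoc, k3, k1, inv_mul_cancel_left₀ hm]
    rw [e2, e1, Finset.mul_sum]
    refine Finset.sum_congr rfl fun i _ => ?_
    have hke : ke (2 * d + 1) i = ((3 * i : ℕ) : ℤ) - ((3 * d + 2 : ℕ) : ℤ) := by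
      unfold ke
      rw [if_pos (by omega)]
      push_cast
      omega
    rw [hke, zpow_sub₀ hη, zpow_natCast, zpow_natCast, ← pow_mul]
    unfold ci
    field_simp

end Pool.Agent.H59.Slit
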