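import Pool.Agent.H59.Slit.P1

set_option autoImplicit false
open Polynomial

/-! Job SL-P2, first part: the Pade form, coprimality. -/

namespace Pool.Agent.H59.Slit
open Pool.Agent.H72.Cardy

structure IsW (d : ℕ) (α β : ℂ[X]) : Prop where
  degα : α.natDegree ≤ d
  degβ : β.natDegree ≤ d
  lead : β.coeff d = 1
  dvd : (X - C 2) ^ (2 * d + 1) ∣ α.comp T + X * β.comp T

lemma T_sub_two : (T : ℂ[X]) - C 2 = (X - C 2) * (X + 1) ^ 2 := by
  unfold T
  simp only [map_ofNat]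
  ring

lemma comp_sub (c : ℂ) (p : ℂ[X]) : ((X - C c) * p).comp T = (T - C c) * p.comp T := by
  rw [mul_comp, sub_comp, X_comp, C_comp]

/-- if `(X - 2)^(k+1)` divides `(T - c) p` then `(X-2)^k` divides `p` -/
lemma dvd_of_dvd_mul (c : ℂ) (p : ℂ[X]) (k : ℕ) (h : (X - C 2) ^ (k + 1) ∣ (T - C c) * p) :
    (X - C 2) ^ k ∣ p := by
  have hp : Prime (X - C (2 : ℂ)) := prime_X_sub_C 2
  by_cases hc : c = 2
  · subst hc
    rw [T_sub_two, pow_succ', mul_assoc] at h
    have h1 := (mul_dvd_mul_iff_left hp.ne_zero).1 h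
    have hcop : IsCoprime ((X - C (2 : ℂ)) ^ k) ((X + 1) ^ 2) := by
      apply IsCoprime.pow
      refine ⟨C (-1 / 3), C (1 / 3), ?_⟩
      have : (C (-1 / 3) : ℂ[X]) * (X - C 2) + C (1 / 3) * (X + 1) =
        (C (-1 / 3) + C (1 / 3)) * X + (C (-1/3) * C (-2) + C (1 / 3)) := by
        simp only [map_neg]; ring
      rw [this, ← C_add, ← C_mul, ← C_add]
      norm_num
    exact hcop.dvd_of_dvd_mul_left h1
  · have hcop : IsCoprime ((X - C (2 : ℂ)) ^ k) (T - C c) := by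
      apply IsCoprime.pow_left
      have h2 : (T : ℂ[X]) - C c - (X - C 2) * (X + 1) ^ 2 = C (2 - c) := by
        rw [← T_sub_two, C_sub]; ring
      refine ⟨-C ((2 - c)⁻¹) * (X + 1) ^ 2, C ((2 - c)⁻¹), ?_⟩
      have : -C ((2 - c)⁻¹) * (X + 1) ^ 2 * (X - C 2) + C ((2 - c)⁻¹) * (T - C c) =
        C ((2 - c)⁻¹) * ((T : ℂ[X]) - C c - (X - C 2) * (X + 1) ^ 2) := by ring
      rw [this, h2, ← C_mul, inv_mul_cancel₀ (sub_ne_zero.2 (Ne.symm hc)), C_1]
    exact hcop.dvd_of_dvd_mul_left ((pow_dvd_pow _ (Nat.le_succ k)).trans h)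

theorem IsW.coprime {d : ℕ} {α β : ℂ[X]} (h : IsW d α β) : IsCoprime α β := by
  have hβ : β ≠ 0 := by
    rintro rfl
    have := h.lead
    simp at this
  by_contra hcon
  obtain ⟨c, hc1, hc2⟩ : ∃ c : ℂ, α.IsRoot c ∧ β.IsRoot c := by
    by_contra hno
    push Not at hno
    apply hcon
    exact isCoprime_of_irreducible_dvd (fun h0 => hβ h0.2) fun p hp hpa hpb => by
      obtain ⟨c, hc⟩ := IsAlgClosed.exists_root p (degree_pos_of_irreducible hp).ne'
      exact hno c (hc.dvd hpa) (hc.dvd hpb)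
  obtain ⟨α', rfl⟩ := dvd_iff_isRoot.2 hc1
  obtain ⟨β', rfl⟩ := dvd_iff_isRoot.2 hc2
  have hβ' : β' ≠ 0 := by rintro rfl; simp at hβ
  have hdvd := h.dvd
  rw [comp_sub, comp_sub] at hdvd
  have e : (T - C c) * α'.comp T + X * ((T - C c) * β'.comp T) =
      (T - C c) * (α'.comp T + X * β'.comp T) := by ring
  rw [e] at hdvd
  have h1 := dvd_of_dvd_mul c _ (2 * d) hdvd
  have hd2 : β'.natDegree + 1 ≤ d := by
    have := h.degβ
    rw [natDegree_mul (X_sub_C_ne_zero c) hβ', natDegree_X_sub_C] at this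
    omega
  have hβd : β'.degree < d := by
    rw [degree_eq_natDegree hβ']
    exact_mod_cast (by omega : β'.natDegree < d)
  have hαd : α'.degree < d := by
    by_cases hα' : α' = 0
    · rw [hα', degree_zero]; exact WithBot.bot_lt_coe d
    · have := h.degα
      rw [natDegree_mul (X_sub_C_ne_zero c) hα', natDegree_X_sub_C] at this
      rw [degree_eq_natDegree hα']
      exact_mod_cast (by omega : α'.natDegree < d)
  exact hβ' (lac1 d α' β' hαd hβd h1).2

end Pool.Agent.H59.Slit
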