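import Pool.Agent.H59.Slit.P2a

set_option autoImplicit false
open Polynomial

/-! Job SL-P3 (helper99): the uniqueness theorem `uniq`. -/

namespace Pool.Agent.H59.Slit
open Pool.Agent.H72.Cardy


namespace P3Aux

lemma T_sub_two : (T : ℂ[X]) - C 2 = (X - C 2) * (X + 1) ^ 2 := by
  unfold T
  have h2 : (C 2 : ℂ[X]) = 2 := rfl
  rw [h2]
  ring

lemma cop : IsCoprime (X - C 2 : ℂ[X]) (X + 1) := by
  refine ⟨-C (1 / 3), C (1 / 3), ?_⟩
  have h : (C (1 / 3) : ℂ[X]) * C 3 = 1 := by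
    rw [← C_mul]
    norm_num
  have h2 : (C 3 : ℂ[X]) = C 2 + 1 := by
    rw [← C_1, ← C_add]
    norm_num
  rw [h2] at h
  linear_combination h

/-- order of vanishing of a polynomial in `T` -/
lemma dvd_of_comp (n : ℕ) (g : ℂ[X]) (h : (X - C 2) ^ n ∣ g.comp T) : (X - C 2) ^ n ∣ g := by
  induction n generalizing g with
  | zero => simp
  | succ n ih =>
    have h2 : (2 : ℂ) = T.eval 2 := by
      unfold T
      simp
      try norm_num
    have h1 : (X - C 2) ∣ g.comp T := (dvd_pow_self _ (Nat.succ_ne_zero n)).trans h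
    rw [dvd_iff_isRoot, IsRoot, eval_comp, ← h2] at h1
    obtain ⟨g', rfl⟩ := dvd_iff_isRoot.2 h1
    rw [mul_comp, sub_comp, X_comp, C_comp, T_sub_two, pow_succ', mul_assoc] at h
    have h3 := (mul_dvd_mul_iff_left (X_sub_C_ne_zero (2 : ℂ))).1 h
    have h4 : IsCoprime ((X - C 2 : ℂ[X]) ^ n) ((X + 1) ^ 2) := cop.pow
    have h5 := h4.dvd_of_dvd_mul_left h3
    rw [pow_succ']
    exact mul_dvd_mul_left _ (ih g' h5)

end P3Aux

open P3Aux

/-- Proof. `τ_i = t_{i0} β' - t_{i1} α'` is divisible by `(T-2)^{2d'+1}` (it is divisible by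
`(X-2)^{2d'+1}` after composition), `τ_i = (T-2)^{2d'+1} σ_i`, `deg σ_i < d`, and
`(X-2)^{2d+1} ∣ σ_0(T) + X σ_1(T)`, so `σ = 0` by `lac1`; hence `t_i = ρ_i (α', β')` by coprimality,
`(X-2)^{2d+1} ∣ ρ_0(T) + X ρ_1(T)` because `β'(2) ≠ 0`, and `ρ = κ (α, β)` by `lac2`. -/
theorem uniq (d d' : ℕ) (α β α' β' t00 t01 t10 t11 : ℂ[X]) (hw : IsW d α β) (hw' : IsW d' α' β')
    (h00 : t00.natDegree ≤ d + d') (h01 : t01.natDegree ≤ d + d') (h10 : t10.natDegree ≤ d + d')
    (h11 : t11.natDegree ≤ d + d')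
    (c0 : (X - C 2) ^ (2 * d + 1) ∣ t00.comp T + X * t10.comp T)
    (c1 : (X - C 2) ^ (2 * d + 1) ∣ t01.comp T + X * t11.comp T)
    (r0 : (X - C 2) ^ (2 * d' + 1) ∣ t00.comp T + X * t01.comp T)
    (r1 : (X - C 2) ^ (2 * d' + 1) ∣ t10.comp T + X * t11.comp T)
    (hK : (X - C 2) ^ (2 * d + 2 * d' + 2) ∣
      t00.comp T + X * (t01.comp T + t10.comp T) + X ^ 2 * t11.comp T) :
    ∃ κ : ℂ, t00 = C κ * α * α' ∧ t01 = C κ * α * β' ∧ t10 = C κ * β * α' ∧ t11 = C κ * β * β' := by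
  have hcop := hw'.coprime
  -- the minors
  have key : ∀ s t : ℂ[X], s.natDegree ≤ d + d' → t.natDegree ≤ d + d' →
      (X - C 2) ^ (2 * d' + 1) ∣ s.comp T + X * t.comp T →
      ∃ σ : ℂ[X], σ.degree < d ∧ s * β' - t * α' = (X - C 2) ^ (2 * d' + 1) * σ := by
    intro s t hs ht hst
    have h1 : (X - C 2) ^ (2 * d' + 1) ∣ (s * β' - t * α').comp T := by
      have e : (s * β' - t * α').comp T = (s.comp T + X * t.comp T) * β'.comp T -
          (α'.comp T + X * β'.comp T) * t.comp T := by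
        rw [sub_comp, mul_comp, mul_comp]
        ring
      rw [e]
      exact dvd_sub (Dvd.dvd.mul_right hst _) (Dvd.dvd.mul_right hw'.dvd _)
    obtain ⟨σ, hσ⟩ := dvd_of_comp _ _ h1
    refine ⟨σ, ?_, hσ⟩
    have hdeg : (s * β' - t * α').natDegree ≤ d + 2 * d' := by
      refine (natDegree_sub_le _ _).trans (max_le ?_ ?_)
      · refine natDegree_mul_le.trans ?_
        have := hw'.degβ
        omega
      · refine natDegree_mul_le.trans ?_
        have := hw'.degα
        omega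
    by_cases h0 : σ = 0
    · rw [h0, degree_zero]
      exact WithBot.bot_lt_coe d
    · rw [hσ, natDegree_mul (pow_ne_zero _ (X_sub_C_ne_zero _)) h0, natDegree_pow,
        natDegree_X_sub_C] at hdeg
      rw [← natDegree_lt_iff_degree_lt h0]
      omega
  obtain ⟨σ0, hσ0, e0⟩ := key t00 t01 h00 h01 r0
  obtain ⟨σ1, hσ1, e1⟩ := key t10 t11 h10 h11 r1
  have hσ : (X - C 2) ^ (2 * d + 1) ∣ σ0.comp T + X * σ1.comp T := by
    have h1 : (X - C 2) ^ (2 * d + 2 * d' + 2) ∣
        (t00 * β' - t01 * α').comp T + X * (t10 * β' - t11 * α').comp T := by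
      have e : (t00 * β' - t01 * α').comp T + X * (t10 * β' - t11 * α').comp T =
          (t00.comp T + X * (t01.comp T + t10.comp T) + X ^ 2 * t11.comp T) * β'.comp T -
          (t01.comp T + X * t11.comp T) * (α'.comp T + X * β'.comp T) := by
        simp only [sub_comp, mul_comp]
        ring
      rw [e]
      refine dvd_sub (Dvd.dvd.mul_right hK _) ?_
      have e2 : 2 * d + 2 * d' + 2 = (2 * d + 1) + (2 * d' + 1) := by ring
      rw [e2, pow_add]
      exact mul_dvd_mul c1 hw'.dvd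
    rw [e0, e1] at h1
    have e3 : ((X - C 2) ^ (2 * d' + 1) * σ0).comp T + X * ((X - C 2) ^ (2 * d' + 1) * σ1).comp T =
        (X - C 2) ^ (2 * d' + 1) * (((X + 1) ^ 2) ^ (2 * d' + 1) * (σ0.comp T + X * σ1.comp T)) := by
      simp only [mul_comp, pow_comp, sub_comp, X_comp, C_comp, T_sub_two, mul_pow]
      ring
    have e4 : 2 * d + 2 * d' + 2 = (2 * d' + 1) + (2 * d + 1) := by ring
    rw [e3, e4, pow_add] at h1
    have h2 := (mul_dvd_mul_iff_left (pow_ne_zero _ (X_sub_C_ne_zero (2 : ℂ)))).1 h1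
    have h3 : IsCoprime ((X - C 2 : ℂ[X]) ^ (2 * d + 1)) (((X + 1) ^ 2) ^ (2 * d' + 1)) :=
      (cop.pow_right (n := 2)).pow
    exact h3.dvd_of_dvd_mul_left h2
  obtain ⟨z0, z1⟩ := lac1 d σ0 σ1 hσ0 hσ1 ((pow_dvd_pow _ (by omega)).trans hσ)
  rw [z0, mul_zero, sub_eq_zero] at e0
  rw [z1, mul_zero, sub_eq_zero] at e1
  obtain ⟨u, v, huv⟩ := hcop
  have hρ : ∀ s t : ℂ[X], s * β' = t * α' → t.natDegree ≤ d + d' →
      ∃ ρ : ℂ[X], s = ρ * α' ∧ t = ρ * β' ∧ ρ.natDegree ≤ d := by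
    intro s t hst ht
    have hs : s = (u * s + v * t) * α' := by linear_combination (-s) * huv + v * hst
    have ht' : t = (u * s + v * t) * β' := by linear_combination (-t) * huv - u * hst
    refine ⟨u * s + v * t, hs, ht', ?_⟩
    by_cases h0 : u * s + v * t = 0
    · rw [h0]; simp
    have hβ0 : β' ≠ 0 := by
      intro h
      have := hw'.lead
      rw [h, coeff_zero] at this
      exact zero_ne_one this
    have hβd : d' ≤ β'.natDegree := by
      apply le_natDegree_of_ne_zero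
      rw [hw'.lead]
      exact one_ne_zero
    rw [ht', natDegree_mul h0 hβ0] at ht
    omega
  obtain ⟨ρ0, a0, b0, n0⟩ := hρ t00 t01 e0 h01
  obtain ⟨ρ1, a1, b1, n1⟩ := hρ t10 t11 e1 h11
  have hβ2 : β'.eval 2 ≠ 0 := by
    intro h
    have h1 : (X - C 2) ∣ α'.comp T + X * β'.comp T :=
      (dvd_pow_self _ (Nat.succ_ne_zero (2 * d'))).trans hw'.dvd
    have hT2 : T.eval (2 : ℂ) = 2 := by
      unfold T
      simp
      try norm_num
    rw [dvd_iff_isRoot, IsRoot, eval_add, eval_mul, eval_comp, eval_comp, eval_X, hT2, h, mul_zero,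
      add_zero] at h1
    have h2 := congrArg (eval 2) huv
    rw [eval_add, eval_mul, eval_mul, h1, h, mul_zero, mul_zero, add_zero, eval_one] at h2
    exact zero_ne_one h2
  have hρ2 : (X - C 2) ^ (2 * d + 1) ∣ ρ0.comp T + X * ρ1.comp T := by
    have h1 := c1
    rw [b0, b1] at h1
    have e : (ρ0 * β').comp T + X * (ρ1 * β').comp T =
        β'.comp T * (ρ0.comp T + X * ρ1.comp T) := by
      simp only [mul_comp]
      ring
    rw [e] at h1
    have h2 : IsCoprime ((X - C 2 : ℂ[X]) ^ (2 * d + 1)) (β'.comp T) := by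
      apply IsCoprime.pow_left
      apply (irreducible_X_sub_C (2 : ℂ)).coprime_iff_not_dvd.2
      rw [dvd_iff_isRoot, IsRoot, eval_comp]
      have hT2 : T.eval (2 : ℂ) = 2 := by
        unfold T
        simp
        try norm_num
      rw [hT2]
      exact hβ2
    exact h2.dvd_of_dvd_mul_left h1
  have hlac := lac2 d (ρ0 - C (ρ1.coeff d) * α) (ρ1 - C (ρ1.coeff d) * β)
    (by
      have : (ρ0 - C (ρ1.coeff d) * α).natDegree ≤ d := by
        refine (natDegree_sub_le _ _).trans (max_le n0 ?_)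
        exact (natDegree_C_mul_le _ _).trans hw.degα
      have h1 := degree_le_of_natDegree_le this
      refine lt_of_le_of_lt h1 ?_
      exact_mod_cast Nat.lt_succ_self d)
    (by
      rw [degree_lt_iff_coeff_zero]
      intro m hm
      rcases Nat.eq_or_lt_of_le hm with rfl | hlt
      · rw [coeff_sub, coeff_C_mul, hw.lead, mul_one, sub_self]
      · rw [coeff_sub, coeff_C_mul, coeff_eq_zero_of_natDegree_lt (lt_of_le_of_lt n1 hlt),
          coeff_eq_zero_of_natDegree_lt (lt_of_le_of_lt hw.degβ hlt), mul_zero, sub_zero])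
    (by
      have e : (ρ0 - C (ρ1.coeff d) * α).comp T + X * (ρ1 - C (ρ1.coeff d) * β).comp T =
          (ρ0.comp T + X * ρ1.comp T) - C (ρ1.coeff d) * (α.comp T + X * β.comp T) := by
        simp only [sub_comp, mul_comp, C_comp]
        ring
      rw [e]
      exact dvd_sub hρ2 (Dvd.dvd.mul_left hw.dvd _))
  have hA := sub_eq_zero.1 hlac.1
  have hB := sub_eq_zero.1 hlac.2
  generalize ρ1.coeff d = κ at hA hB
  refine ⟨κ, ?_, ?_, ?_, ?_⟩
  · rw [a0, hA]
  · rw [b0, hA]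
  · rw [a1, hB]
  · rw [b1, hB]

end Pool.Agent.H59.Slit
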