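import Pool.Agent.H59.Slit.Defs

set_option autoImplicit false
open Polynomial

/-! CardySlit, job SL-P4 (helper76): the evaluation of the numerator at `η = 1`, preparations. -/

namespace Pool.Agent.H59.Slit
open Pool.Agent.H72.Cardy


namespace P4

theorem eq_of_eval {f g : ℂ[X]} (h : ∀ η : ℂ, η ≠ 0 → f.eval η = g.eval η) : f = g := by
  apply Polynomial.eq_of_infinite_eval_eq
  refine Set.Infinite.mono (s := {0}ᶜ) ?_ (Set.Finite.infinite_compl (Set.finite_singleton (0 : ℂ)))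
  intro η hη
  exact h η hη

/-- the polynomial `η ^ n R(η + 1/η)` -/
noncomputable def H (n : ℕ) (R : ℂ[X]) : ℂ[X] :=
  ∑ i ∈ Finset.range (n + 1), C (R.coeff i) * (X ^ 2 + 1) ^ i * X ^ (n - i)

theorem H_eval (n : ℕ) (R : ℂ[X]) (hR : R.natDegree ≤ n) (η : ℂ) (hη : η ≠ 0) :
    (H n R).eval η = η ^ n * R.eval (η + η⁻¹) := by
  rw [eval_eq_sum_range' (Nat.lt_succ_of_le hR), Finset.mul_sum]
  simp only [H, eval_finsetSum]
  refine Finset.sum_congr rfl fun i hi => ?_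
  have hi' : i ≤ n := by
    have := Finset.mem_range.1 hi
    omega
  simp only [eval_mul, eval_C, eval_pow, eval_add, eval_X, eval_one]
  have h1 : η ^ 2 + 1 = η * (η + η⁻¹) := by field_simp
  have h2 : η ^ n = η ^ i * η ^ (n - i) := by
    rw [← pow_add]
    congr 1
    omega
  rw [h1, mul_pow, h2]
  ring

theorem H_one (n : ℕ) (R : ℂ[X]) (hR : R.natDegree ≤ n) : (H n R).eval 1 = R.eval 2 := by
  rw [H_eval n R hR 1 one_ne_zero]
  norm_num

theorem H_coeff_zero (n : ℕ) (R : ℂ[X]) : (H n R).coeff 0 = R.coeff n := by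
  rw [coeff_zero_eq_eval_zero]
  simp only [H, eval_finsetSum]
  rw [Finset.sum_eq_single n]
  · simp
  · intro i hi hin
    have hi' := Finset.mem_range.1 hi
    have : n - i ≠ 0 := by omega
    simp [this]
  · intro h
    exact absurd (Finset.mem_range.2 (Nat.lt_succ_self n)) h

theorem monic_aux (n : ℕ) : ((X ^ 2 + 1 : ℂ[X]) ^ n).Monic := by
  apply Monic.pow
  monicity!

theorem natDegree_aux (n : ℕ) : ((X ^ 2 + 1 : ℂ[X]) ^ n).natDegree = 2 * n := by
  rw [natDegree_pow]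
  have : (X ^ 2 + 1 : ℂ[X]).natDegree = 2 := by compute_degree!
  rw [this, mul_comm]

theorem term_deg (n i : ℕ) (r : ℂ) (hi : i ≤ n) :
    (C r * (X ^ 2 + 1 : ℂ[X]) ^ i * X ^ (n - i)).natDegree ≤ n + i := by
  refine (natDegree_mul_le).trans ?_
  rw [natDegree_X_pow]
  have h1 : (C r * (X ^ 2 + 1 : ℂ[X]) ^ i).natDegree ≤ 2 * i :=
    (natDegree_C_mul_le _ _).trans (natDegree_aux i).le
  omega

theorem H_deg (n : ℕ) (R : ℂ[X]) : (H n R).natDegree ≤ 2 * n := by
  unfold H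
  refine natDegree_sum_le_of_forall_le _ _ fun i hi => ?_
  have hi' := Finset.mem_range.1 hi
  exact (term_deg n i _ (by omega)).trans (by omega)

theorem H_coeff_top (n : ℕ) (R : ℂ[X]) : (H n R).coeff (2 * n) = R.coeff n := by
  simp only [H, finsetSum_coeff]
  rw [Finset.sum_eq_single n]
  · simp only [Nat.sub_self, pow_zero, mul_one, coeff_C_mul]
    have h1 := monic_aux n
    have h2 := natDegree_aux n
    rw [Monic, leadingCoeff, h2] at h1
    rw [h1, mul_one]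
  · intro i hi hin
    have hi' := Finset.mem_range.1 hi
    exact coeff_eq_zero_of_natDegree_lt ((term_deg n i _ (by omega)).trans_lt (by omega))
  · intro h
    exact absurd (Finset.mem_range.2 (Nat.lt_succ_self n)) h


/-- Chebyshev-like polynomials: `η^n + η^{-n} = C_n(x)`, `η^n - η^{-n} = (η - 1/η) S_n(x)` -/
theorem cheb (n : ℕ) : ∃ c s : ℂ[X], c.natDegree ≤ n + 1 ∧ c.coeff (n + 1) = 1 ∧ s.natDegree ≤ n ∧
    s.coeff n = 1 ∧ ∀ η : ℂ, η ≠ 0 →
      η ^ (n + 1) + (η⁻¹) ^ (n + 1) = c.eval (η + η⁻¹) ∧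
      η ^ (n + 1) - (η⁻¹) ^ (n + 1) = (η - η⁻¹) * s.eval (η + η⁻¹) := by
  induction n with
  | zero =>
    refine ⟨X, 1, by simp, by simp, by simp, by simp, fun η hη => by simp⟩
  | succ n ih =>
    obtain ⟨c, s, hc, hc1, hs, hs1, he⟩ := ih
    have hs2 : s.coeff (n + 2) = 0 := coeff_eq_zero_of_natDegree_lt (by omega)
    have hs3 : s.coeff (n + 1) = 0 := coeff_eq_zero_of_natDegree_lt (by omega)
    refine ⟨C (1 / 2) * (X * c + (X ^ 2 - C 4) * s), C (1 / 2) * (c + X * s), ?_, ?_, ?_, ?_, ?_⟩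
    · refine (natDegree_C_mul_le _ _).trans (natDegree_add_le_of_degree_le ?_ ?_)
      · refine natDegree_mul_le.trans ?_
        rw [natDegree_X]
        omega
      · refine natDegree_mul_le.trans ?_
        have : (X ^ 2 - C 4 : ℂ[X]).natDegree ≤ 2 := by compute_degree
        omega
    · rw [coeff_C_mul, coeff_add, coeff_X_mul, sub_mul, coeff_sub, coeff_C_mul,
        show n + 1 + 1 = n + 2 from rfl, hs2, coeff_X_pow_mul, hc1, hs1]
      norm_num
    · refine (natDegree_C_mul_le _ _).trans (natDegree_add_le_of_degree_le hc ?_)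
      refine natDegree_mul_le.trans ?_
      rw [natDegree_X]
      omega
    · rw [coeff_C_mul, coeff_add, coeff_X_mul, hc1, hs1]
      norm_num
    · intro η hη
      obtain ⟨h1, h2⟩ := he η hη
      simp only [eval_mul, eval_C, eval_add, eval_X, eval_sub, eval_pow]
      have h3 : η * η⁻¹ = 1 := mul_inv_cancel₀ hη
      constructor
      · rw [← h1]
        have h4 : ((η + η⁻¹) ^ 2 - 4) * s.eval (η + η⁻¹) =
            (η - η⁻¹) * (η ^ (n + 1) - (η⁻¹) ^ (n + 1)) := by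
          rw [h2]
          linear_combination (4 * s.eval (η + η⁻¹)) * h3
        rw [h4]
        ring
      · rw [← h1]
        have h4 : (η - η⁻¹) * ((η + η⁻¹) * s.eval (η + η⁻¹)) =
            (η + η⁻¹) * (η ^ (n + 1) - (η⁻¹) ^ (n + 1)) := by
          rw [h2]
          ring
        linear_combination (-1 / 2 : ℂ) * h4

/-- decomposition of a polynomial of degree at most `2m` -/
theorem decomp (m : ℕ) : ∀ P : ℂ[X], P.natDegree ≤ 2 * m → ∃ A B : ℂ[X], A.natDegree ≤ m ∧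
    B.degree < m ∧ A.coeff m = (P.coeff (2 * m) + P.coeff 0) / 2 ∧
    (0 < m → B.coeff (m - 1) = (P.coeff (2 * m) - P.coeff 0) / 2) ∧
    ∀ η : ℂ, η ≠ 0 → P.eval η = η ^ m * (A.eval (η + η⁻¹) + (η - η⁻¹) * B.eval (η + η⁻¹)) := by
  induction m with
  | zero =>
    intro P hP
    rw [mul_zero] at hP
    have h0 := eq_C_of_natDegree_le_zero hP
    refine ⟨P, 0, hP, by simp, by simp, by simp, fun η hη => ?_⟩
    rw [h0]
    simp
  | succ n ih =>
    intro P hP
    obtain ⟨Q, hQ⟩ : ∃ Q : ℂ[X], P = C (P.coeff 0) + X * Q := by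
      refine ⟨divX P, ?_⟩
      rw [add_comm]
      exact (X_mul_divX_add P).symm
    have hQc : ∀ k, Q.coeff k = P.coeff (k + 1) := by
      intro k
      conv_rhs => rw [hQ]
      rw [coeff_add, coeff_C_succ, zero_add, coeff_X_mul]
    set Q' : ℂ[X] := Q - C (P.coeff (2 * (n + 1))) * X ^ (2 * n + 1) with hQ'
    have hQ'd : Q'.natDegree ≤ 2 * n := by
      rw [natDegree_le_iff_coeff_eq_zero]
      intro k hk
      rw [hQ', coeff_sub, coeff_C_mul, coeff_X_pow, hQc]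
      by_cases hk2 : k = 2 * n + 1
      · subst hk2
        simp [mul_add]
      · rw [if_neg hk2, mul_zero, sub_zero]
        exact coeff_eq_zero_of_natDegree_lt (by omega)
    obtain ⟨A, B, hA, hB, -, -, he⟩ := ih Q' hQ'd
    obtain ⟨c, s, hc, hc1, hs, hs1, hcs⟩ := cheb n
    set u := (P.coeff (2 * (n + 1)) + P.coeff 0) / 2 with hu
    set v := (P.coeff (2 * (n + 1)) - P.coeff 0) / 2 with hv
    have hB' : B.coeff n = 0 := coeff_eq_zero_of_degree_lt hB
    refine ⟨A + C u * c, B + C v * s, ?_, ?_, ?_, ?_, ?_⟩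
    · exact natDegree_add_le_of_degree_le (by omega) ((natDegree_C_mul_le _ _).trans hc)
    · refine (degree_add_le _ _).trans_lt (max_lt (hB.trans ?_) ?_)
      · exact_mod_cast Nat.lt_succ_self n
      · refine (degree_le_of_natDegree_le ((natDegree_C_mul_le _ _).trans hs)).trans_lt ?_
        exact_mod_cast Nat.lt_succ_self n
    · rw [coeff_add, coeff_C_mul, hc1, mul_one, coeff_eq_zero_of_natDegree_lt (by omega), zero_add]
    · intro _
      rw [Nat.add_sub_cancel, coeff_add, coeff_C_mul, hs1, mul_one, hB', zero_add]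
    · intro η hη
      have h1 : P.eval η = P.coeff 0 + η * (Q'.eval η + P.coeff (2 * (n + 1)) * η ^ (2 * n + 1)) := by
        conv_lhs => rw [hQ]
        rw [hQ']
        simp only [eval_add, eval_mul, eval_sub, eval_C, eval_X, eval_pow]
        ring
      obtain ⟨h2, h3⟩ := hcs η hη
      rw [h1, he η hη]
      simp only [eval_add, eval_mul, eval_C]
      have h4 : η ^ (n + 1) * (η⁻¹) ^ (n + 1) = 1 := by
        rw [← mul_pow, mul_inv_cancel₀ hη, one_pow]
      have h5 : u + v = P.coeff (2 * (n + 1)) := by rw [hu, hv]; ring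
      have h6 : u - v = P.coeff 0 := by rw [hu, hv]; ring
      have h7 : u * c.eval (η + η⁻¹) + (η - η⁻¹) * (v * s.eval (η + η⁻¹)) =
          P.coeff (2 * (n + 1)) * η ^ (n + 1) + P.coeff 0 * (η⁻¹) ^ (n + 1) := by
        rw [← h2, ← h5, ← h6]
        have : (η - η⁻¹) * (v * s.eval (η + η⁻¹)) = v * (η ^ (n + 1) - (η⁻¹) ^ (n + 1)) := by
          rw [h3]; ring
        rw [this]
        ring
      have h8 : η ^ (n + 1) * (A.eval (η + η⁻¹) + u * c.eval (η + η⁻¹) +
          (η - η⁻¹) * (B.eval (η + η⁻¹) + v * s.eval (η + η⁻¹))) =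
          η ^ (n + 1) * (A.eval (η + η⁻¹) + (η - η⁻¹) * B.eval (η + η⁻¹)) +
          η ^ (n + 1) * (u * c.eval (η + η⁻¹) + (η - η⁻¹) * (v * s.eval (η + η⁻¹))) := by ring
      rw [h8, h7]
      linear_combination (-P.coeff 0) * h4

theorem T_eval (x : ℂ) : (T : ℂ[X]).eval x = x ^ 3 - 3 * x := by
  unfold T
  simp

theorem T_eval' (η : ℂ) (hη : η ≠ 0) : (T : ℂ[X]).eval (η + η⁻¹) = η ^ 3 + (η ^ 3)⁻¹ := by
  rw [T_eval]
  field_simp
  ring

theorem T_monic : (T : ℂ[X]).Monic := by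
  have : (T : ℂ[X]) = X ^ 3 - C 3 * X := by
    unfold T
    rfl
  rw [this]
  monicity!

theorem T_natDegree : (T : ℂ[X]).natDegree = 3 := by
  have : (T : ℂ[X]) = X ^ 3 - C 3 * X := by
    unfold T
    rfl
  rw [this]
  compute_degree!

/-- decomposition `F = F₀(T) + X F₁(T) + X² F₂(T)` -/
theorem tdec (n : ℕ) : ∀ F : ℂ[X], F.degree < (3 * n : ℕ) → ∃ F0 F1 F2 : ℂ[X],
    F0.degree < n ∧ F1.degree < n ∧ F2.degree < n ∧ (0 < n → F2.coeff (n - 1) = F.coeff (3 * n - 1)) ∧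
    F = F0.comp T + X * F1.comp T + X ^ 2 * F2.comp T := by
  induction n with
  | zero =>
    intro F hF
    have : F = 0 := by
      rw [mul_zero, Nat.cast_zero] at hF
      exact degree_eq_bot.1 (Nat.WithBot.lt_zero_iff.1 hF)
    subst this
    refine ⟨0, 0, 0, by simp, by simp, by simp, by simp, by simp⟩
  | succ n ih =>
    intro F hF
    have hdT : (T : ℂ[X]).degree = (3 : ℕ) := by
      rw [degree_eq_natDegree T_monic.ne_zero, T_natDegree]
    have hdec := modByMonic_add_div F T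
    set R := F %ₘ T with hR
    set G := F /ₘ T with hG
    have hRd : R.degree < (3 : ℕ) := by
      rw [← hdT]
      exact degree_modByMonic_lt F T_monic
    have hGd : G.degree < (3 * n : ℕ) := by
      by_cases hG0 : G = 0
      · rw [hG0, degree_zero]
        exact WithBot.bot_lt_coe _
      · have h1 : (T * G).degree < (3 * (n + 1) : ℕ) := by
          have : T * G = F - R := by rw [← hdec]; ring
          rw [this]
          refine (degree_sub_le _ _).trans_lt (max_lt hF (hRd.trans_le ?_))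
          exact_mod_cast (by omega : 3 ≤ 3 * (n + 1))
        rw [degree_mul, hdT, degree_eq_natDegree hG0] at h1
        rw [degree_eq_natDegree hG0]
        have h2 : 3 + G.natDegree < 3 * (n + 1) := by exact_mod_cast h1
        exact_mod_cast (by omega : G.natDegree < 3 * n)
    obtain ⟨G0, G1, G2, h0, h1, h2, hc, hGe⟩ := ih G hGd
    have hRe : R = C (R.coeff 0) + C (R.coeff 1) * X + C (R.coeff 2) * X ^ 2 := by
      ext k
      by_cases hk : k < 3
      · interval_cases k <;> simp [coeff_X, coeff_C, coeff_X_pow]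
      · have : R.coeff k = 0 := by
          refine coeff_eq_zero_of_degree_lt (hRd.trans_le ?_)
          exact_mod_cast (by omega : 3 ≤ k)
        rw [this]
        have h0 : k ≠ 0 := by omega
        have h1 : 1 ≠ k := by omega
        have h2 : k ≠ 2 := by omega
        simp [coeff_X, coeff_C, coeff_X_pow, h0, h1, h2]
    have hlt : ∀ (r : ℂ) (Q : ℂ[X]), Q.degree < n → (C r + X * Q).degree < ((n + 1 : ℕ) : WithBot ℕ) := by
      intro r Q hQ
      refine (degree_add_le _ _).trans_lt (max_lt ?_ ?_)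
      · refine degree_C_le.trans_lt ?_
        exact_mod_cast Nat.succ_pos n
      · by_cases hQ0 : Q = 0
        · rw [hQ0, mul_zero, degree_zero]
          exact WithBot.bot_lt_coe _
        · rw [degree_mul, degree_X, degree_eq_natDegree hQ0]
          rw [degree_eq_natDegree hQ0] at hQ
          have : Q.natDegree < n := by exact_mod_cast hQ
          exact_mod_cast (by omega : 1 + Q.natDegree < n + 1)
    refine ⟨C (R.coeff 0) + X * G0, C (R.coeff 1) + X * G1, C (R.coeff 2) + X * G2,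
      hlt _ _ h0, hlt _ _ h1, hlt _ _ h2, ?_, ?_⟩
    · intro _
      rw [Nat.add_sub_cancel]
      have h3 : 3 * (n + 1) - 1 = 3 * n + 2 := by omega
      rw [h3, ← hdec]
      have hT : (T : ℂ[X]) * G = X ^ 3 * G - C 3 * (X * G) := by
        have : (C 3 : ℂ[X]) = 3 := rfl
        rw [this]
        unfold T
        ring
      rw [hT, coeff_add, coeff_add, coeff_sub, coeff_C_mul]
      rcases Nat.eq_zero_or_pos n with hn | hn
      · subst hn
        have hG0 : G = 0 := by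
          rw [mul_zero, Nat.cast_zero] at hGd
          exact degree_eq_bot.1 (Nat.WithBot.lt_zero_iff.1 hGd)
        rw [hG0]
        simp
      · have h4 : (X ^ 3 * G).coeff (3 * n + 2) = G.coeff (3 * n - 1) := by
          rw [show 3 * n + 2 = (3 * n - 1) + 3 by omega, coeff_X_pow_mul]
        have h5 : (X * G).coeff (3 * n + 2) = 0 := by
          rw [show 3 * n + 2 = (3 * n + 1) + 1 by omega, coeff_X_mul]
          refine coeff_eq_zero_of_degree_lt (hGd.trans ?_)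
          exact_mod_cast (by omega : 3 * n < 3 * n + 1)
        have h6 : R.coeff (3 * n + 2) = 0 := by
          refine coeff_eq_zero_of_degree_lt (hRd.trans_le ?_)
          exact_mod_cast (by omega : 3 ≤ 3 * n + 2)
        rw [h4, h5, h6, ← hc hn]
        obtain ⟨k, rfl⟩ : ∃ k, n = k + 1 := ⟨n - 1, by omega⟩
        rw [coeff_C_succ, coeff_X_mul, Nat.add_sub_cancel]
        ring
    · rw [← hdec]
      conv_lhs => rw [hRe, hGe]
      simp only [add_comp, mul_comp, C_comp, X_comp]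
      ring

theorem reflect_eval (N : ℕ) (f : ℂ[X]) (hf : f.natDegree ≤ N) (η : ℂ) (hη : η ≠ 0) :
    (f.reflect N).eval η = η ^ N * f.eval η⁻¹ := by
  have hi : η⁻¹ ≠ 0 := inv_ne_zero hη
  let _ : Invertible η⁻¹ := invertibleOfNonzero hi
  have h := eval₂_reflect_mul_pow (RingHom.id ℂ) η⁻¹ N f hf
  rw [invOf_eq_inv, inv_inv] at h
  change (f.reflect N).eval η * η⁻¹ ^ N = f.eval η⁻¹ at h
  rw [← h, mul_comm, mul_assoc, ← mul_pow, inv_mul_cancel₀ hη, one_pow, mul_one]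

/-- order of vanishing -/
theorem dvd_of_H (n a : ℕ) (R : ℂ[X]) (hR : R.natDegree ≤ n)
    (h : (X - 1 : ℂ[X]) ^ (2 * a + 1) ∣ (X ^ 2 - 1) * H n R) : (X - C 2) ^ a ∣ R := by
  by_cases hR0 : R = 0
  · rw [hR0]
    exact dvd_zero _
  obtain ⟨R', hR', hnd⟩ := exists_eq_pow_rootMultiplicity_mul_and_not_dvd R hR0 2
  set e := rootMultiplicity 2 R with he
  have hR'0 : R' ≠ 0 := by
    rintro rfl
    exact hnd (dvd_zero _)
  have hdeg : R.natDegree = e + R'.natDegree := by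
    rw [hR', natDegree_mul (pow_ne_zero _ (X_sub_C_ne_zero 2)) hR'0, natDegree_pow,
      natDegree_X_sub_C, mul_one]
  have hH : H n R = (X - 1) ^ (2 * e) * H (n - e) R' := by
    apply eq_of_eval
    intro η hη
    rw [H_eval n R hR η hη, eval_mul, H_eval (n - e) R' (by omega) η hη]
    conv_lhs => rw [hR']
    simp only [eval_mul, eval_pow, eval_sub, eval_X, eval_C, eval_one]
    have h1 : (η - 1) ^ (2 * e) = η ^ e * (η + η⁻¹ - 2) ^ e := by
      rw [pow_mul, ← mul_pow]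
      congr 1
      field_simp
      ring
    have h2 : η ^ n = η ^ e * η ^ (n - e) := by
      rw [← pow_add]
      congr 1
      omega
    rw [h1, h2]
    ring
  by_cases hae : a ≤ e
  · rw [hR']
    exact (pow_dvd_pow _ hae).mul_right _
  · exfalso
    rw [hH] at h
    have h3 : (X ^ 2 - 1 : ℂ[X]) * ((X - 1) ^ (2 * e) * H (n - e) R') =
        (X - 1) ^ (2 * e + 1) * ((X + 1) * H (n - e) R') := by ring
    rw [h3, show 2 * a + 1 = (2 * e + 1) + (2 * a - 2 * e) by omega, pow_add] at h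
    have hne : (X - 1 : ℂ[X]) ^ (2 * e + 1) ≠ 0 := pow_ne_zero _ (by
      have := X_sub_C_ne_zero (1 : ℂ)
      rwa [C_1] at this)
    have h4 := (mul_dvd_mul_iff_left hne).1 h
    have h5 : (X - C 1 : ℂ[X]) ∣ (X + 1) * H (n - e) R' := by
      refine (dvd_pow_self _ ?_).trans (by rw [C_1]; exact h4)
      omega
    rw [dvd_iff_isRoot, IsRoot, eval_mul, H_one _ _ (by omega)] at h5
    simp only [eval_add, eval_X, eval_one] at h5
    have h6 : R'.eval 2 = 0 := by
      rcases mul_eq_zero.1 h5 with h | h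
      · norm_num at h
      · exact h
    exact hnd (dvd_iff_isRoot.2 h6)

theorem q3 {q : ℂ} (hq : q ^ 2 + q + 1 = 0) : q ^ 3 = 1 := by
  linear_combination (q - 1) * hq

theorem q_ne {q : ℂ} (hq : q ^ 2 + q + 1 = 0) : q ≠ 0 := by
  rintro rfl
  norm_num at hq

theorem qq_ne {q : ℂ} (hq : q ^ 2 + q + 1 = 0) : q - q ^ 2 ≠ 0 := by
  intro h
  have h1 : (q - q ^ 2) ^ 2 = -3 := by linear_combination (q ^ 2 - 3 * q + 3) * hq
  rw [h] at h1
  norm_num at h1

theorem q_sq {q : ℂ} (hq : q ^ 2 + q + 1 = 0) : (q ^ 2) ^ 2 + q ^ 2 + 1 = 0 := by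
  linear_combination (q ^ 2 - q + 1) * hq

/-- evaluation of `QQ` -/
theorem QQ_eval (m : ℕ) (P A B : ℂ[X])
    (he : ∀ η : ℂ, η ≠ 0 → P.eval η = η ^ m * (A.eval (η + η⁻¹) + (η - η⁻¹) * B.eval (η + η⁻¹)))
    (z : ℂ) (hz : z ≠ 0) :
    (QQ m P).eval z = z ^ (3 * m + 1) * ((z - z⁻¹) * ((X - C 2) ^ (2 * m) * A).eval (z + z⁻¹) +
      ((z + z⁻¹) ^ 2 - 4) * ((X - C 2) ^ (2 * m) * B).eval (z + z⁻¹)) := by
  unfold QQ
  simp only [eval_mul, eval_pow, eval_sub, eval_X, eval_C, eval_one]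
  rw [he z hz]
  have h1 : (z - 1) ^ (4 * m) = z ^ (2 * m) * (z + z⁻¹ - 2) ^ (2 * m) := by
    rw [show 4 * m = 2 * (2 * m) by ring, pow_mul, ← mul_pow]
    congr 1
    field_simp
    ring
  have h2 : z ^ 2 - 1 = z * (z - z⁻¹) := by field_simp
  have h3 : (z + z⁻¹) ^ 2 - 4 = (z - z⁻¹) * (z - z⁻¹) := by
    field_simp
    ring
  have h4 : z ^ (3 * m + 1) = z ^ m * z * z ^ (2 * m) := by ring
  rw [h1, h2, h3, h4]
  ring

theorem natDegree_comp_T (m : ℕ) (hm : 0 < m) (s : ℂ[X]) (hs : s.degree < m) :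
    (s.comp T).natDegree + 3 ≤ 3 * m := by
  rw [natDegree_comp, T_natDegree]
  by_cases h : s = 0
  · subst h
    simp
    omega
  · rw [degree_eq_natDegree h] at hs
    have : s.natDegree < m := by exact_mod_cast hs
    omega

/-- the condition at `q`, translated -/
theorem cond_q {q : ℂ} (hq : q ^ 2 + q + 1 = 0) (m a : ℕ) (hm : 0 < m)
    (P A B s0 s1 s2 O0 O1 O2 : ℂ[X]) (hP : P.natDegree ≤ 2 * m) (hA : A.natDegree ≤ m)
    (he : ∀ η : ℂ, η ≠ 0 → P.eval η = η ^ m * (A.eval (η + η⁻¹) + (η - η⁻¹) * B.eval (η + η⁻¹)))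
    (h0 : s0.degree < m) (h1 : s1.degree < m) (h2 : s2.degree < m) (hO2 : O2.degree < m)
    (hK : (X - C 2) ^ (2 * m) * B = s0.comp T + X * s1.comp T + X ^ 2 * s2.comp T)
    (hO : (X - C 2) ^ (2 * m) * A = O0.comp T + X * O1.comp T + X ^ 2 * O2.comp T)
    (h : (X - 1) ^ (2 * a + 1) ∣
      (QQ m P).comp (C q * X) - ((QQ m P).comp (C q * X)).reflect (6 * m + 2)) :
    (X - C 2) ^ a ∣ C (q - q ^ 2) * (T * s2.comp T - s1.comp T - X * (s0.comp T - s2.comp T)) +
      3 * O2.comp T * (X ^ 2 - 1) - (X - C 2) ^ (2 * m) * A := by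
  set R := C (q - q ^ 2) * (T * s2.comp T - s1.comp T - X * (s0.comp T - s2.comp T)) +
      3 * O2.comp T * (X ^ 2 - 1) - (X - C 2) ^ (2 * m) * A with hR
  have hRd : R.natDegree ≤ 3 * m := by
    have e0 := natDegree_comp_T m hm s0 h0
    have e1 := natDegree_comp_T m hm s1 h1
    have e2 := natDegree_comp_T m hm s2 h2
    have e3 := natDegree_comp_T m hm O2 hO2
    have f1 : (T * s2.comp T : ℂ[X]).natDegree ≤ 3 * m := by
      refine natDegree_mul_le.trans ?_
      rw [T_natDegree]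
      omega
    have f2 : (T * s2.comp T - s1.comp T : ℂ[X]).natDegree ≤ 3 * m :=
      (natDegree_sub_le _ _).trans (max_le f1 (by omega))
    have f3 : (X * (s0.comp T - s2.comp T) : ℂ[X]).natDegree ≤ 3 * m := by
      refine natDegree_mul_le.trans ?_
      rw [natDegree_X]
      have := natDegree_sub_le (s0.comp T) (s2.comp T)
      omega
    have f4 : (C (q - q ^ 2) * (T * s2.comp T - s1.comp T - X * (s0.comp T - s2.comp T))).natDegree
        ≤ 3 * m :=
      (natDegree_C_mul_le _ _).trans ((natDegree_sub_le _ _).trans (max_le f2 f3))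
    have f5 : (3 * O2.comp T * (X ^ 2 - 1) : ℂ[X]).natDegree ≤ 3 * m := by
      refine natDegree_mul_le.trans ?_
      have g1 : (3 * O2.comp T : ℂ[X]).natDegree ≤ (O2.comp T).natDegree := by
        have : (3 : ℂ[X]) = C 3 := rfl
        rw [this]
        exact natDegree_C_mul_le _ _
      have g2 : (X ^ 2 - 1 : ℂ[X]).natDegree ≤ 2 := by compute_degree
      omega
    have f6 : ((X - C 2) ^ (2 * m) * A).natDegree ≤ 3 * m := by
      refine natDegree_mul_le.trans ?_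
      rw [natDegree_pow, natDegree_X_sub_C]
      omega
    exact (natDegree_sub_le _ _).trans (max_le (natDegree_add_le_of_degree_le f4 f5) f6)
  have hq3 := q3 hq
  have hq0 := q_ne hq
  have hQd : ((QQ m P).comp (C q * X)).natDegree ≤ 6 * m + 2 := by
    refine natDegree_comp_le.trans ?_
    have g1 : (C q * X : ℂ[X]).natDegree ≤ 1 := (natDegree_C_mul_le _ _).trans natDegree_X_le
    have g2 : (QQ m P).natDegree ≤ 6 * m + 2 := by
      unfold QQ
      refine natDegree_mul_le.trans ?_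
      have k1 : (P * (X ^ 2 - 1)).natDegree ≤ 2 * m + 2 := by
        refine natDegree_mul_le.trans ?_
        have : (X ^ 2 - 1 : ℂ[X]).natDegree ≤ 2 := by compute_degree
        omega
      have k2 : ((X - 1 : ℂ[X]) ^ (4 * m)).natDegree ≤ 4 * m := by
        refine natDegree_pow_le.trans ?_
        have : (X - 1 : ℂ[X]).natDegree ≤ 1 := by compute_degree
        calc 4 * m * (X - 1 : ℂ[X]).natDegree ≤ 4 * m * 1 := Nat.mul_le_mul_left _ this
          _ = 4 * m := mul_one _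
      omega
    calc (QQ m P).natDegree * (C q * X : ℂ[X]).natDegree ≤ (6 * m + 2) * 1 :=
          Nat.mul_le_mul g2 g1
      _ = 6 * m + 2 := mul_one _
  have key : (QQ m P).comp (C q * X) - ((QQ m P).comp (C q * X)).reflect (6 * m + 2) =
      C q * ((X ^ 2 - 1) * H (3 * m) R) := by
    apply eq_of_eval
    intro η hη
    have hqη : q * η ≠ 0 := mul_ne_zero hq0 hη
    have hqη' : q * η⁻¹ ≠ 0 := mul_ne_zero hq0 (inv_ne_zero hη)
    have r1 : (C q * X : ℂ[X]).eval η = q * η := by simp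
    have r2 : (C q * X : ℂ[X]).eval η⁻¹ = q * η⁻¹ := by simp
    have r3 : (C q * ((X ^ 2 - 1) * H (3 * m) R)).eval η =
        q * ((η ^ 2 - 1) * (η ^ (3 * m) * R.eval (η + η⁻¹))) := by
      rw [eval_mul, eval_C, eval_mul, H_eval _ _ hRd η hη]
      simp only [eval_sub, eval_pow, eval_X, eval_one]
    rw [r3, eval_sub, reflect_eval _ _ hQd η hη, eval_comp, eval_comp, r1, r2,
      QQ_eval m P A B he _ hqη, QQ_eval m P A B he _ hqη', hR, hK, hO]
    have hqi : q⁻¹ = q ^ 2 := inv_eq_of_mul_eq_one_right (by rw [← hq3]; ring)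
    have i1 : (q * η)⁻¹ = q ^ 2 * η⁻¹ := by
      rw [mul_inv, hqi]
    have i2 : (q * η⁻¹)⁻¹ = q ^ 2 * η := by
      rw [mul_inv, inv_inv, hqi]
    rw [i1, i2]
    have hw : η * η⁻¹ = 1 := mul_inv_cancel₀ hη
    have hp : η ^ (3 * m + 1) * (η⁻¹) ^ (3 * m + 1) = 1 := by
      rw [← mul_pow, hw, one_pow]
    have hqp : q ^ (3 * m + 1) = q := by
      rw [pow_succ, pow_mul, hq3, one_pow, one_mul]
    simp only [eval_add, eval_mul, eval_sub, eval_comp, eval_pow, eval_X, eval_C, eval_one, T_eval,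
      eval_ofNat]
    generalize hwd : η⁻¹ = w at *
    have t1 : (q * η + q ^ 2 * w) ^ 3 - 3 * (q * η + q ^ 2 * w) = (η + w) ^ 3 - 3 * (η + w) := by
      have e1 : (η + w) ^ 3 - 3 * (η + w) = η ^ 3 + w ^ 3 := by
        linear_combination 3 * (η + w) * hw
      rw [e1]
      linear_combination (η ^ 3 + w ^ 3 * (q ^ 3 + 1) + 3 * (q * η + q ^ 2 * w) * (η * w)) * hq3 +
        3 * (q * η + q ^ 2 * w) * hw
    have t2 : (q * w + q ^ 2 * η) ^ 3 - 3 * (q * w + q ^ 2 * η) = (η + w) ^ 3 - 3 * (η + w) := by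
      have e1 : (η + w) ^ 3 - 3 * (η + w) = η ^ 3 + w ^ 3 := by
        linear_combination 3 * (η + w) * hw
      rw [e1]
      linear_combination (w ^ 3 + η ^ 3 * (q ^ 3 + 1) + 3 * (q * w + q ^ 2 * η) * (η * w)) * hq3 +
        3 * (q * w + q ^ 2 * η) * hw
    rw [t1, t2]
    set t := (η + w) ^ 3 - 3 * (η + w) with ht
    generalize s0.eval t = v0
    generalize s1.eval t = v1
    generalize s2.eval t = v2
    generalize O0.eval t = o0
    generalize O1.eval t = o1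
    generalize O2.eval t = o2
    have a1 : (q * η + q ^ 2 * w) - (q * w + q ^ 2 * η) = (q - q ^ 2) * (η - w) := by ring
    have a2 : (q * η + q ^ 2 * w) + (q * w + q ^ 2 * η) = -(η + w) := by
      linear_combination (η + w) * hq
    have a3 : (q * η + q ^ 2 * w) ^ 2 - (q * w + q ^ 2 * η) ^ 2 =
        -((q - q ^ 2) * (η - w) * (η + w)) := by
      linear_combination ((q * η + q ^ 2 * w) - (q * w + q ^ 2 * η)) * a2 - (η + w) * a1
    have b0 : (q * η - q ^ 2 * w) - (q * w - q ^ 2 * η) = -(η - w) := by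
      linear_combination (η - w) * hq
    have b1 : (q * η - q ^ 2 * w) * (q * η + q ^ 2 * w) - (q * w - q ^ 2 * η) * (q * w + q ^ 2 * η) =
        -((η - w) * (η + w)) := by
      linear_combination (η ^ 2 - w ^ 2) * (q ^ 2 - q + 1) * hq
    have b2 : (q * η - q ^ 2 * w) * (q * η + q ^ 2 * w) ^ 2 -
        (q * w - q ^ 2 * η) * (q * w + q ^ 2 * η) ^ 2 = (η - w) * (2 * (η + w) ^ 2 - 3) := by
      have c1 : (q * η - q ^ 2 * w) * (q * η + q ^ 2 * w) ^ 2 = 
        q ^ 3 * η ^ 3 - q ^ 6 * w ^ 3 + q ^ 3 * (η * w) * (q * η - q ^ 2 * w) := by ring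
      have c2 : (q * w - q ^ 2 * η) * (q * w + q ^ 2 * η) ^ 2 =
        q ^ 3 * w ^ 3 - q ^ 6 * η ^ 3 + q ^ 3 * (η * w) * (q * w - q ^ 2 * η) := by ring
      have c3 : q ^ 6 = 1 := by
        rw [show q ^ 6 = (q ^ 3) ^ 2 by ring, hq3, one_pow]
      rw [c1, c2, c3, hq3, hw]
      linear_combination b0 - 2 * (η - w) * hw
    have c4 : ((q * η - q ^ 2 * w) * (o0 + (q * η + q ^ 2 * w) * o1 + (q * η + q ^ 2 * w) ^ 2 * o2) +
        ((q * η + q ^ 2 * w) ^ 2 - 4) *
          (v0 + (q * η + q ^ 2 * w) * v1 + (q * η + q ^ 2 * w) ^ 2 * v2)) -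
        ((q * w - q ^ 2 * η) * (o0 + (q * w + q ^ 2 * η) * o1 + (q * w + q ^ 2 * η) ^ 2 * o2) +
        ((q * w + q ^ 2 * η) ^ 2 - 4) *
          (v0 + (q * w + q ^ 2 * η) * v1 + (q * w + q ^ 2 * η) ^ 2 * v2)) =
        (η - w) * ((q - q ^ 2) * (t * v2 - v1 - (η + w) * (v0 - v2)) +
          3 * o2 * ((η + w) ^ 2 - 1) - (o0 + (η + w) * o1 + (η + w) ^ 2 * o2)) := by
      linear_combination o0 * b0 + o1 * b1 + o2 * b2 + v0 * a3 - v1 * a1 + v2 * (t * a1 - a3) +
        (v1 + (q * η + q ^ 2 * w) * v2) * t1 - (v1 + (q * w + q ^ 2 * η) * v2) * t2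
    rw [mul_pow, mul_pow, hqp]
    have hp' : η ^ (6 * m + 2) * w ^ (3 * m + 1) = η ^ (3 * m + 1) := by
      rw [show 6 * m + 2 = (3 * m + 1) + (3 * m + 1) by ring, pow_add, mul_assoc, hp, mul_one]
    have hp2 : η ^ (3 * m + 1) = η ^ (3 * m) * η := pow_succ _ _
    generalize ((q * w - q ^ 2 * η) * (o0 + (q * w + q ^ 2 * η) * o1 + (q * w + q ^ 2 * η) ^ 2 * o2) +
        ((q * w + q ^ 2 * η) ^ 2 - 4) *
          (v0 + (q * w + q ^ 2 * η) * v1 + (q * w + q ^ 2 * η) ^ 2 * v2)) = S2 at *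
    generalize ((q * η - q ^ 2 * w) * (o0 + (q * η + q ^ 2 * w) * o1 + (q * η + q ^ 2 * w) ^ 2 * o2) +
        ((q * η + q ^ 2 * w) ^ 2 - 4) *
          (v0 + (q * η + q ^ 2 * w) * v1 + (q * η + q ^ 2 * w) ^ 2 * v2)) = S1 at *
    generalize ((q - q ^ 2) * (t * v2 - v1 - (η + w) * (v0 - v2)) +
          3 * o2 * ((η + w) ^ 2 - 1) - (o0 + (η + w) * o1 + (η + w) ^ 2 * o2)) = S3 at *
    linear_combination (q * η ^ (3 * m + 1)) * c4 - q * S2 * hp' + (q * S3 * (η - w)) * hp2 -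
      (q * η ^ (3 * m) * S3) * hw
  rw [key] at h
  have h' : (X - 1 : ℂ[X]) ^ (2 * a + 1) ∣ (X ^ 2 - 1) * H (3 * m) R := by
    have := h.mul_left (C q⁻¹)
    rwa [← mul_assoc, ← C_mul, inv_mul_cancel₀ hq0, C_1, one_mul] at this
  exact dvd_of_H _ _ _ hRd h'


theorem lam_neg (m : ℕ) (s : ℚ) : Lam m (-s) = -Lam m s := by
  unfold Lam
  rw [neg_sq, neg_mul, neg_div]

theorem lam_vanish (m : ℕ) (k : ℤ) (h3 : ¬ (3 : ℤ) ∣ k) (hk : |k| < 3 * m) : Lam m (k : ℚ) = 0 := by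
  unfold Lam
  rw [div_eq_zero_iff, mul_eq_zero]
  left; right
  have hn : ((k.natAbs : ℤ)) = |k| := Int.natCast_natAbs k
  have hsq : ((k : ℚ)) ^ 2 = ((k.natAbs : ℚ)) ^ 2 := by
    have h1 : (k : ℤ) ^ 2 = (k.natAbs : ℤ) ^ 2 := (Int.natAbs_sq k).symm
    have h2 := congrArg (Int.cast : ℤ → ℚ) h1
    push_cast at h2
    rw [h2]
    congr 1
    rw [← Int.cast_natCast (R := ℚ) k.natAbs, Int.natCast_natAbs]
    push_cast
    rfl
  have h3' : ¬ (3 ∣ k.natAbs) := fun h => h3 (Int.natCast_dvd.2 (by simpa using h))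
  have hlt : k.natAbs < 3 * m := by omega
  refine Finset.prod_eq_zero (i := k.natAbs / 3) (Finset.mem_range.2 (by omega)) ?_
  rw [mul_eq_zero, hsq]
  have hcase : k.natAbs = 3 * (k.natAbs / 3) + 1 ∨ k.natAbs = 3 * (k.natAbs / 3) + 2 := by omega
  generalize k.natAbs / 3 = j at *
  rcases hcase with h | h
  · left
    rw [h]
    push_cast
    ring
  · right
    rw [h]
    push_cast
    ring

theorem rp_one (n : ℕ) : rp 1 n = n.factorial := by
  induction n with
  | zero => simp [rp]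
  | succ n ih =>
    unfold rp at *
    rw [Finset.prod_range_succ, ih, Nat.factorial_succ]
    push_cast
    ring

theorem rp_double (x : ℚ) (m : ℕ) : rp x (2 * m) =
    ∏ j ∈ Finset.range m, ((x + ((m : ℚ) - 1 - j)) * (x + (m + j))) := by
  rw [Finset.prod_mul_distrib]
  unfold rp
  rw [two_mul, Finset.prod_range_add, ← Finset.prod_range_reflect]
  congr 1
  · refine Finset.prod_congr rfl fun j hj => ?_
    have hj' := Finset.mem_range.1 hj
    rw [Nat.cast_sub (by omega), Nat.cast_sub (by omega)]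
    push_cast
    rfl
  · refine Finset.prod_congr rfl fun j _ => ?_
    push_cast
    rfl

theorem rp_pos (x : ℚ) (hx : 0 < x) (n : ℕ) : 0 < rp x n := by
  unfold rp
  exact Finset.prod_pos fun j _ => by positivity

/-- the normalising constant -/
def cst (m : ℕ) : ℚ := (3 * m + 1) * 3 ^ (4 * m) * (2 * m).factorial * rp (2 / 3) (2 * m)

theorem cst_pos (m : ℕ) : 0 < cst m := by
  unfold cst
  have := rp_pos (2 / 3) (by norm_num) (2 * m)
  positivity

theorem lam_one (m : ℕ) : Lam m (3 * m + 1) = 1 := by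
  have key : (3 * (m : ℚ) + 1) * (∏ j ∈ Finset.range m,
      (((3 * (m : ℚ) + 1) ^ 2 - (3 * j + 1) ^ 2) * ((3 * (m : ℚ) + 1) ^ 2 - (3 * j + 2) ^ 2))) =
      cst m := by
    unfold cst
    rw [← rp_one, rp_double, rp_double]
    have h3 : (3 : ℚ) ^ (4 * m) = ∏ j ∈ Finset.range m, (81 : ℚ) := by
      rw [Finset.prod_const, Finset.card_range, pow_mul]
      norm_num
    rw [h3, mul_assoc, mul_assoc, ← Finset.prod_mul_distrib, ← Finset.prod_mul_distrib]
    congr 1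
    refine Finset.prod_congr rfl fun j _ => ?_
    ring
  unfold Lam
  rw [key]
  exact div_self (cst_pos m).ne'

/-- linear functionals on polynomials -/
noncomputable def Lin (φ : ℂ → ℂ) : ℂ[X] →ₗ[ℂ] ℂ :=
  Polynomial.lsum fun k => (φ k) • LinearMap.id

theorem Lin_monomial (φ : ℂ → ℂ) (k : ℕ) (c : ℂ) : Lin φ (monomial k c) = φ k * c := by
  unfold Lin
  rw [lsum_apply, sum_monomial_index] <;> simp

theorem Lin_C_mul_X_pow (φ : ℂ → ℂ) (k : ℕ) (c : ℂ) : Lin φ (C c * X ^ k) = φ k * c := by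
  rw [C_mul_X_pow_eq_monomial, Lin_monomial]

theorem Lin_X_pow (φ : ℂ → ℂ) (k : ℕ) : Lin φ (X ^ k) = φ k := by
  rw [X_pow_eq_monomial, Lin_monomial, mul_one]

theorem Lin_sub (φ : ℂ → ℂ) (g : ℂ[X]) : Lin φ ((X - 1) * g) = Lin (fwdDiff 1 φ) g := by
  induction g using Polynomial.induction_on' with
  | add p q hp hq => rw [mul_add, map_add, map_add, hp, hq]
  | monomial n c =>
    have : (X - 1) * monomial n c = monomial (n + 1) c - monomial n c := by
      rw [sub_mul, one_mul, X_mul_monomial]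
    rw [this, map_sub, Lin_monomial, Lin_monomial, Lin_monomial]
    unfold fwdDiff
    push_cast
    ring

theorem Lin_pow (N : ℕ) (φ : ℂ → ℂ) (g : ℂ[X]) :
    Lin φ ((X - 1) ^ N * g) = Lin ((fwdDiff 1)^[N] φ) g := by
  induction N generalizing φ with
  | zero => simp
  | succ N ih => rw [pow_succ', mul_assoc, Lin_sub, ih, Function.iterate_succ_apply]

theorem Lin_const (c : ℂ) (g : ℂ[X]) : Lin (fun _ => c) g = c * g.eval 1 := by
  induction g using Polynomial.induction_on' with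
  | add p q hp hq => rw [map_add, hp, hq, eval_add, mul_add]
  | monomial n a => rw [Lin_monomial, eval_monomial, one_pow, mul_one]

/-- the polynomial in the numerator of `Lam` -/
noncomputable def Psi (m : ℕ) : ℂ[X] :=
  (X - C (3 * m + 1 : ℂ)) * ∏ j ∈ Finset.range m,
    (((X - C (3 * m + 1 : ℂ)) ^ 2 - C ((3 * j + 1 : ℂ) ^ 2)) *
      ((X - C (3 * m + 1 : ℂ)) ^ 2 - C ((3 * j + 2 : ℂ) ^ 2)))

theorem aux_monic (u v : ℂ) : ((X - C u) ^ 2 - C v : ℂ[X]).Monic := by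
  have : ((X - C u) ^ 2 - C v : ℂ[X]) = X ^ 2 - C (2 * u) * X + C (u ^ 2 - v) := by
    simp only [C_mul, C_sub, C_pow]
    have : (C 2 : ℂ[X]) = 2 := rfl
    rw [this]
    ring
  rw [this]
  monicity!

theorem aux_deg (u v : ℂ) : ((X - C u) ^ 2 - C v : ℂ[X]).natDegree = 2 := by
  have : ((X - C u) ^ 2 - C v : ℂ[X]) = X ^ 2 - C (2 * u) * X + C (u ^ 2 - v) := by
    simp only [C_mul, C_sub, C_pow]
    have : (C 2 : ℂ[X]) = 2 := rfl
    rw [this]
    ring
  rw [this]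
  compute_degree!

theorem Psi_monic (m : ℕ) : (Psi m).Monic := by
  unfold Psi
  refine (monic_X_sub_C _).mul (monic_prod_of_monic _ _ fun j _ => ?_)
  exact (aux_monic _ _).mul (aux_monic _ _)

theorem Psi_natDegree (m : ℕ) : (Psi m).natDegree = 4 * m + 1 := by
  unfold Psi
  rw [(monic_X_sub_C _).natDegree_mul (monic_prod_of_monic _ _ fun j _ =>
    (aux_monic _ _).mul (aux_monic _ _)), natDegree_X_sub_C, natDegree_prod_of_monic _ _ fun j _ =>
    (aux_monic _ _).mul (aux_monic _ _)]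
  have : ∀ j ∈ Finset.range m, (((X - C (3 * m + 1 : ℂ)) ^ 2 - C ((3 * j + 1 : ℂ) ^ 2)) *
      ((X - C (3 * m + 1 : ℂ)) ^ 2 - C ((3 * j + 2 : ℂ) ^ 2)) : ℂ[X]).natDegree = 4 := by
    intro j _
    rw [(aux_monic _ _).natDegree_mul (aux_monic _ _), aux_deg, aux_deg]
  rw [Finset.sum_congr rfl this, Finset.sum_const, Finset.card_range, smul_eq_mul]
  ring

/-- the weight function -/
noncomputable def ph (m : ℕ) : ℂ → ℂ := fun z => ((cst m : ℚ) : ℂ)⁻¹ * (Psi m).eval z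

theorem ph_eq (m k : ℕ) : ph m (k : ℂ) = ((Lam m ((k : ℚ) - (3 * m + 1)) : ℚ) : ℂ) := by
  unfold ph Lam Psi
  rw [eval_mul, eval_prod]
  simp only [eval_mul, eval_sub, eval_X, eval_C, eval_pow]
  have : ((3 * (m : ℚ) + 1) * 3 ^ (4 * m) * (2 * m).factorial * rp (2 / 3) (2 * m)) = cst m := rfl
  rw [this]
  push_cast
  rw [div_eq_inv_mul]

theorem ph_diff (m : ℕ) : (fwdDiff 1)^[4 * m + 1] (ph m) = fun _ => ((sm m : ℚ) : ℂ)⁻¹ := by
  have h1 : ph m = ((cst m : ℚ) : ℂ)⁻¹ • (Psi m).eval := by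
    funext z
    rfl
  rw [h1, fwdDiff_iter_const_smul]
  have h2 := Polynomial.fwdDiff_iter_degree_eq_factorial (Psi m)
  rw [Psi_natDegree, Psi_monic m, one_smul] at h2
  rw [h2]
  funext z
  have h3 : sm m = cst m / (4 * m + 1).factorial := rfl
  rw [h3]
  push_cast
  rw [inv_div, Pi.smul_apply, smul_eq_mul, div_eq_inv_mul]
  rfl

theorem ph_of (m k : ℕ) (e : ℤ) (h : (k : ℤ) = e + (3 * m + 1)) : ph m (k : ℂ) = ((Lam m (e : ℚ) : ℚ) : ℂ) := by
  rw [ph_eq]
  have : ((k : ℤ) : ℚ) = e + (3 * m + 1) := by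
    rw [h]
    push_cast
    ring
  rw [Int.cast_natCast] at this
  rw [this]
  congr 2
  ring

theorem ph_zero (m k : ℕ) (e : ℤ) (h : (k : ℤ) = e + (3 * m + 1)) (h3 : ¬ (3 : ℤ) ∣ e)
    (he : |e| < 3 * m) : ph m (k : ℂ) = 0 := by
  rw [ph_of m k e h, lam_vanish m e h3 he]
  simp

theorem Lin_G (m : ℕ) (g : ℂ[X]) (hg : g.natDegree ≤ 2 * m) :
    Lin (ph m) ((X ^ 2 - 1) * g.comp (X ^ 3)) = g.coeff (2 * m) + g.coeff 0 := by
  have h1 : (X ^ 2 - 1) * g.comp (X ^ 3) = ∑ i ∈ Finset.range (2 * m + 1),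
      (C (g.coeff i) * X ^ (3 * i + 2) - C (g.coeff i) * X ^ (3 * i)) := by
    conv_lhs => rw [as_sum_range' g (2 * m + 1) (by omega)]
    rw [Polynomial.sum_comp, Finset.mul_sum]
    refine Finset.sum_congr rfl fun i _ => ?_
    rw [monomial_comp]
    ring
  rw [h1, map_sum]
  have h2 : ∀ i ∈ Finset.range (2 * m + 1), Lin (ph m)
      (C (g.coeff i) * X ^ (3 * i + 2) - C (g.coeff i) * X ^ (3 * i)) =
      (if i = 2 * m then g.coeff i else 0) + (if i = 0 then g.coeff i else 0) := by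
    intro i hi
    have hi' := Finset.mem_range.1 hi
    rw [map_sub, Lin_C_mul_X_pow, Lin_C_mul_X_pow]
    have h3 : ph m ((3 * i + 2 : ℕ) : ℂ) = if i = 2 * m then 1 else 0 := by
      split_ifs with h
      · rw [ph_of m _ (3 * m + 1 : ℕ) (by push_cast; omega)]
        have := lam_one m
        push_cast
        rw [this]
        norm_num
      · exact ph_zero m _ (3 * i + 2 - (3 * m + 1)) (by push_cast; ring) (by omega)
          (by rw [abs_lt]; omega)
    have h4 : ph m ((3 * i : ℕ) : ℂ) = if i = 0 then -1 else 0 := by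
      split_ifs with h
      · rw [ph_of m _ (-(3 * m + 1 : ℕ)) (by push_cast; omega)]
        have := lam_one m
        push_cast
        rw [lam_neg, this]
        norm_num
      · exact ph_zero m _ (3 * i - (3 * m + 1)) (by push_cast; ring) (by omega)
          (by rw [abs_lt]; omega)
    rw [h3, h4]
    split_ifs <;> ring
  rw [Finset.sum_congr rfl h2, Finset.sum_add_distrib]
  rw [Finset.sum_ite_eq' (Finset.range (2 * m + 1)) (2 * m), Finset.sum_ite_eq' (Finset.range (2 * m + 1)) 0]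
  simp

theorem Lin_G2 (m : ℕ) (hm : 0 < m) (g : ℂ[X]) (hg : g.natDegree ≤ 2 * (m - 1)) :
    Lin (ph m) (X ^ 2 * (X ^ 4 - 1) * g.comp (X ^ 3)) = 0 := by
  have h1 : X ^ 2 * (X ^ 4 - 1) * g.comp (X ^ 3) = ∑ i ∈ Finset.range (2 * (m - 1) + 1),
      (C (g.coeff i) * X ^ (3 * i + 6) - C (g.coeff i) * X ^ (3 * i + 2)) := by
    conv_lhs => rw [as_sum_range' g (2 * (m - 1) + 1) (by omega)]
    rw [Polynomial.sum_comp, Finset.mul_sum]
    refine Finset.sum_congr rfl fun i _ => ?_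
    rw [monomial_comp]
    ring
  rw [h1, map_sum]
  refine Finset.sum_eq_zero fun i hi => ?_
  have hi' := Finset.mem_range.1 hi
  rw [map_sub, Lin_C_mul_X_pow, Lin_C_mul_X_pow,
    ph_zero m _ (3 * i + 6 - (3 * m + 1)) (by push_cast; ring) (by omega)
          (by rw [abs_lt]; omega),
    ph_zero m _ (3 * i + 2 - (3 * m + 1)) (by push_cast; ring) (by omega)
          (by rw [abs_lt]; omega)]
  ring

/-- the two congruences -/
theorem split_dvd (c : ℂ) (hc : c ≠ 0) (a m : ℕ) (ha : a ≤ 2 * m) (A B s0 s1 s2 O2 : ℂ[X])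
    (hK : (X - C 2) ^ (2 * m) * B = s0.comp T + X * s1.comp T + X ^ 2 * s2.comp T)
    (h : (X - C 2) ^ a ∣ C c * (T * s2.comp T - s1.comp T - X * (s0.comp T - s2.comp T)) +
      3 * O2.comp T * (X ^ 2 - 1) - (X - C 2) ^ (2 * m) * A) :
    (X - C 2) ^ a ∣ s0.comp T + X * (C (1 / 2) * (s1 - C (3 / c) * O2)).comp T ∧
    (X - C 2) ^ a ∣ (C (1 / 2) * (s1 + C (3 / c) * O2)).comp T + X * s2.comp T := by
  have hcc : (C c : ℂ[X]) * C (3 / c) = 3 := by
    rw [← C_mul, mul_div_cancel₀ _ hc]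
    rfl
  have h2 : (C (1 / 2) : ℂ[X]) * 2 = 1 := by
    have : (2 : ℂ[X]) = C 2 := rfl
    rw [this, ← C_mul]
    norm_num
  have hT : (T : ℂ[X]) = X ^ 3 - 3 * X := rfl
  simp only [mul_comp, add_comp, sub_comp, C_comp]
  generalize s0.comp T = v0 at *
  generalize s1.comp T = v1 at *
  generalize s2.comp T = v2 at *
  generalize O2.comp T = o2 at *
  set y := (X - C 2 : ℂ[X]) ^ a with hy
  have hy1 : y ∣ (X - C 2) ^ (2 * m) := pow_dvd_pow _ ha
  have hyK : y ∣ v0 + X * v1 + X ^ 2 * v2 := by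
    rw [← hK]
    exact hy1.mul_right _
  have hyF : y ∣ C c * (T * v2 - v1 - X * (v0 - v2)) + 3 * o2 * (X ^ 2 - 1) := by
    have := dvd_add h (hy1.mul_right A)
    rwa [sub_add_cancel] at this
  have hyY : y ∣ T * v2 - v1 - X * (v0 - v2) + C (3 / c) * o2 * (X ^ 2 - 1) := by
    have h3 := hyF.mul_left (C c⁻¹)
    have h4 : (C c⁻¹ : ℂ[X]) * C c = 1 := by
      rw [← C_mul, inv_mul_cancel₀ hc, C_1]
    have h5 : C c⁻¹ * (C c * (T * v2 - v1 - X * (v0 - v2)) + 3 * o2 * (X ^ 2 - 1)) =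
        T * v2 - v1 - X * (v0 - v2) + C (3 / c) * o2 * (X ^ 2 - 1) := by
      rw [← hcc]
      linear_combination (T * v2 - v1 - X * (v0 - v2) + C (3 / c) * o2 * (X ^ 2 - 1)) * h4
    rwa [h5] at h3
  have hu1 : y ∣ C (1 / 2) * (v1 + C (3 / c) * o2) + X * v2 := by
    have h6 : (2 * X ^ 2 - 2) * (C (1 / 2) * (v1 + C (3 / c) * o2) + X * v2) =
        (T * v2 - v1 - X * (v0 - v2) + C (3 / c) * o2 * (X ^ 2 - 1)) +
          X * (v0 + X * v1 + X ^ 2 * v2) := by
      rw [hT]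
      linear_combination ((X ^ 2 - 1) * (v1 + C (3 / c) * o2)) * h2
    have h7 : y ∣ (2 * X ^ 2 - 2) * (C (1 / 2) * (v1 + C (3 / c) * o2) + X * v2) := by
      rw [h6]
      exact dvd_add hyY (hyK.mul_left _)
    have h8 : IsCoprime (X - C 2 : ℂ[X]) (2 * X ^ 2 - 2) := by
      refine ⟨-C (1 / 6) * (2 * X + 4), C (1 / 6), ?_⟩
      have h9 : (C (1 / 6) : ℂ[X]) * 6 = 1 := by
        have : (6 : ℂ[X]) = C 6 := rfl
        rw [this, ← C_mul]
        norm_num
      have h10 : (C 2 : ℂ[X]) = 2 := rfl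
      rw [h10]
      linear_combination h9
    exact (h8.pow_left).dvd_of_dvd_mul_left h7
  refine ⟨?_, hu1⟩
  have h11 : v0 + X * (C (1 / 2) * (v1 - C (3 / c) * o2)) = (v0 + X * v1 + X ^ 2 * v2) -
      X * (C (1 / 2) * (v1 + C (3 / c) * o2) + X * v2) := by
    linear_combination (X * v1) * h2
  rw [h11]
  exact dvd_sub hyK (hu1.mul_left _)

theorem natDegree_le_pred {m : ℕ} {s : ℂ[X]} (hs : s.degree < m) :
    s.natDegree ≤ m - 1 := by
  by_cases h : s = 0
  · subst h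
    simp
  · rw [degree_eq_natDegree h] at hs
    have : s.natDegree < m := by exact_mod_cast hs
    omega

/-- the exponents -/
theorem exp_one (d d' m i j : ℕ) (hm : m = d + d' + 1) (hj : j ≤ 2 * d' + 1) :
    ((3 * i + 3 * (2 * d' + 1 - j) + 1 : ℕ) : ℤ) =
      (ke (2 * d + 1) i - ke (2 * d' + 1) j) + (3 * m + 1) := by
  unfold ke
  rw [if_pos (by omega), if_pos (by omega)]
  push_cast
  omega

theorem exp_two (d d' m i j : ℕ) (hm : m = d + d' + 1) (hi : i ≤ 2 * d + 1) :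
    ((3 * (2 * d + 1 - i) + 3 * j + 1 : ℕ) : ℤ) =
      -(ke (2 * d + 1) i - ke (2 * d' + 1) j) + (3 * m + 1) := by
  unfold ke
  rw [if_pos (by omega), if_pos (by omega)]
  push_cast
  omega

/-- the part with exponents divisible by three -/
noncomputable def Zp (d d' : ℕ) (v : ℂ) : ℂ[X] :=
  C (-v) * ∑ i ∈ Finset.range (2 * d + 2), ∑ j ∈ Finset.range (2 * d' + 2),
    C ((cc (2 * d + 1) i : ℂ) * (cc (2 * d' + 1) j : ℂ)) *
      (X ^ (3 * i + 3 * (2 * d' + 1 - j) + 1) - X ^ (3 * (2 * d + 1 - i) + 3 * j + 1))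

theorem Lin_Z (d d' m : ℕ) (hmd : m = d + d' + 1) (v : ℂ) :
    Lin (ph m) (Zp d d' v) = -v * (2 * ((ell m (2 * d + 1) (2 * d' + 1) : ℚ) : ℂ)) := by
  unfold Zp
  rw [← smul_eq_C_mul, map_smul, map_sum, smul_eq_mul]
  congr 1
  unfold ell
  push_cast
  rw [Finset.mul_sum]
  refine Finset.sum_congr rfl fun i hi => ?_
  rw [map_sum, Finset.mul_sum]
  refine Finset.sum_congr rfl fun j hj => ?_
  have hi' := Finset.mem_range.1 hi
  have hj' := Finset.mem_range.1 hj
  rw [← smul_eq_C_mul, map_smul, map_sub, Lin_X_pow, Lin_X_pow,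
    ph_of m _ _ (exp_one d d' m i j hmd (by omega)), ph_of m _ _ (exp_two d d' m i j hmd (by omega)),
    smul_eq_mul]
  push_cast
  rw [lam_neg]
  push_cast
  ring

theorem W_one (d d' m : ℕ) (hmd : m = d + d' + 1) (η : ℂ) (hη : η ≠ 0) :
    η ^ (3 * m + 1) * ((∑ i ∈ Finset.range (2 * d + 2), (cc (2 * d + 1) i : ℂ) * η ^ ke (2 * d + 1) i) *
      (∑ j ∈ Finset.range (2 * d' + 2), (cc (2 * d' + 1) j : ℂ) * (η⁻¹) ^ ke (2 * d' + 1) j)) =
    ∑ i ∈ Finset.range (2 * d + 2), ∑ j ∈ Finset.range (2 * d' + 2),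
      ((cc (2 * d + 1) i : ℂ) * (cc (2 * d' + 1) j : ℂ)) * η ^ (3 * i + 3 * (2 * d' + 1 - j) + 1) := by
  rw [Finset.sum_mul_sum, Finset.mul_sum]
  refine Finset.sum_congr rfl fun i hi => ?_
  rw [Finset.mul_sum]
  refine Finset.sum_congr rfl fun j hj => ?_
  have hi' := Finset.mem_range.1 hi
  have hj' := Finset.mem_range.1 hj
  have h1 : η ^ (3 * m + 1) * (η ^ ke (2 * d + 1) i * (η⁻¹) ^ ke (2 * d' + 1) j) =
      η ^ (3 * i + 3 * (2 * d' + 1 - j) + 1) := by
    rw [← zpow_natCast, ← zpow_natCast, inv_zpow', ← zpow_add₀ hη, ← zpow_add₀ hη,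
      exp_one d d' m i j hmd (by omega)]
    congr 1
    push_cast
    ring
  rw [← h1]
  ring

theorem W_two (d d' m : ℕ) (hmd : m = d + d' + 1) (η : ℂ) (hη : η ≠ 0) :
    η ^ (3 * m + 1) * ((∑ i ∈ Finset.range (2 * d + 2), (cc (2 * d + 1) i : ℂ) * (η⁻¹) ^ ke (2 * d + 1) i) *
      (∑ j ∈ Finset.range (2 * d' + 2), (cc (2 * d' + 1) j : ℂ) * η ^ ke (2 * d' + 1) j)) =
    ∑ i ∈ Finset.range (2 * d + 2), ∑ j ∈ Finset.range (2 * d' + 2),
      ((cc (2 * d + 1) i : ℂ) * (cc (2 * d' + 1) j : ℂ)) * η ^ (3 * (2 * d + 1 - i) + 3 * j + 1) := by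
  rw [Finset.sum_mul_sum, Finset.mul_sum]
  refine Finset.sum_congr rfl fun i hi => ?_
  rw [Finset.mul_sum]
  refine Finset.sum_congr rfl fun j hj => ?_
  have hi' := Finset.mem_range.1 hi
  have hj' := Finset.mem_range.1 hj
  have h1 : η ^ (3 * m + 1) * ((η⁻¹) ^ ke (2 * d + 1) i * η ^ ke (2 * d' + 1) j) =
      η ^ (3 * (2 * d + 1 - i) + 3 * j + 1) := by
    rw [← zpow_natCast, ← zpow_natCast, inv_zpow', ← zpow_add₀ hη, ← zpow_add₀ hη,
      exp_two d d' m i j hmd (by omega)]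
    congr 1
    push_cast
    ring
  rw [← h1]
  ring

/-- the decomposition of the odd part according to the exponents modulo three -/
theorem main_id (d d' m : ℕ) (hmd : m = d + d' + 1) (A O0 O1 O2 α β α' β' : ℂ[X]) (v : ℂ)
    (hA : A.natDegree ≤ m) (hf : (O0 + O2).natDegree ≤ m) (h1 : O1.natDegree ≤ m - 1)
    (hO : (X - C 2) ^ (2 * m) * A = O0.comp T + X * O1.comp T + X ^ 2 * O2.comp T)
    (hO2 : O2 = C v * (α * β' - β * α'))
    (hη : ∀ η : ℂ, η ≠ 0 →
      η * α.eval (η ^ 3 + (η ^ 3)⁻¹) - (η ^ 2)⁻¹ * β.eval (η ^ 3 + (η ^ 3)⁻¹) =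
      ∑ i ∈ Finset.range (2 * d + 2), (cc (2 * d + 1) i : ℂ) * η ^ ke (2 * d + 1) i)
    (hη' : ∀ η : ℂ, η ≠ 0 →
      η * α'.eval (η ^ 3 + (η ^ 3)⁻¹) - (η ^ 2)⁻¹ * β'.eval (η ^ 3 + (η ^ 3)⁻¹) =
      ∑ i ∈ Finset.range (2 * d' + 2), (cc (2 * d' + 1) i : ℂ) * η ^ ke (2 * d' + 1) i) :
    (X ^ 2 - 1 : ℂ[X]) * (X - 1) ^ (4 * m) * H m A =
      (X ^ 2 - 1) * (H m (O0 + O2)).comp (X ^ 3) +
      X ^ 2 * (X ^ 4 - 1) * (H (m - 1) O1).comp (X ^ 3) + Zp d d' v := by
  apply eq_of_eval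
  intro η h0
  have h03 : η ^ 3 ≠ 0 := pow_ne_zero _ h0
  have hZ : (Zp d d' v).eval η = η ^ (3 * m + 1) * ((η ^ 3 - (η ^ 3)⁻¹) *
      O2.eval (η ^ 3 + (η ^ 3)⁻¹)) := by
    have e1 := W_one d d' m hmd η h0
    have e2 := W_two d d' m hmd η h0
    have hi0 : η⁻¹ ≠ 0 := inv_ne_zero h0
    rw [← hη η h0, ← hη' η⁻¹ hi0] at e1
    rw [← hη η⁻¹ hi0, ← hη' η h0] at e2
    have hinv : (η⁻¹) ^ 3 + ((η⁻¹) ^ 3)⁻¹ = η ^ 3 + (η ^ 3)⁻¹ := by
      rw [inv_pow, inv_inv, add_comm]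
    rw [hinv] at e1 e2
    unfold Zp
    rw [hO2]
    simp only [eval_mul, eval_C, eval_finsetSum, eval_sub, eval_pow, eval_X, mul_sub,
      Finset.sum_sub_distrib]
    rw [← e1, ← e2]
    generalize α.eval (η ^ 3 + (η ^ 3)⁻¹) = x1
    generalize β.eval (η ^ 3 + (η ^ 3)⁻¹) = x2
    generalize α'.eval (η ^ 3 + (η ^ 3)⁻¹) = x3
    generalize β'.eval (η ^ 3 + (η ^ 3)⁻¹) = x4
    generalize η ^ (3 * m + 1) = y
    field_simp
    ring
  rw [eval_add, eval_add, hZ]
  have hx : (X - C 2 : ℂ[X]) = X - 2 := rfl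
  have h5 := congrArg (Polynomial.eval (η + η⁻¹)) hO
  simp only [eval_mul, eval_add, eval_pow, eval_sub, eval_X, eval_C, eval_comp, T_eval' η h0] at h5
  rw [eval_mul, H_eval m A hA η h0]
  simp only [eval_mul, eval_sub, eval_pow, eval_X, eval_one, eval_comp]
  rw [H_eval m _ hf _ h03, H_eval (m - 1) _ h1 _ h03]
  have h6 : (η - 1) ^ (4 * m) = η ^ (2 * m) * (η + η⁻¹ - 2) ^ (2 * m) := by
    rw [show 4 * m = 2 * (2 * m) by ring, pow_mul, ← mul_pow]
    congr 1
    field_simp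
    ring
  rw [h6]
  have h7 : (η ^ 2 - 1) * (η ^ (2 * m) * (η + η⁻¹ - 2) ^ (2 * m)) * (η ^ m * A.eval (η + η⁻¹)) =
      (η ^ 2 - 1) * η ^ (3 * m) * ((η + η⁻¹ - 2) ^ (2 * m) * A.eval (η + η⁻¹)) := by ring
  rw [h7, h5, eval_add]
  generalize O0.eval (η ^ 3 + (η ^ 3)⁻¹) = o0
  generalize O1.eval (η ^ 3 + (η ^ 3)⁻¹) = o1
  generalize O2.eval (η ^ 3 + (η ^ 3)⁻¹) = o2
  have h8 : (η ^ 3) ^ m = η ^ (3 * m) := (pow_mul _ _ _).symm
  have h9 : η ^ (3 * m) = η ^ 3 * (η ^ 3) ^ (m - 1) := by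
    rw [← pow_succ', Nat.sub_add_cancel (by omega), h8]
  have h10 : η ^ (3 * m + 1) = η ^ (3 * m) * η := pow_succ _ _
  rw [h8, h10, h9]
  generalize (η ^ 3) ^ (m - 1) = y
  field_simp
  ring

end P4

end Pool.Agent.H59.Slit
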