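import Pool.Agent.H59.Slit.P2
import Pool.Agent.H59.Slit.P3
import Pool.Agent.H59.Slit.P4a

set_option autoImplicit false
open Polynomial

/-! CardySlit, job SL-P4 (helper76): the evaluation of the numerator at `η = 1`. -/

namespace Pool.Agent.H59.Slit
open Pool.Agent.H72.Cardy

open P4

theorem pade {q : ℂ} (hq : q ^ 2 + q + 1 = 0) (a b m : ℕ) (ha : a % 2 = 1) (hb : b % 2 = 1)
    (hm : a + b = 2 * m) (P : ℂ[X]) (hP : Cond q m a b P) :
    P.eval 1 = (sm m : ℂ) * ((P.coeff (2 * m) + P.coeff 0) / 2 +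
      (P.coeff (2 * m) - P.coeff 0) / (2 * (q - q ^ 2)) * ((ell m a b : ℚ) : ℂ)) := by
  have hm0 : 0 < m := by omega
  obtain ⟨d, rfl⟩ : ∃ d, a = 2 * d + 1 := ⟨a / 2, by omega⟩
  obtain ⟨d', rfl⟩ : ∃ d', b = 2 * d' + 1 := ⟨b / 2, by omega⟩
  have hmd : m = d + d' + 1 := by omega
  obtain ⟨A, B, hA, hB, hAm, hBm, he⟩ := decomp m P hP.deg
  have hBm := hBm hm0
  have hBn := natDegree_le_pred hB
  have hKn : ((X - C 2) ^ (2 * m) * B).natDegree ≤ 3 * m - 1 := by
    refine natDegree_mul_le.trans ?_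
    rw [natDegree_pow, natDegree_X_sub_C]
    omega
  have hKd : ((X - C 2) ^ (2 * m) * B).degree < ((3 * m : ℕ) : WithBot ℕ) := by
    refine (degree_le_of_natDegree_le hKn).trans_lt ?_
    exact_mod_cast (by omega : 3 * m - 1 < 3 * m)
  obtain ⟨s0, s1, s2, h0, h1, h2, hc, hK⟩ := tdec m _ hKd
  have hc := hc hm0
  have hpm : ((X - C 2 : ℂ[X]) ^ (2 * m)).coeff (2 * m) = 1 := by
    have h := (monic_X_sub_C (2 : ℂ)).pow (2 * m)
    rw [Monic, leadingCoeff, natDegree_pow, natDegree_X_sub_C, mul_one] at h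
    exact h
  have hpn : ((X - C 2 : ℂ[X]) ^ (2 * m)).natDegree ≤ 2 * m := by
    rw [natDegree_pow, natDegree_X_sub_C, mul_one]
  have hcK : s2.coeff (m - 1) = (P.coeff (2 * m) - P.coeff 0) / 2 := by
    rw [hc, show 3 * m - 1 = 2 * m + (m - 1) by omega,
      coeff_mul_add_eq_of_natDegree_le hpn hBn, hpm, one_mul, hBm]
  have hTm : ((T : ℂ[X]) ^ m).coeff (3 * m) = 1 := by
    have h := T_monic.pow m
    rw [Monic, leadingCoeff, natDegree_pow, T_natDegree, mul_comm] at h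
    exact h
  have hOd : ((X - C 2) ^ (2 * m) * A - C (A.coeff m) * T ^ m).degree < ((3 * m : ℕ) : WithBot ℕ) := by
    rw [degree_lt_iff_coeff_zero]
    intro k hk
    rw [coeff_sub, coeff_C_mul]
    rcases Nat.eq_or_lt_of_le hk with h | h
    · rw [← h, hTm, show 3 * m = 2 * m + m by ring, coeff_mul_add_eq_of_natDegree_le hpn hA, hpm]
      ring
    · have e1 : ((X - C 2) ^ (2 * m) * A).natDegree < k := by
        refine natDegree_mul_le.trans_lt ?_
        omega
      have e2 : ((T : ℂ[X]) ^ m).natDegree < k := by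
        rw [natDegree_pow, T_natDegree]
        omega
      rw [coeff_eq_zero_of_natDegree_lt e1, coeff_eq_zero_of_natDegree_lt e2]
      ring
  obtain ⟨O0', O1, O2, g0, g1, g2, -, hO'⟩ := tdec m _ hOd
  set O0 := O0' + C (A.coeff m) * X ^ m with hO0
  have hO : (X - C 2) ^ (2 * m) * A = O0.comp T + X * O1.comp T + X ^ 2 * O2.comp T := by
    rw [hO0]
    simp only [add_comp, mul_comp, C_comp, X_comp, pow_comp]
    linear_combination hO'
  have hqn := qq_ne hq
  have hx := cond_q hq m (2 * d + 1) hm0 P A B s0 s1 s2 O0 O1 O2 hP.deg hA he h0 h1 h2 g2 hK hO hP.hx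
  have hy := cond_q (q_sq hq) m (2 * d' + 1) hm0 P A B s0 s1 s2 O0 O1 O2 hP.deg hA he h0 h1 h2 g2
    hK hO hP.hy
  have hqq : q ^ 2 - (q ^ 2) ^ 2 = -(q - q ^ 2) := by
    linear_combination (q - q ^ 2) * hq
  rw [hqq] at hy
  set c := q - q ^ 2 with hcd
  obtain ⟨c0, c1⟩ := split_dvd c hqn (2 * d + 1) m (by omega) A B s0 s1 s2 O2 hK hx
  obtain ⟨r0, r1⟩ := split_dvd (-c) (neg_ne_zero.2 hqn) (2 * d' + 1) m (by omega) A B s0 s1 s2 O2 hK hy
  have hneg : (C (3 / -c) : ℂ[X]) = -C (3 / c) := by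
    rw [div_neg, C_neg]
  rw [hneg, neg_mul, sub_neg_eq_add] at r0
  rw [hneg, neg_mul, ← sub_eq_add_neg] at r1
  obtain ⟨α, β, hw, hη⟩ := exists_w d
  obtain ⟨α', β', hw', hη'⟩ := exists_w d'
  have hdeg : ∀ s : ℂ[X], s.degree < m → s.natDegree ≤ d + d' := by
    intro s hs
    have := natDegree_le_pred hs
    omega
  have hO2n := hdeg O2 g2
  have hs1n := hdeg s1 h1
  have hd01 : (C (1 / 2) * (s1 + C (3 / c) * O2)).natDegree ≤ d + d' :=
    (natDegree_C_mul_le _ _).trans (natDegree_add_le_of_degree_le hs1n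
      ((natDegree_C_mul_le _ _).trans hO2n))
  have hd10 : (C (1 / 2) * (s1 - C (3 / c) * O2)).natDegree ≤ d + d' :=
    (natDegree_C_mul_le _ _).trans ((natDegree_sub_le _ _).trans (max_le hs1n
      ((natDegree_C_mul_le _ _).trans hO2n)))
  have hhalf : (C (1 / 2) : ℂ[X]) * 2 = 1 := by
    have : (2 : ℂ[X]) = C 2 := rfl
    rw [this, ← C_mul]
    norm_num
  have hKK : (X - C 2) ^ (2 * d + 2 * d' + 2) ∣ s0.comp T +
      X * ((C (1 / 2) * (s1 + C (3 / c) * O2)).comp T +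
        (C (1 / 2) * (s1 - C (3 / c) * O2)).comp T) + X ^ 2 * s2.comp T := by
    have h3 : s0.comp T + X * ((C (1 / 2) * (s1 + C (3 / c) * O2)).comp T +
        (C (1 / 2) * (s1 - C (3 / c) * O2)).comp T) + X ^ 2 * s2.comp T =
        (X - C 2) ^ (2 * m) * B := by
      rw [hK]
      simp only [mul_comp, add_comp, sub_comp, C_comp]
      linear_combination (X * s1.comp T) * hhalf
    rw [h3, show 2 * d + 2 * d' + 2 = 2 * m by omega]
    exact dvd_mul_right _ _
  obtain ⟨κ, -, u01, u10, u11⟩ := uniq d d' α β α' β' s0 (C (1 / 2) * (s1 + C (3 / c) * O2))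
    (C (1 / 2) * (s1 - C (3 / c) * O2)) s2 hw hw' (hdeg s0 h0) hd01 hd10 (hdeg s2 h2)
    c0 c1 r0 r1 hKK
  have hκ : κ = (P.coeff (2 * m) - P.coeff 0) / 2 := by
    rw [← hcK, u11, show m - 1 = d + d' by omega, mul_assoc, coeff_C_mul,
      coeff_mul_add_eq_of_natDegree_le hw.degβ hw'.degβ, hw.lead, hw'.lead]
    ring
  have hO2 : O2 = C (c * κ / 3) * (α * β' - β * α') := by
    have h4 : C (3 / c) * O2 = C κ * (α * β' - β * α') := by
      linear_combination u01 - u10 - (C (3 / c) * O2) * hhalf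
    have h5 : (C (c / 3) : ℂ[X]) * C (3 / c) = 1 := by
      rw [← C_mul, div_mul_div_cancel₀ (by norm_num : (3 : ℂ) ≠ 0), div_self hqn, C_1]
    have h6 : (C (c * κ / 3) : ℂ[X]) = C (c / 3) * C κ := by
      rw [← C_mul]
      congr 1
      ring
    rw [h6]
    linear_combination (C (c / 3)) * h4 - O2 * h5
  have hO0n : (O0' + C (A.coeff m) * X ^ m).natDegree ≤ m := by
    refine natDegree_add_le_of_degree_le ((natDegree_le_pred g0).trans (by omega)) ?_
    exact (natDegree_C_mul_X_pow_le _ _)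
  have hfn : (O0 + O2).natDegree ≤ m := natDegree_add_le_of_degree_le hO0n (by omega)
  have hfm : (O0 + O2).coeff m = A.coeff m := by
    rw [coeff_add, hO0, coeff_add, coeff_C_mul, coeff_X_pow, if_pos rfl, mul_one,
      coeff_eq_zero_of_degree_lt g0, coeff_eq_zero_of_degree_lt g2]
    ring
  have hO1n := natDegree_le_pred g1
  have key := main_id d d' m hmd A O0 O1 O2 α β α' β' (c * κ / 3) hA hfn hO1n hO hO2 hη hη'
  have hL := congrArg (Lin (ph m)) key
  have hL1 : (X ^ 2 - 1 : ℂ[X]) * (X - 1) ^ (4 * m) * H m A =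
      (X - 1) ^ (4 * m + 1) * ((X + 1) * H m A) := by ring
  rw [hL1, Lin_pow, ph_diff, Lin_const, map_add, map_add, Lin_G m _ (H_deg m _), H_coeff_top,
    H_coeff_zero, hfm, Lin_G2 m hm0 _ (H_deg _ _), Lin_Z d d' m hmd, eval_mul, H_one m A hA] at hL
  simp only [eval_add, eval_X, eval_one] at hL
  have hP1 : P.eval 1 = A.eval 2 := by
    rw [he 1 one_ne_zero]
    norm_num
  have hsm : ((sm m : ℚ) : ℂ) ≠ 0 := by
    have : sm m = cst m / (4 * m + 1).factorial := rfl
    rw [this]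
    have h7 := cst_pos m
    have h8 : 0 < cst m / (4 * m + 1).factorial := by positivity
    exact_mod_cast h8.ne'
  have hc2 : c * c = -3 := by
    rw [hcd]
    linear_combination (q ^ 2 - 3 * q + 3) * hq
  rw [hP1, ← hAm]
  have h9 : A.eval 2 = (sm m : ℂ) * (A.coeff m - c * κ / 3 * ((ell m (2 * d + 1) (2 * d' + 1) : ℚ) : ℂ)) := by
    have h10 : (2 : ℂ) * A.eval 2 = (sm m : ℂ) * (((sm m : ℚ) : ℂ)⁻¹ * ((1 + 1) * A.eval 2)) := by
      rw [mul_inv_cancel_left₀ hsm]
      ring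
    rw [hL] at h10
    linear_combination (1 / 2) * h10
  rw [h9, hκ]
  congr 2
  rw [sub_eq_add_neg]
  congr 1
  have h11 : (P.coeff (2 * m) - P.coeff 0) / (2 * c) = -(c * ((P.coeff (2 * m) - P.coeff 0) / 2) / 3) := by
    field_simp
    linear_combination (P.coeff (2 * m) - P.coeff 0) * hc2
  rw [h11]
  ring

end Pool.Agent.H59.Slit
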